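import Mathlib

namespace Pool.Agent.Lib.MP_33ce69_lc.Lol

/-- a clause of three literals; the literal `(v, s)` asks for the value `s` of variable `v` -/
abbrev Clause := (ℕ × Bool) × (ℕ × Bool) × (ℕ × Bool)

/-- every variable of the clauses is bound by one of the quantifiers -/
def Closed (qs : List Bool) (cs : List Clause) : Prop :=
  ∀ c ∈ cs, c.1.1 < qs.length ∧ c.2.1.1 < qs.length ∧ c.2.2.1 < qs.length

/-- Truth of a quantified 3-CNF formula: `a` lists the values chosen so far, the first list holds
the remaining quantifiers (`true` = for all, `false` = exists). -/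
def Holds (cs : List Clause) : List Bool → List Bool → Prop
  | [], a => ∀ c ∈ cs, a.getD c.1.1 false = c.1.2 ∨ a.getD c.2.1.1 false = c.2.1.2 ∨
      a.getD c.2.2.1 false = c.2.2.2
  | true :: qs, a => ∀ b, Holds cs qs (a ++ [b])
  | false :: qs, a => ∃ b, Holds cs qs (a ++ [b])

variable {V : Type} (G : SimpleGraph V)

/-- `P` lists all vertices once and consecutive vertices are adjacent -/
def HamPath (P : List V) : Prop := P.Nodup ∧ (∀ v, v ∈ P) ∧ P.IsChain G.Adj

/-- The edges of the graph `H`: with `P = v_1 ... v_n` and `v_n v_k` an edge, `2 ≤ k ≤ n - 2`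
(`k = i + 1`), `Q = v_1 ... v_k v_n v_(n-1) ... v_(k+1)`. -/
def Rot (P Q : List V) : Prop :=
  ∃ (i : ℕ) (u z : V), 1 ≤ i ∧ i + 3 ≤ P.length ∧ P[i]? = some u ∧ P.getLast? = some z ∧
    G.Adj z u ∧ Q = P.take (i + 1) ++ (P.drop (i + 1)).reverse

/-- the last vertex is adjacent to the first -/
def Closes (P : List V) : Prop := ∃ x z, P.head? = some x ∧ P.getLast? = some z ∧ G.Adj z x

/-- `a` and `b` are neighbours in the cyclic order of `P` -/
def OnCycle (P : List V) (a b : V) : Prop :=
  ∃ i, (P[i]? = some a ∧ P[(i + 1) % P.length]? = some b) ∨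
    (P[i]? = some b ∧ P[(i + 1) % P.length]? = some a)

end Pool.Agent.Lib.MP_33ce69_lc.Lol
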