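import Pool.Agent.Lib.MP_33ce69_lc.Lol.Walk

/-! The machine of a quantified formula. -/

namespace Pool.Agent.Lib.MP_33ce69_lc.Lol

open Function Relation

def lit (cs : List Clause) (b : ℕ) : ℕ × Bool :=
  if b % 3 = 1 then (cs.getD ((b - 1) / 3) ((0, false), (0, false), (0, false))).1
  else if b % 3 = 2 then (cs.getD ((b - 1) / 3) ((0, false), (0, false), (0, false))).2.1
  else (cs.getD ((b - 1) / 3) ((0, false), (0, false), (0, false))).2.2

def dat (x : List Bool × List Clause) : Dat :=
  ⟨x.1.length, 3 * x.2.length, fun k => x.1.getD k false, fun b => (lit x.2 b).1,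
    fun b => if (lit x.2 b).2 = true then 2 else 1⟩

variable {qs : List Bool} {cs : List Clause}

theorem lit_eq {i : ℕ} (hi : i < cs.length) : lit cs (3 * i + 1) = cs[i].1 ∧
    lit cs (3 * i + 1 + 1) = cs[i].2.1 ∧ lit cs (3 * i + 1 + 2) = cs[i].2.2 := by
  refine ⟨?_, ?_, ?_⟩
  · rw [lit, if_pos (by omega), show (3 * i + 1 - 1) / 3 = i by omega, List.getD_eq_getElem _ _ hi]
  · rw [lit, if_neg (by omega), if_pos (by omega), show (3 * i + 1 + 1 - 1) / 3 = i by omega,
      List.getD_eq_getElem _ _ hi]
  · rw [lit, if_neg (by omega), if_neg (by omega), show (3 * i + 1 + 2 - 1) / 3 = i by omega,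
      List.getD_eq_getElem _ _ hi]

theorem dat_ok (h : Closed qs cs) : (dat (qs, cs)).OK := by
  refine ⟨by simp [dat], fun b h1 (h2 : b ≤ 3 * cs.length) => ?_, fun b => ?_⟩
  · have hi : (b - 1) / 3 < cs.length := by omega
    have a := lit_eq hi
    have c := h _ (List.getElem_mem hi)
    change (lit cs b).1 < qs.length
    rcases (by omega : b = 3 * ((b - 1) / 3) + 1 ∨ b = 3 * ((b - 1) / 3) + 1 + 1 ∨
      b = 3 * ((b - 1) / 3) + 1 + 2) with e | e | e <;> rw [e]
    · exact a.1 ▸ c.1
    · exact a.2.1 ▸ c.2.1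
    · exact a.2.2 ▸ c.2.2
  · simp only [dat]
    split_ifs <;> simp

theorem ex_iff (α : ℕ → Bool) (b : ℕ) :
    (dat (qs, cs)).ex α b = (dat (qs, cs)).te b ↔ α (lit cs b).1 = (lit cs b).2 := by
  have : ∀ x y : Bool, ((if x = true then 2 else 1) = if y = true then 2 else 1) ↔ x = y := by
    decide
  exact this _ _

theorem getD_snoc (a : List Bool) (b : Bool) :
    (fun v => (a ++ [b]).getD v false) = update (fun v => a.getD v false) a.length b := by
  funext v
  rcases lt_trichotomy v a.length with c | rfl | c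
  · rw [update_of_ne c.ne, List.getD_append _ _ _ _ c]
  · simp
  · rw [update_of_ne c.ne', List.getD_eq_default _ _ (by simp; omega),
      List.getD_eq_default _ _ c.le]

theorem tv_iff : ∀ (r : List Bool) (a : List Bool), qs.drop a.length = r →
    (Holds cs r a ↔ (dat (qs, cs)).Tv r.length a.length fun v => a.getD v false)
  | [], a, _ => by
    simp only [Holds, List.length_nil, Dat.Tv, Dat.Mat, ex_iff]
    constructor
    · intro h c h1 _ (h2 : c ≤ 3 * cs.length)
      obtain ⟨i, rfl⟩ : ∃ i, c = 3 * i + 1 := ⟨c / 3, by omega⟩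
      have hi : i < cs.length := by omega
      obtain ⟨a1, a2, a3⟩ := lit_eq hi
      rw [a1, a2, a3]
      exact h _ (List.getElem_mem hi)
    · intro h c hc
      obtain ⟨i, hi, rfl⟩ := List.getElem_of_mem hc
      obtain ⟨a1, a2, a3⟩ := lit_eq hi
      have := h (3 * i + 1) (by omega) (by omega) (show _ ≤ 3 * cs.length by omega)
      rwa [a1, a2, a3] at this
  | q :: r, a, e => by
    have e1 : (dat (qs, cs)).q a.length = q := by
      have := congrArg (·[0]?) e
      simp only [List.getElem?_drop, Nat.add_zero, List.getElem?_cons_zero] at this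
      simp [dat, this]
    have ih : ∀ b, Holds cs r (a ++ [b]) ↔ (dat (qs, cs)).Tv r.length (a.length + 1)
        (update (fun v => a.getD v false) a.length b) := fun b => by
      have := tv_iff r (a ++ [b]) (by
        rw [List.length_append, List.length_singleton, ← List.tail_drop, e, List.tail_cons])
      rwa [getD_snoc, List.length_append, List.length_singleton] at this
    cases q <;> simp only [Holds, List.length_cons, Dat.Tv, e1, ih] <;> simp

/-- the edges, the first path and the edge that shows the answer -/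
def out (x : List Bool × List Clause) : List (ℕ × ℕ) × List ℕ × ℕ × ℕ :=
  (edges (dat x).board, List.range (2 * (dat x).board.n),
    (dat x).board.n + (dat x).U (1, (dat x).V, 0),
    (dat x).board.n + ((dat x).U (1, (dat x).V, 0) + 1))

theorem main (h : Closed qs cs) :
    ∃ (m : ℕ) (G : SimpleGraph (Fin m)) (P : List (Fin m)) (a b : Fin m),
      Lists (out (qs, cs)).1 G.edgeSet ∧ (out (qs, cs)).2.1 = P.map Fin.val ∧
      (out (qs, cs)).2.2 = (a.val, b.val) ∧ (∀ x, (G.neighborSet x).ncard = 3) ∧ HamPath G P ∧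
      Closes G P ∧ G.Adj a b ∧ (∃ Q, ReflTransGen (Rot G) P Q ∧ Q ≠ P ∧ Closes G Q) ∧
      ∀ Q, ReflTransGen (Rot G) P Q → Q ≠ P → Closes G Q → (OnCycle Q a b ↔ Holds cs qs []) := by
  have o := dat_ok h
  have v := Dat.valid o
  have u := Dat.U_lt o
  have n2 := two v
  have tv := tv_iff (qs := qs) (cs := cs) qs [] rfl
  unfold out
  simp only
  generalize hd : dat (qs, cs) = d at *
  have hV : qs.length = d.V := by rw [← hd]; rfl
  rw [hV] at tv
  refine ⟨_, gr d.board, List.finRange _, ⟨d.board.n + d.U (1, d.V, 0), by omega⟩,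
    ⟨d.board.n + (d.U (1, d.V, 0) + 1), by omega⟩, gr_lists v,
    List.map_coe_finRange_eq_range.symm, rfl, gr_cubic v, ham_range v, closes_range v,
    (gr_adj v).2 (Or.inl ?_), other_end (gr_cubic v) (ham_range v) ?_ (closes_range v),
    fun Q r ne c => (Dat.answer o r ne c rfl rfl).trans tv.symm⟩
  · simp only
    rw [nx, if_neg (by omega)]
    rfl
  · rw [List.length_finRange]
    omega

end Pool.Agent.Lib.MP_33ce69_lc.Lol
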