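import Mathlib

/-!
A reversible token machine: node `x` is a `K x`-gon whose state `s` is its missing edge
`(s, s + 1)`; the token enters at one end of that edge and is reflected across the other end.
-/

namespace Pool.Agent.Lib.MP_33ce69_lc.Lol

open Function

def Rule (k s j s' j' : ℕ) : Prop :=
  s < k ∧ ((j = s ∧ s' = (s + 1) % k ∧ j' = (s + 2) % k) ∨
    (j = (s + 1) % k ∧ s' = (s + (k - 1)) % k ∧ j' = s'))

instance (k s j s' j' : ℕ) : Decidable (Rule k s j s' j') := by unfold Rule; infer_instance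

theorem Rule.symm {k s j s' j' : ℕ} (hk : k = 3 ∨ k = 5) (h : Rule k s j s' j') :
    Rule k s' j' s j := by
  unfold Rule at *
  rcases hk with rfl | rfl <;> omega

theorem Rule.lt {k s j s' j' : ℕ} (hk : k = 3 ∨ k = 5) (h : Rule k s j s' j') :
    j < k ∧ j' < k ∧ s' < k := by
  unfold Rule at *
  rcases hk with rfl | rfl <;> omega

theorem Rule.det {k s j s' j' s'' j'' : ℕ} (hk : k = 3 ∨ k = 5) (h : Rule k s j s' j')
    (h' : Rule k s j s'' j'') : s' = s'' ∧ j' = j'' := by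
  unfold Rule at *
  rcases hk with rfl | rfl <;> omega

variable {ι : Type} [DecidableEq ι] (K : ι → ℕ) (lnk : ι × ℕ → ι × ℕ)

/-- one passage through a node -/
def Jr (σ : ι → ℕ) (p : ι × ℕ) (τ : ι → ℕ) (e : ι × ℕ) : Prop :=
  (K p.1 = 3 ∨ K p.1 = 5) ∧ e.1 = p.1 ∧
    ∃ s', Rule (K p.1) (σ p.1) p.2 s' e.2 ∧ τ = update σ p.1 s'

inductive Go (S : ι → Prop) : (ι → ℕ) → ι × ℕ → (ι → ℕ) → ι × ℕ → Prop
  | one {σ p τ e} : Jr K σ p τ e → S p.1 → Go S σ p τ e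
  | more {σ p τ e υ f} : Jr K σ p τ e → S p.1 → Go S τ (lnk e) υ f → Go S σ p υ f

/-- the links are an involution of the corners -/
def Inv : Prop := ∀ p : ι × ℕ, p.2 < K p.1 → (lnk p).2 < K (lnk p).1 ∧ lnk (lnk p) = p

variable {K lnk} {S S' : ι → Prop} {σ τ υ : ι → ℕ} {p e f : ι × ℕ}

theorem Jr.symm (h : Jr K σ p τ e) : Jr K τ e σ p := by
  obtain ⟨x, j⟩ := p
  obtain ⟨y, i⟩ := e
  obtain ⟨h1, rfl, s, h2, rfl⟩ := h
  exact ⟨h1, rfl, σ y, by simpa using h2.symm h1, by simp⟩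

theorem Jr.lt (h : Jr K σ p τ e) : p.2 < K p.1 ∧ e.2 < K e.1 := by
  obtain ⟨h1, h2, s, h3, -⟩ := h
  rw [h2]
  exact ⟨(h3.lt h1).1, (h3.lt h1).2.1⟩

theorem Jr.det (h : Jr K σ p τ e) (h' : Jr K σ p υ f) : τ = υ ∧ e = f := by
  obtain ⟨h1, h2, s, h3, rfl⟩ := h
  obtain ⟨-, k2, s', k3, rfl⟩ := h'
  obtain ⟨rfl, a⟩ := h3.det h1 k3
  exact ⟨rfl, Prod.ext (h2.trans k2.symm) a⟩

theorem Go.trans {ω : ι → ℕ} {g : ι × ℕ} (h : Go K lnk S σ p τ e)
    (h' : Go K lnk S τ (lnk e) ω g) : Go K lnk S σ p ω g := by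
  induction h with
  | one a b => exact .more a b h'
  | more a b _ ih => exact .more a b (ih h')

theorem Go.rev (i : Inv K lnk) (h : Go K lnk S σ p τ e) : Go K lnk S τ e σ p := by
  induction h with
  | one a b => exact .one a.symm (a.2.1 ▸ b)
  | more a b _ ih => exact ih.trans (by rw [(i _ a.lt.2).2]; exact .one a.symm (a.2.1 ▸ b))

theorem Go.mono (h : Go K lnk S σ p τ e) (k : ∀ x, S x → S' x) : Go K lnk S' σ p τ e := by
  induction h with
  | one a b => exact .one a (k _ b)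
  | more a b _ ih => exact .more a (k _ b) ih

theorem Go.out (h : Go K lnk S σ p τ e) {x : ι} (hx : ¬ S x) : τ x = σ x := by
  have k : ∀ {σ p τ e}, Jr K σ p τ e → S p.1 → τ x = σ x := by
    rintro σ p τ e ⟨-, -, s, -, rfl⟩ b
    exact update_of_ne (fun z : x = p.1 => hx (z ▸ b)) ..
  induction h with
  | one a b => exact k a b
  | more a b _ ih => exact ih.trans (k a b)

theorem Go.frame (h : Go K lnk S σ p τ e) {x : ι} (hx : ¬ S x) (s : ℕ) :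
    Go K lnk S (update σ x s) p (update τ x s) e := by
  have k : ∀ {σ p τ e}, Jr K σ p τ e → S p.1 → Jr K (update σ x s) p (update τ x s) e := by
    rintro σ p τ e ⟨a1, a2, s', a3, rfl⟩ b
    have ne : p.1 ≠ x := fun z => hx (z ▸ b)
    exact ⟨a1, a2, s', by rwa [update_of_ne ne], update_comm ne ..⟩
  induction h with
  | one a b => exact .one (k a b) b
  | more a b _ ih => exact .more (k a b) b ih

theorem Go.last {x : ι} {k s j s' j' : ℕ} (hK : K x = k) (hs : σ x = s) (hS : S x)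
    (r : (k = 3 ∨ k = 5) ∧ Rule k s j s' j') : Go K lnk S σ (x, j) (update σ x s') (x, j') :=
  .one ⟨hK ▸ r.1, rfl, s', by rw [hK, hs]; exact r.2, rfl⟩ hS

theorem Go.step {x : ι} {k s j j' : ℕ} (s' : ℕ) (hl : lnk (x, j') = p) (hK : K x = k) (hs : σ x = s)
    (hS : S x) (r : (k = 3 ∨ k = 5) ∧ Rule k s j s' j')
    (h : Go K lnk S (update σ x s') p τ e) : Go K lnk S σ (x, j) τ e :=
  (Go.last hK hs hS r).trans (hl ▸ h)

variable (K lnk)

/-- the configurations met by the run that starts in `σ0` behind the corner `p0` -/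
inductive Fwd (σ0 : ι → ℕ) (p0 : ι × ℕ) : (ι → ℕ) → ι × ℕ → Prop
  | start : Fwd σ0 p0 σ0 (lnk p0)
  | step {σ τ : ι → ℕ} {p e : ι × ℕ} : Fwd σ0 p0 σ p → Jr K σ p τ e → Fwd σ0 p0 τ (lnk e)

def Orb (σ0 : ι → ℕ) (p0 : ι × ℕ) (σ : ι → ℕ) (p : ι × ℕ) : Prop :=
  p.2 < K p.1 ∧ (Fwd K lnk σ0 p0 σ p ∨ Fwd K lnk σ0 p0 σ (lnk p))

variable {K lnk} {σ0 : ι → ℕ} {p0 : ι × ℕ}

theorem Orb.link (i : Inv K lnk) (h : Orb K lnk σ0 p0 σ p) : Orb K lnk σ0 p0 σ (lnk p) :=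
  ⟨(i p h.1).1, by rw [(i p h.1).2]; exact h.2.symm⟩

theorem Fwd.back (i : Inv K lnk) (h0 : p0.2 < K p0.1) (hp : p.2 < K p.1)
    (h : Fwd K lnk σ0 p0 σ (lnk p)) :
    (σ = σ0 ∧ p = p0) ∨ ∃ υ f, Fwd K lnk σ0 p0 υ f ∧ Jr K υ f σ p := by
  generalize hq : lnk p = q at h
  cases h with
  | start => exact Or.inl ⟨rfl, by rw [← (i p hp).2, hq, (i p0 h0).2]⟩
  | step a b =>
    exact Or.inr ⟨_, _, a, by rw [← (i p hp).2, hq, (i _ b.lt.2).2]; exact b⟩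

theorem Orb.jump (i : Inv K lnk) (h0 : p0.2 < K p0.1) (k0 : K p0.1 = 2) (h : Orb K lnk σ0 p0 σ p)
    (j : Jr K σ p τ e) : Orb K lnk σ0 p0 τ e := by
  refine ⟨j.lt.2, ?_⟩
  rcases h.2 with a | a
  · exact Or.inr (a.step j)
  · rcases a.back i h0 h.1 with ⟨-, rfl⟩ | ⟨υ, f, a1, a2⟩
    · have := j.1
      omega
    · obtain ⟨rfl, rfl⟩ := j.det a2.symm
      exact Or.inl a1

theorem Go.stop (g : Go K lnk S σ p τ e) (k : K (lnk e).1 = 2) {ω : ι → ℕ} {q : ι × ℕ}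
    (r : Relation.ReflTransGen (fun a b : (ι → ℕ) × ι × ℕ => ∃ f, Jr K a.1 a.2 b.1 f ∧ b.2 = lnk f)
      (σ, p) (ω, q)) (kq : K q.1 = 2) : ω = τ ∧ q = lnk e := by
  have key : ∀ {σ p τ e}, Jr K σ p τ e → Relation.ReflTransGen
      (fun a b : (ι → ℕ) × ι × ℕ => ∃ f, Jr K a.1 a.2 b.1 f ∧ b.2 = lnk f) (σ, p) (ω, q) →
      Relation.ReflTransGen (fun a b : (ι → ℕ) × ι × ℕ => ∃ f, Jr K a.1 a.2 b.1 f ∧ b.2 = lnk f)
        (τ, lnk e) (ω, q) := fun {σ p τ e} a r => by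
    rcases r.cases_head with z | ⟨⟨c, d⟩, ⟨f, z1, z2⟩, z3⟩
    · obtain ⟨-, rfl⟩ := Prod.mk.inj z
      have := a.1
      omega
    · obtain ⟨rfl, rfl⟩ := a.det z1
      obtain rfl : d = lnk e := z2
      exact z3
  induction g with
  | one a _ =>
    rcases (key a r).cases_head with z | ⟨_, ⟨f, z1, -⟩, -⟩
    · obtain ⟨rfl, rfl⟩ := Prod.mk.inj z
      exact ⟨rfl, rfl⟩
    · have : K (lnk _).1 = 3 ∨ K (lnk _).1 = 5 := z1.1
      omega
  | more a _ _ ih => exact ih k (key a r)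

/-- the two ends of the orbit -/
theorem Orb.ends (i : Inv K lnk) (h0 : p0.2 < K p0.1) (g : Go K lnk S σ0 (lnk p0) τ e)
    (k : K (lnk e).1 = 2) (h : Orb K lnk σ0 p0 σ p) (kp : K p.1 = 2) :
    (σ = σ0 ∧ p = p0) ∨ (σ = τ ∧ p = lnk e) := by
  rcases h.2 with a | a
  · refine Or.inr (g.stop k ?_ kp)
    clear h kp
    induction a with
    | start => exact .refl
    | step _ b ih => exact ih.tail ⟨_, b, rfl⟩
  · rcases a.back i h0 h.1 with z | ⟨υ, f, -, a2⟩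
    · exact Or.inl z
    · have := a2.symm.1
      omega

end Pool.Agent.Lib.MP_33ce69_lc.Lol
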