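import Pool.Agent.Lib.MP_33ce69_lc.Odd.Kink
import Pool.Agent.Lib.MP_33ce69_lc.Lol.Mach

/-!
A Hamiltonian path on a board with its end `t`: `E v` tells whether the edge `(v - 1, v)` is used,
`C v` whether the chord at `v` is used. A rotation moves the end like a token.
-/

namespace Pool.Agent.Lib.MP_33ce69_lc.Lol

open Pool.Agent.Lib.MP_33ce69_lc.Odd Board Function

set_option maxHeartbeats 400000

def Ed (b : Board) (E C : ℕ → ℕ) (u v x : ℕ) : Prop :=
  (v = u + 1 ∧ E v = x) ∨ (u = v + 1 ∧ E u = x) ∨ (b.kd u ≠ 0 ∧ v = b.ch u ∧ C u = x)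

structure Tk (b : Board) (E C : ℕ → ℕ) (t : ℕ) : Prop where
  tlt : t < b.n
  le : ∀ v, E v ≤ 1 ∧ C v ≤ 1
  e0 : E 0 = 1
  en : E b.n = 0
  deg : ∀ v < b.n, v ≠ t → E v + E (v + 1) + C v = 2
  dt : E t + E (t + 1) + C t = 1
  pc : ∀ v < b.n, b.kd v = 0 → C v = 0
  sym : ∀ v < b.n, b.kd v ≠ 0 → C (b.ch v) = C v
  cut : ∀ X : ℕ → Prop, (∃ v < b.n, X v) → ¬ X 0 →
    ∃ u < b.n, ∃ v < b.n, X u ∧ ¬ X v ∧ Ed b E C u v 1

def Same (u v a c : ℕ) : Prop := (u = a ∧ v = c) ∨ (u = c ∧ v = a)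

structure Mv (b : Board) (E C : ℕ → ℕ) (t : ℕ) (E' C' : ℕ → ℕ) (t' p : ℕ) : Prop where
  plt : p < b.n
  add : Ed b E C p t 0
  rem : Ed b E C p t' 1
  add' : Ed b E' C' p t 1
  rem' : Ed b E' C' p t' 0
  kE : ∀ v, v + 1 < b.n → ¬ Same v (v + 1) p t → ¬ Same v (v + 1) p t' → E' (v + 1) = E (v + 1)
  kC : ∀ v < b.n, b.kd v ≠ 0 → ¬ Same v (b.ch v) p t → ¬ Same v (b.ch v) p t' → C' v = C v

/-- the polygon that starts at `u` misses exactly its edge number `s` -/
def St (b : Board) (E C : ℕ → ℕ) (u s : ℕ) : Prop :=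
  u + s ≤ b.ch u ∧ (C u = 0 ↔ u + s = b.ch u) ∧ ∀ w, u < w → w ≤ b.ch u → (E w = 0 ↔ w = u + s + 1)

def Pol (b : Board) (E C σ : ℕ → ℕ) : Prop := ∀ u < b.n, b.kd u = 5 → St b E C u (σ u)

variable {b : Board} {E C E' C' σ : ℕ → ℕ} {t t' p : ℕ}

/-- the missing edge at `v` -/
def mm (b : Board) (E : ℕ → ℕ) (t v : ℕ) : ℕ :=
  if E v = 0 then 0 else if E (v + 1) = 0 ∧ (v + 1 ≠ b.n ∨ v ≠ t) then 1 else 2

theorem mm_spec (b : Board) (E : ℕ → ℕ) (t v : ℕ) : (mm b E t v = 0 ∧ E v = 0) ∨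
    (mm b E t v = 1 ∧ E v ≠ 0 ∧ E (v + 1) = 0 ∧ (v + 1 ≠ b.n ∨ v ≠ t)) ∨
    (mm b E t v = 2 ∧ E v ≠ 0 ∧ (E (v + 1) ≠ 0 ∨ (v + 1 = b.n ∧ v = t))) := by
  unfold mm
  split_ifs with a c
  · exact Or.inl ⟨rfl, a⟩
  · exact Or.inr (Or.inl ⟨rfl, a, c⟩)
  · exact Or.inr (Or.inr ⟨rfl, a, by omega⟩)

theorem Tk.state (h : b.Valid) (s : Tk b E C t) (k : t = b.n - 1 ∨ b.kd t = 0) :
    b.State (mm b E t) t ∧ ∀ v < b.n, (mm b E t v = 2 → C v = 0) ∧
      (b.kd v ≠ 0 → C v = 0 → mm b E t v = 2) := by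
  have kl := h.kl
  have hp := h.pos
  have dt := s.dt
  have en := s.en
  have key : ∀ v < b.n, (mm b E t v = 2 → C v = 0) ∧ (b.kd v ≠ 0 → C v = 0 → mm b E t v = 2) ∧
      (E (v + 1) = 0 → v + 1 < b.n → E v = 1) ∧ (b.kd v = 0 → (mm b E t v ≠ 2 ↔ v = t)) ∧
      (v + 1 = b.n → (mm b E t v = 1 ↔ v ≠ t)) := fun v hv => by
    have a1 := s.deg v hv
    have a2 := s.le v
    have a3 := s.le (v + 1)
    have a4 := s.pc v hv
    have a5 : v + 1 = b.n → E (v + 1) = 0 ∧ b.kd v = 4 := fun e =>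
      ⟨e ▸ en, by rw [show v = b.n - 1 by omega]; exact kl⟩
    have a6 := mm_spec b E t v
    by_cases e : v = t
    · subst e
      omega
    · omega
  refine ⟨⟨⟨fun v _ => ?_, fun v hv => ?_, fun v hv k0 e => ?_⟩, ?_, s.tlt, k, ?_,
    fun v hv => (key v hv).2.2.2.1, fun X h1 h2 => ?_⟩, fun v hv => ⟨(key v hv).1, (key v hv).2.1⟩⟩
  · have := mm_spec b E t v
    omega
  · have := (key v (by omega)).2.2.1
    have := mm_spec b E t v
    have := mm_spec b E t (v + 1)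
    omega
  · obtain ⟨c1, -, -, -, c5⟩ := h.chord v hv k0
    unfold okc at c5
    exact (key _ c1).2.1 (by omega) (by rw [s.sym v hv k0]; exact (key v hv).1 e)
  · have := mm_spec b E t 0
    have := s.e0
    omega
  · exact ((key (b.n - 1) (by omega)).2.2.2.2 (by omega)).trans ne_comm
  · obtain ⟨u, hu, v, hv, x1, x2, x3⟩ := s.cut X h1 h2
    refine ⟨u, hu, v, hv, x1, x2, ?_⟩
    rcases x3 with ⟨rfl, a⟩ | ⟨rfl, a⟩ | ⟨a1, a2, a3⟩
    · have := mm_spec b E t u
      exact Or.inl ⟨rfl, by omega⟩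
    · have := mm_spec b E t (v + 1)
      exact Or.inr (Or.inl ⟨rfl, by omega⟩)
    · exact Or.inr (Or.inr ⟨a1, a2, fun e => by have := (key u hu).1 e; omega⟩)

theorem Tk.noport (h : b.Valid) (s : Tk b E C t) : b.kd t ≠ 0 := fun k => by
  have := nokink h (s.state h (Or.inr k)).1
  have kl := h.kl
  rw [← this] at kl
  omega

theorem Tk.port (h : b.Valid) (s : Tk b E C t) {v : ℕ} (hv : v < b.n) (k : b.kd v = 0) :
    E v = 1 ∧ E (v + 1) = 1 := by
  have a1 := s.deg v hv fun e => s.noport h (e ▸ k)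
  have a2 := s.le v
  have a3 := s.le (v + 1)
  have a4 := s.pc v hv k
  omega

theorem Tk.noclose (h : b.Valid) (s : Tk b E C t) {u : ℕ} (hu : u < b.n) (k : b.kd u = 5)
    (h1 : C u = 1) (h2 : ∀ w, u < w → w ≤ b.ch u → E w = 1) : False := by
  obtain ⟨c1, c2, -⟩ := h.chord u hu (by omega)
  obtain ⟨p1, -⟩ := h.poly u hu k
  obtain ⟨x, hx, y, -, ⟨x1, x2⟩, y1, e⟩ := s.cut (fun w => u ≤ w ∧ w ≤ b.ch u)
    ⟨u, hu, le_rfl, by omega⟩ fun z => by
      have := h.k0
      rw [show u = 0 by omega] at k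
      omega
  have a0 : E x + E (x + 1) + C x ≤ 2 := by
    by_cases z : x = t
    · have := s.dt
      subst z
      omega
    · exact (s.deg x hx z).le
  have a1 := h2 x
  have a2 := h2 (x + 1)
  have a3 := s.sym u hu (by omega)
  rcases e with ⟨rfl, a⟩ | ⟨rfl, a⟩ | ⟨-, rfl, a⟩
  · obtain rfl : x = b.ch u := by omega
    omega
  · obtain rfl : u = y + 1 := by omega
    omega
  · by_cases z : x = u
    · subst z
      omega
    by_cases z' : x = b.ch u
    · subst z'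
      omega
    · omega

/-- an edge of the polygon `u .. c` -/
def PE (E C : ℕ → ℕ) (u c p a x : ℕ) : Prop :=
  (a = p + 1 ∧ a ≤ c ∧ E a = x) ∨ (p = a + 1 ∧ u ≤ a ∧ E p = x) ∨
    (((a = u ∧ p = c) ∨ (a = c ∧ p = u)) ∧ C u = x)

theorem Tk.pe (h : b.Valid) (s : Tk b E C t) {u a x : ℕ} (hu : u < b.n) (k : b.kd u = 5)
    (h1 : u ≤ p) (h2 : p ≤ b.ch u) (ha : a < b.n) (ka : 3 ≤ b.kd a) (e : Ed b E C p a x) :
    PE E C u (b.ch u) p a x := by
  obtain ⟨-, c2, -⟩ := h.chord u hu (by omega)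
  obtain ⟨pl, pk⟩ := h.corner hu k h1 h2
  have p1 := (h.poly u hu k).1
  rcases e with ⟨e', e⟩ | ⟨e', e⟩ | ⟨k0, rfl, e⟩
  · have := h.pair p (by omega)
    rw [← e'] at this
    unfold okp at this
    exact Or.inl ⟨e', by omega, e⟩
  · have := h.pair a (by omega)
    rw [← e'] at this
    unfold okp at this
    exact Or.inr (Or.inl ⟨e', by omega, e⟩)
  · have := (h.chord p pl k0).2.2.2.2
    unfold okc at this
    rcases pk with ⟨rfl, -⟩ | z | ⟨rfl, -⟩
    · exact Or.inr (Or.inr ⟨Or.inr ⟨rfl, rfl⟩, e⟩)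
    · omega
    · exact Or.inr (Or.inr ⟨Or.inl ⟨c2, rfl⟩, by rw [← s.sym u hu (by omega), e]⟩)

/-- the edge `p a` is edge number `i` of the polygon `u .. c` -/
def Ix (u c p a i : ℕ) : Prop :=
  (a = p + 1 ∧ a ≤ c ∧ u + i = p) ∨ (p = a + 1 ∧ u ≤ a ∧ u + i = a) ∨
    (((a = u ∧ p = c) ∨ (a = c ∧ p = u)) ∧ u + i = c)

theorem PE.ix {u a x y : ℕ} (e : PE E C u (b.ch u) p a x) (s : St b E C u y) (h1 : u ≤ p)
    (h2 : p ≤ b.ch u) : ∃ i, Ix u (b.ch u) p a i ∧ (x = 0 ↔ i = y) := by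
  obtain ⟨a1, a2, a3⟩ := s
  rcases e with ⟨e1, e2, e3⟩ | ⟨e1, e2, e3⟩ | ⟨e1, e2⟩
  · have := a3 a (by omega) e2
    exact ⟨p - u, Or.inl ⟨e1, e2, by omega⟩, by omega⟩
  · have := a3 p (by omega) h2
    exact ⟨a - u, Or.inr (Or.inl ⟨e1, e2, by omega⟩), by omega⟩
  · exact ⟨b.ch u - u, Or.inr (Or.inr ⟨e1, by omega⟩), by omega⟩

theorem Ix.rule {u c x y : ℕ} (e : Ix u c p t y) (e' : Ix u c p t' x) (ne : x ≠ y)
    (h1 : u + 2 ≤ c) (h2 : c ≤ u + 4) (h3 : u ≤ p) (h4 : p ≤ c) :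
    Rule (c - u + 1) y (t - u) x (t' - u) := by
  unfold Rule
  rcases (by omega : c - u + 1 = 3 ∨ c - u + 1 = 4 ∨ c - u + 1 = 5) with z | z | z <;> rw [z] <;>
    rcases e with e | e | e <;> rcases e' with e' | e' | e' <;> omega

theorem Mv.keep (h : b.Valid) (m : Mv b E C t E' C' t' p) {u x : ℕ} (hu : u < b.n)
    (k : b.kd u = 5) (z : ¬ (u ≤ p ∧ p ≤ b.ch u)) (a : St b E C u x) : St b E' C' u x := by
  obtain ⟨c1, -⟩ := h.chord u hu (by omega)
  obtain ⟨a1, a2, a3⟩ := a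
  refine ⟨a1, ?_, fun w w1 w2 => ?_⟩
  · rwa [m.kC u hu (by omega) (by unfold Same; omega) (by unfold Same; omega)]
  · obtain ⟨v, rfl⟩ : ∃ v, w = v + 1 := ⟨w - 1, by omega⟩
    rw [m.kE v (by omega) (by unfold Same; omega) (by unfold Same; omega)]
    exact a3 _ w1 w2

theorem step (h : b.Valid) (s : Tk b E C t) (s' : Tk b E' C' t') (m : Mv b E C t E' C' t' p)
    (k : 3 ≤ b.kd t) (pl : Pol b E C σ) :
    3 ≤ b.kd t' ∧ (Pol b E' C' σ ∨ ∃ u < b.n, b.kd u = 5 ∧ ∃ j j' x, t = u + j ∧ t' = u + j' ∧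
      Rule (b.ch u - u + 1) (σ u) j x j' ∧ Pol b E' C' (update σ u x)) := by
  have hp := m.plt
  have ht := s.tlt
  have ht' := s'.tlt
  have np := s'.noport h
  by_cases k5 : 5 ≤ b.kd p
  · obtain ⟨u, hu, ku, u1, u2⟩ := h.first hp k5
    obtain ⟨c1, -⟩ := h.chord u hu (by omega)
    obtain ⟨p1, p2, -⟩ := h.poly u hu ku
    have st := pl u hu ku
    have e1 := (s.pe h hu ku u1 u2 ht k m.add).ix st u1 u2
    have e2 := s'.pe h hu ku u1 u2 ht k m.add'
    obtain ⟨y, e1, rfl⟩ : ∃ y, Ix u (b.ch u) p t y ∧ σ u = y := ⟨_, e1.choose_spec.1,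
      (e1.choose_spec.2.1 rfl).symm⟩
    obtain ⟨a1, a2, a3⟩ := st
    have kc := m.kC u hu (by omega)
    have lc := (s.le u).2
    have ke : ∀ w, u < w → w ≤ b.ch u → (¬ Same (w - 1) w p t → ¬ Same (w - 1) w p t' →
        E' w = E w) ∧ (E w = 0 ↔ w = u + σ u + 1) ∧ E w ≤ 1 ∧ (w = p → E' w = E' p) ∧
        (w = t → E' w = E' t) ∧ (w = t' → E' w = E' t') := fun w w1 w2 => by
      refine ⟨?_, a3 w w1 w2, (s.le w).1, congrArg E', congrArg E', congrArg E'⟩
      obtain ⟨v, rfl⟩ : ∃ v, w = v + 1 := ⟨w - 1, by omega⟩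
      exact m.kE v (by omega)
    have k' : 3 ≤ b.kd t' := by
      by_contra z
      have out : ¬ (u ≤ t' ∧ t' ≤ b.ch u) := fun y => by
        have := (h.corner hu ku y.1 y.2).2
        omega
      unfold PE at e2
      unfold Ix at e1
      unfold Same at kc ke
      exact s'.noclose h hu ku (by omega) fun w w1 w2 => by
        have := ke w w1 w2
        omega
    obtain ⟨x, e3, ne⟩ := (s.pe h hu ku u1 u2 ht' k' m.rem).ix ⟨a1, a2, a3⟩ u1 u2
    have e4 := s'.pe h hu ku u1 u2 ht' k' m.rem'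
    have ne' : x ≠ σ u := fun z => absurd (ne.2 z) one_ne_zero
    refine ⟨k', Or.inr ⟨u, hu, ku, t - u, t' - u, x, by unfold Ix at e1; omega,
      by unfold Ix at e3; omega, e1.rule e3 ne' p1 p2 u1 u2, fun v hv kv => ?_⟩⟩
    · by_cases e : v = u
      · subst e
        rw [update_self]
        clear ne a3
        unfold PE at e2 e4
        unfold Ix at e1 e3
        unfold Same at kc ke
        refine ⟨by omega, ?_, fun w w1 w2 => ?_⟩
        · clear ke
          rcases e1 with e1 | e1 | e1 <;> rcases e3 with e3 | e3 | e3 <;> omega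
        · have := ke w w1 w2
          clear ke kc
          rcases e1 with e1 | e1 | e1 <;> rcases e3 with e3 | e3 | e3 <;> omega
      · rw [update_of_ne e]
        refine m.keep h hv kv (fun y => ?_) (pl v hv kv)
        rcases le_total u v with z | z
        · have := (h.corner hu ku z (by omega)).2
          omega
        · have := (h.corner hv kv z (by omega)).2
          omega
  · have k12 : b.kd p = 1 ∨ b.kd p = 2 := by
      rcases m.add with ⟨rfl, e⟩ | ⟨rfl, e⟩ | ⟨k0, rfl, e⟩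
      · have := h.pair p ht
        unfold okp at this
        have := fun z => (s.port h hp z).2
        omega
      · have := h.pair t hp
        unfold okp at this
        have := fun z => (s.port h hp z).1
        omega
      · have := (h.chord p hp k0).2.2.2.2
        unfold okc at this
        omega
    refine ⟨?_, Or.inl fun v hv kv => m.keep h hv kv (fun y => ?_) (pl v hv kv)⟩
    · rcases m.rem with ⟨rfl, -⟩ | ⟨rfl, -⟩ | ⟨k0, rfl, -⟩
      · have := h.pair p ht'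
        unfold okp at this
        omega
      · have := h.pair t' hp
        unfold okp at this
        omega
      · have := (h.chord p hp k0).2.2.2.2
        unfold okc at this
        omega
    · have := (h.corner hv kv y.1 y.2).2
      omega

/-- the chord at `v` is used -/
def tk (C : ℕ → ℕ) (v : ℕ) : Bool := decide (C v = 1)

theorem Tk.wire (h : b.Valid) (s : Tk b E C t) (k : 3 ≤ b.kd t) {v : ℕ} (hv : v < b.n) :
    (b.kd v = 1 → E (v + 1) + C v = 1) ∧ (b.kd v = 2 → E v + C v = 1) := by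
  refine ⟨fun e => ?_, fun e => ?_⟩
  · obtain ⟨u, rfl⟩ := h.prv (v := v) (by omega)
    have a := h.pair u hv
    unfold okp at a
    have := s.port h (v := u) (by omega) (by omega)
    have := s.deg _ hv (by rintro rfl; omega)
    omega
  · have a0 := h.nxt hv (by omega)
    have a := h.pair v a0
    unfold okp at a
    have := s.port h a0 (by omega)
    have := s.deg _ hv (by rintro rfl; omega)
    omega

theorem Tk.relay (h : b.Valid) (s : Tk b E C t) (k : 3 ≤ b.kd t) {v : ℕ} (hv : v < b.n)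
    (ne : v ≠ t) : (b.kd v = 3 → tk C (b.ch v) = tk C (v + 1)) ∧
      (b.kd v = 4 → v ≠ b.n - 1 → tk C (b.ch v) = tk C (v - 1)) := by
  have d := s.deg v hv ne
  refine ⟨fun e => ?_, fun e z => ?_⟩
  · have a0 := h.nxt hv (by omega)
    have a := h.pair v a0
    have w := (s.wire h k a0).2
    obtain ⟨u, rfl⟩ := h.prv (v := v) (by omega)
    have a' := h.pair u hv
    unfold okp at a a'
    have := s.port h (v := u) (by omega) (by omega)
    rw [tk, tk, s.sym _ hv (by omega), decide_eq_decide]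
    omega
  · have a := h.pair v (by omega)
    obtain ⟨u, rfl⟩ := h.prv (v := v) (by omega)
    have a' := h.pair u hv
    have w := (s.wire h k (v := u) (by omega)).1
    unfold okp at a a'
    have := s.port h (v := u + 1 + 1) (by omega) (by omega)
    rw [tk, tk, s.sym _ hv (by omega), decide_eq_decide, Nat.add_sub_cancel]
    omega

/-- the outer edge at corner `j` of the polygon `u` is used -/
def xv (b : Board) (tok : ℕ → Bool) (u j : ℕ) : Bool :=
  if j = 0 then !tok (u - 1) else if u + j = b.ch u then !tok (b.ch u + 1) else tok (b.ch (u + j))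

theorem Tk.ext (h : b.Valid) (s : Tk b E C t) (k : 3 ≤ b.kd t) {u x j : ℕ} (hu : u < b.n)
    (ku : b.kd u = 5) (a : St b E C u x) (hj : u + j ≤ b.ch u) :
    xv b (tk C) u j = true ↔
      (j = x ∨ j = x + 1 ∨ (j = 0 ∧ u + x = b.ch u)) ∧ u + j ≠ t := by
  obtain ⟨c1, -, -, -, c5⟩ := h.chord u hu (by omega)
  obtain ⟨p1, -⟩ := h.poly u hu ku
  obtain ⟨a1, a2, a3⟩ := a
  have d : (u + j ≠ t → E (u + j) + E (u + j + 1) + C (u + j) = 2) ∧
      (u + j = t → E (u + j) + E (u + j + 1) + C (u + j) = 1) :=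
    ⟨s.deg _ (by omega), fun e => e ▸ s.dt⟩
  have l1 := s.le (u + j)
  have l2 := s.le (u + j + 1)
  have b1 := a3 (u + j)
  have b2 := a3 (u + j + 1)
  unfold xv tk
  by_cases e : j = 0
  · rw [if_pos e]
    subst e
    obtain ⟨v, rfl⟩ := h.prv (v := u) (by omega)
    have a := h.pair v hu
    unfold okp at a
    have := (s.wire h k (v := v) (by omega)).1 (by omega)
    rw [Nat.add_zero] at d l1 b2
    have := s.le v
    have := s.le (v + 1 + 1)
    rw [Nat.add_sub_cancel, Bool.not_eq_true', decide_eq_false_iff_not]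
    omega
  rw [if_neg e]
  by_cases e' : u + j = b.ch u
  · rw [if_pos e']
    unfold okc at c5
    have a0 := h.nxt c1 (by omega)
    have a := h.pair _ a0
    unfold okp at a
    have := (s.wire h k a0).2 (by omega)
    have := s.sym u hu (by omega)
    have := s.le u
    rw [e'] at d l1 l2 b1 b2
    simp only [Bool.not_eq_true', decide_eq_false_iff_not]
    omega
  · have := (h.corner hu ku (w := u + j) (by omega) hj).2
    rw [if_neg e', s.sym (u + j) (by omega) (by omega), decide_eq_true_eq]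
    omega

theorem Tk.square (h : b.Valid) (s : Tk b E C t) (k : 3 ≤ b.kd t) {u x : ℕ} (hu : u < b.n)
    (ku : b.kd u = 5) (a : St b E C u x) (e : b.ch u = u + 3) (z : ¬ (u ≤ t ∧ t ≤ u + 3)) :
    tk C (b.ch (u + 1)) = tk C (b.ch u + 1) ∧ tk C (b.ch (u + 2)) = tk C (u - 1) := by
  have a0 := s.ext h k hu ku a (j := 0) (by omega)
  have a1 := s.ext h k hu ku a (j := 1) (by omega)
  have a2 := s.ext h k hu ku a (j := 2) (by omega)
  have a3 := s.ext h k hu ku a (j := 3) (by omega)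
  have := a.1
  rw [xv, if_pos rfl] at a0
  rw [xv, if_neg (by omega), if_neg (by omega)] at a1 a2
  rw [xv, if_neg (by omega), if_pos e.symm] at a3
  rw [Bool.not_eq_true', ← Bool.not_eq_true] at a0 a3
  constructor <;> rw [Bool.eq_iff_iff]
  · rw [a1, ← not_iff_not, a3]
    omega
  · rw [a2, ← not_iff_not, a0]
    omega

end Pool.Agent.Lib.MP_33ce69_lc.Lol
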