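import Pool.Agent.Lib.MP_33ce69_lc.Odd.Net
import Pool.Agent.Lib.MP_33ce69_lc.Lol.Tok

/-!
When all relays but the last vertex and all squares are at rest, the two ends of every lane of the
network carry the same value; the lane into input `0` is cut at the last vertex.
-/

namespace Pool.Agent.Lib.MP_33ce69_lc.Lol

open Pool.Agent.Lib.MP_33ce69_lc.Odd Board

set_option maxHeartbeats 400000
set_option synthInstance.maxSize 4000

structure Rules (b : Board) (tok : ℕ → Bool) : Prop where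
  r3 : ∀ v < b.n, b.kd v = 3 → tok (b.ch v) = tok (v + 1)
  r4 : ∀ v < b.n, b.kd v = 4 → v ≠ b.n - 1 → tok (b.ch v) = tok (v - 1)
  sq : ∀ u < b.n, b.kd u = 5 → b.ch u = u + 3 →
    tok (b.ch (u + 1)) = tok (b.ch u + 1) ∧ tok (b.ch (u + 2)) = tok (u - 1)

theorem c_sq : ∀ t < 23, ∀ i < 24, look tK t i = 5 →
    (t < 18 ∨ t = 22 → look tC t i = i + 3) ∧ (t = 18 ∨ t = 21 → i = 3) := by decide +kernel

theorem grid_loc {M L : ℕ} {T : ℕ → ℕ} (h : GridOK M L T) {tok : ℕ → Bool}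
    (s : Rules (grid M L T) tok) {k : ℕ} (hk : k + 1 < M) (ht : T k < 18 ∨ T k = 22) :
    semT (T k) (tok (24 * k + 2)) (tok (24 * k + pN (T k))) (tok (24 * k + 13))
      (tok (24 * (k - L) + 2)) (tok (24 * (k + L) + 13)) (tok (24 * (k + 1) + pN (T (k + 1)))) := by
  have t := h.ty k (by omega)
  have a := (sem_all _ t (fun c => tok (gC L T k c)) fun i hi => ?_).1
  · have en := c_ends _ t
    rwa [cl k (d := pN (T k)) (by omega)] at a
  obtain ⟨r1, r2, -⟩ := c_rel _ t i hi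
  have hv : 24 * k + i + 1 < (grid M L T).n := by
    change _ < gN M
    unfold gN
    omega
  refine ⟨fun e => ?_, fun e => ?_, fun e => ?_⟩
  · have := s.r3 (24 * k + i) (by omega) (by rw [g_kd k hi, e])
    rw [g_ch k hi] at this
    simp only
    rw [this, cl k (by have := r1 e; omega), Nat.add_assoc]
  · have := s.r4 (24 * k + i) (by omega) (by rw [g_kd k hi, e]) (by omega)
    rw [g_ch k hi] at this
    simp only
    rw [this, cl k (by omega), Nat.add_sub_assoc (r2 e)]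
  · obtain ⟨a1, a2, a3, -⟩ := c_poly _ t i hi e
    have q := (c_sq _ t i hi e).1 ht
    have c : (grid M L T).ch (24 * k + i) = 24 * k + i + 3 := by
      rw [g_ch k hi, q, cl k a3, Nat.add_assoc]
    have := s.sq (24 * k + i) (by omega) (by rw [g_kd k hi, e]) c
    rw [c, Nat.add_assoc _ i 1, Nat.add_assoc _ i 2, g_ch k (by omega), g_ch k (by omega)] at this
    simp only
    rw [q, cl k (d := i - 1) (by omega), cl k (d := i + 3 + 1) (by omega), this.1, this.2,
      Nat.add_sub_cancel_left, Nat.add_sub_assoc a2]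
    simp [polyR, Nat.add_assoc]

variable {N : ℕ} {typ src tgt : ℕ → ℕ}

theorem ty_pos {c l : ℕ} (h : 0 < l) : ty N typ src tgt c l < 18 ∨ ty N typ src tgt c l = 22 := by
  unfold ty tyR
  rw [if_neg (by omega)]
  split_ifs <;> simp

structure Tok' (N : ℕ) (typ src tgt : ℕ → ℕ) (e n w : ℕ → ℕ → Bool) : Prop where
  sem : ∀ c ≤ 5 * N, ∀ l ≤ 2 * N, ty N typ src tgt c l < 18 ∨ ty N typ src tgt c l = 22 →
    c < 5 * N ∨ l < 2 * N → ∃ u, (0 < c → u = e (c - 1) l) ∧
    semT (ty N typ src tgt c l) (e c l) (n c l) (w c l) u (w (c + 1) l) (n c (l + 1))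

variable {e n w : ℕ → ℕ → Bool}

theorem t_real' (h : NetOK N typ src tgt) (t : Tok' N typ src tgt e n w) {c l : ℕ} (h1 : 0 < l)
    (h2 : l ≤ 2 * N) (hc : c ≤ 5 * N) (hz : c < 5 * N ∨ l < 2 * N) (r : rin typ (2 * N - l)) :
    (c ≠ ocol (src (2 * N - l)) → c ≠ lcol (2 * N - l) → pvv N typ tgt c l →
      n c (l + 1) = n c l) ∧
    (lcol (2 * N - l) < c → c < 5 * N → e (c - 1) l = e c l) ∧ (c = 5 * N → e (c - 1) l = w c l) ∧
    (ocol (src (2 * N - l)) < c → c < 5 * N → w (c + 1) l = w c l) ∧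
    (c = ocol (src (2 * N - l)) → w (c + 1) l = n c l) ∧
    (c = lcol (2 * N - l) → n c (l + 1) = e c l) := by
  obtain ⟨g1, g2, -, g3, -⟩ := geo h h1 h2 r
  obtain ⟨u, u1, u2⟩ := t.sem c hc l h2 (ty_pos h1) hz
  rw [ty, if_neg (by omega), if_pos r] at u2
  obtain ⟨a1, a2, a3, a4, a5, a6⟩ := tyR_sem _ g1 g2 g3 hc u2
  exact ⟨fun x y z => a1 z.1.ne x y (decide_eq_true z), fun x y => u1 (by omega) ▸ a2 x y,
    fun x => u1 (by omega) ▸ a3 x, a4, a5, a6⟩

theorem t_vert' (h : NetOK N typ src tgt) (t : Tok' N typ src tgt e n w) {c l : ℕ} (h1 : 0 < l)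
    (h2 : l ≤ 2 * N) (p1 : pvv N typ tgt c l) (p2 : pvv N typ tgt c (l + 1)) :
    n c (l + 1) = n c l := by
  by_cases r : rin typ (2 * N - l)
  · obtain ⟨-, -, -, -, -, g5, g6, -⟩ := geo h h1 h2 r
    exact (t_real' h t h1 h2 p1.1.le (Or.inl p1.1) r).1 (fun z => g5 (z ▸ p2))
      (fun z => g6 (z ▸ p1)) p1
  · obtain ⟨u, -, u2⟩ := t.sem c p1.1.le l h2 (ty_pos h1) (Or.inl p1.1)
    rw [ty, if_neg (by omega), if_neg r, if_pos p1] at u2
    simpa [semT] using u2

theorem colO' (h : NetOK N typ src tgt) (t : Tok' N typ src tgt e n w) {o : ℕ} (ho : o < 3 * N)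
    (r : rout typ o) {l : ℕ} (h1 : 1 ≤ l) (h2 : l + tgt o ≤ 2 * N) :
    n (ocol o) l = n (ocol o) 1 := by
  induction l, h1 using Nat.le_induction with
  | base => rfl
  | succ l h1 ih =>
    rw [t_vert' h t h1 (by omega) ((pv_out ho).2 ⟨r, by omega⟩) ((pv_out ho).2 ⟨r, h2⟩),
      ih (by omega)]

theorem rowL' (h : NetOK N typ src tgt) (t : Tok' N typ src tgt e n w) {l : ℕ} (h1 : 0 < l)
    (h2 : l ≤ 2 * N) (r : rin typ (2 * N - l)) {c : ℕ} (c1 : ocol (src (2 * N - l)) + 1 ≤ c)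
    (c2 : c ≤ 5 * N) : w c l = n (ocol (src (2 * N - l))) 1 := by
  induction c, c1 using Nat.le_induction with
  | base =>
    obtain ⟨a1, a2, a3⟩ := h.ins _ (by omega) r
    rw [(t_real' h t h1 h2 (by omega) (Or.inl c2) r).2.2.2.2.1 rfl, colO' h t a1 a2 h1 (by omega)]
  | succ c c1 ih => rw [(t_real' h t h1 h2 (by omega) (Or.inl c2) r).2.2.2.1 c1 c2, ih (by omega)]

theorem rowU' (h : NetOK N typ src tgt) (t : Tok' N typ src tgt e n w) {l : ℕ} (h1 : 0 < l)
    (h2 : l ≤ 2 * N) (r : rin typ (2 * N - l)) {c : ℕ} (c1 : lcol (2 * N - l) ≤ c)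
    (c2 : c < 5 * N) : e c l = e (5 * N - 1) l := by
  obtain ⟨d, hd⟩ : ∃ d, c + d + 1 = 5 * N := ⟨5 * N - 1 - c, by omega⟩
  induction d generalizing c with
  | zero => rw [show 5 * N - 1 = c by omega]
  | succ d ih =>
    have := (t_real' h t h1 h2 (c := c + 1) (by omega) (by omega) r).2.1 (by omega) (by omega)
    rw [Nat.add_sub_cancel] at this
    rw [this, ih (by omega) (by omega) (by omega)]

theorem colI' (h : NetOK N typ src tgt) (t : Tok' N typ src tgt e n w) {i : ℕ} (hi : i < 2 * N)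
    (r : rin typ i) {l : ℕ} (h1 : 2 * N - i + 1 ≤ l) (h2 : l ≤ 2 * N + 1) :
    n (lcol i) l = e (5 * N - 1) (2 * N - i) := by
  induction l, h1 using Nat.le_induction with
  | base =>
    have e' : 2 * N - (2 * N - i) = i := by omega
    have r' : rin typ (2 * N - (2 * N - i)) := by rwa [e']
    have a1 := (geo h (l := 2 * N - i) (by omega) (by omega) r').2.1
    have a2 := (t_real' h t (l := 2 * N - i) (by omega) (by omega) a1.le (Or.inl a1) r').2.2.2.2.2 rfl
    have a3 := rowU' h t (l := 2 * N - i) (by omega) (by omega) r' le_rfl a1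
    rw [e'] at a2 a3
    rw [a2, a3]
  | succ l h1 ih =>
    rw [t_vert' h t (by omega) (by omega) ((pv_in hi).2 ⟨r, by omega⟩) ((pv_in hi).2 ⟨r, by omega⟩),
      ih (by omega)]

theorem lane' (h : NetOK N typ src tgt) (t : Tok' N typ src tgt e n w) {i : ℕ} (hi : i < 2 * N)
    (r : rin typ i) : w (5 * N) (2 * N - i) = n (ocol (src i)) 1 ∧
      (i ≠ 0 → n (lcol i) (2 * N + 1) = n (ocol (src i)) 1) := by
  have e' : 2 * N - (2 * N - i) = i := by omega
  have r' : rin typ (2 * N - (2 * N - i)) := by rwa [e']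
  have a := rowL' h t (l := 2 * N - i) (by omega) (by omega) r'
    (geo h (by omega) (by omega) r').1 le_rfl
  rw [e'] at a
  refine ⟨a, fun z => ?_⟩
  rw [colI' h t hi r (by omega) le_rfl,
    (t_real' h t (l := 2 * N - i) (by omega) (by omega) le_rfl (by omega) r').2.2.1 rfl, a]

/-- the first corner of node `a` -/
def gU (N a : ℕ) : ℕ := 24 * ((5 * a + 2) * (2 * N + 1)) + 3

/-- the wire that ends the lane into input `i` -/
def inV (N : ℕ) (typ src tgt : ℕ → ℕ) (i : ℕ) : ℕ :=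
  24 * ((lcol i + 1) * (2 * N + 1)) + pN (nT N typ src tgt ((lcol i + 1) * (2 * N + 1)))

theorem tile_lt {c l : ℕ} (hc : c ≤ 5 * N) (hl : l ≤ 2 * N) (z : c < 5 * N ∨ l < 2 * N) :
    c * (2 * N + 1) + l + 1 < (5 * N + 1) * (2 * N + 1) := by
  have : c * (2 * N + 1) ≤ 5 * N * (2 * N + 1) := Nat.mul_le_mul_right _ hc
  have : c < 5 * N → (c + 1) * (2 * N + 1) ≤ 5 * N * (2 * N + 1) := Nat.mul_le_mul_right _
  rw [Nat.add_mul c] at this
  rw [Nat.add_mul (5 * N)]
  omega

theorem nT_row (a : ℕ) {r : ℕ} (hr : r < 5) (ha : a < N) :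
    nT N typ src tgt ((5 * a + r) * (2 * N + 1)) = ty0 (typ a) r := by
  rw [← row0 (src := src) (tgt := tgt) a hr ha, ← nT_eq _ (Nat.zero_le _)]
  rfl

theorem gate_at {a : ℕ} (ha : a < N) {i : ℕ} (hi : i < 24) :
    24 * ((5 * a + 2) * (2 * N + 1)) + i + 1 < (netB N typ src tgt).n ∧
    (netB N typ src tgt).kd (24 * ((5 * a + 2) * (2 * N + 1)) + i) = look tK (ty0 (typ a) 2) i ∧
    (netB N typ src tgt).ch (24 * ((5 * a + 2) * (2 * N + 1)) + i) =
      gC (2 * N + 1) (nT N typ src tgt) ((5 * a + 2) * (2 * N + 1)) (look tC (ty0 (typ a) 2) i) := by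
  refine ⟨?_, ?_, ?_⟩
  · have := tile_lt (N := N) (c := 5 * a + 2) (l := 0) (by omega) (by omega) (by omega)
    change _ < gN _
    unfold gN
    omega
  · rw [netB, g_kd _ hi, nT_row a (by omega) ha]
  · rw [netB, g_ch _ hi, nT_row a (by omega) ha]

theorem gate_kd {a : ℕ} (ha : a < N) (ty : typ a = 1 ∨ typ a = 2) :
    gU N a < (netB N typ src tgt).n ∧ (netB N typ src tgt).kd (gU N a) = 5 ∧
      (netB N typ src tgt).ch (gU N a) = gU N a + 2 * typ a := by
  obtain ⟨a1, a2, a3⟩ := gate_at (typ := typ) (src := src) (tgt := tgt) ha (i := 3) (by omega)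
  unfold gU
  rw [a2, a3]
  rcases ty with z | z <;> rw [z] <;> exact ⟨by omega, rfl, rfl⟩

theorem poly_cases (h : NetOK N typ src tgt) {u : ℕ} (hu : u < (netB N typ src tgt).n)
    (k : (netB N typ src tgt).kd u = 5) : (netB N typ src tgt).ch u = u + 3 ∨
      ∃ a < N, (typ a = 1 ∨ typ a = 2) ∧ u = gU N a := by
  obtain ⟨q, i, hi, rfl, h1, -⟩ := split_v hu
  have g := net_grid h
  have hq : q < (5 * N + 1) * (2 * N + 1) := by have := g.lt; omega
  have t := g.ty q hq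
  rw [netB, g_kd q hi] at k
  obtain ⟨s1, s2⟩ := c_sq _ t i hi k
  by_cases z : nT N typ src tgt q < 18 ∨ nT N typ src tgt q = 22
  · rw [netB, g_ch q hi, s1 z, cl q (c_poly _ t i hi k).2.2.1]
    exact Or.inl (Nat.add_assoc ..).symm
  obtain ⟨c, l, c1, l1, rfl⟩ := split_k hq
  rw [nT_eq c l1] at z s2
  obtain rfl : l = 0 := by
    by_contra y
    exact z (ty_pos (by omega))
  by_cases e : c = 5 * N
  · rw [e, row0'] at z
    omega
  obtain ⟨a, r, hr, rfl⟩ : ∃ a r, r < 5 ∧ c = 5 * a + r := ⟨c / 5, c % 5, by omega, by omega⟩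
  have ha : a < N := by omega
  rw [row0 a hr ha] at z s2
  have key : ∀ t ≤ 3, ∀ r < 5, ¬ (ty0 t r < 18 ∨ ty0 t r = 22) →
      r = 2 ∧ (t = 1 ∨ t = 2) ∧ (ty0 t r = 18 ∨ ty0 t r = 21) := by decide
  obtain ⟨rfl, k1, k2⟩ := key _ (h.le a ha) r hr z
  exact Or.inr ⟨a, ha, k1, by rw [s2 k2]; rfl⟩

theorem lanes (h : NetOK N typ src tgt) {tok : ℕ → Bool} (s : Rules (netB N typ src tgt) tok) :
    (∀ i < 2 * N, rin typ i → i ≠ 0 →
      tok (inV N typ src tgt i) = tok (outV N typ src tgt (src i))) ∧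
    tok (inV N typ src tgt 0) = tok ((netB N typ src tgt).ch ((netB N typ src tgt).n - 1)) ∧
    tok ((netB N typ src tgt).n - 2) = tok (outV N typ src tgt (src 0)) ∧
    ∀ a < N, typ a = 1 ∨ typ a = 2 → tok (gU N a - 1) = tok (inV N typ src tgt (2 * a + 1)) ∧
      tok (gU N a + 2 * typ a + 1) = tok (inV N typ src tgt (2 * a)) ∧
      ∀ j, 0 < j → j < 2 * typ a → tok ((netB N typ src tgt).ch (gU N a + j)) =
        tok (outV N typ src tgt (3 * a + typ a + 1 - j)) := by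
  have g := net_grid h
  have hp := h.pos
  obtain ⟨e, he⟩ : ∃ e : ℕ → ℕ → Bool, e = fun c l => tok (24 * (c * (2 * N + 1) + l) + 2) :=
    ⟨_, rfl⟩
  obtain ⟨n, hn⟩ : ∃ n : ℕ → ℕ → Bool, n = fun c l =>
    tok (24 * (c * (2 * N + 1) + l) + pN (nT N typ src tgt (c * (2 * N + 1) + l))) := ⟨_, rfl⟩
  obtain ⟨w, hw⟩ : ∃ w : ℕ → ℕ → Bool, w = fun c l => tok (24 * (c * (2 * N + 1) + l) + 13) :=
    ⟨_, rfl⟩
  have t : Tok' N typ src tgt e n w := by
    subst he hn hw
    refine ⟨fun c hc l hl y z => ⟨tok (24 * (c * (2 * N + 1) + l - (2 * N + 1)) + 2),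
      fun c0 => ?_, ?_⟩⟩
    · obtain ⟨c, rfl⟩ : ∃ d, c = d + 1 := ⟨c - 1, by omega⟩
      rw [Nat.add_sub_cancel, Nat.add_mul c]
      congr 3
      omega
    · have := grid_loc g s (tile_lt hc hl z) (by rwa [nT_eq c hl])
      rw [show c * (2 * N + 1) + l + (2 * N + 1) = (c + 1) * (2 * N + 1) + l by ring] at this
      rw [← nT_eq c hl]
      exact this
  have i1 : ∀ i, tok (inV N typ src tgt i) = n (lcol i) (2 * N + 1) ∧
      tok (inV N typ src tgt i) = n (lcol i + 1) 0 := fun i => by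
    rw [hn, inV]
    simp only [Nat.add_mul, Nat.one_mul, Nat.add_zero, and_self]
  have o1 : ∀ o, tok (outV N typ src tgt o) = n (ocol o) 1 := fun o => by rw [hn]; rfl
  have r0 : rin typ 0 := Or.inl ⟨rfl, h.t0⟩
  obtain ⟨q, hq⟩ : ∃ q, q = 5 * N * (2 * N + 1) + 2 * N := ⟨_, rfl⟩
  have qM : (5 * N + 1) * (2 * N + 1) - 1 = q := by rw [hq, Nat.add_mul (5 * N)]; omega
  have nq : (netB N typ src tgt).n = 24 * q + 15 := by rw [← qM]; rfl
  have tq : nT N typ src tgt q = 22 := qM ▸ g.last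
  refine ⟨fun i hi r z => by rw [(i1 i).1, o1, (lane' h t hi r).2 z], ?_, ?_, fun a ha ty => ?_⟩
  · have a := s.r4 (24 * q + 10) (by omega) (by rw [netB, g_kd q (by omega), tq]; rfl) (by omega)
    rw [netB, g_ch q (by omega), tq] at a
    rw [(i1 0).1, colI' h t (by omega) r0 (by omega) le_rfl, nq,
      show 24 * q + 15 - 1 = 24 * q + 14 by omega, netB, g_ch q (by omega), tq, he]
    refine Eq.trans ?_ a
    change tok _ = tok (24 * (q - (2 * N + 1)) + 2)
    obtain ⟨c, hc⟩ : ∃ c, 5 * N = c + 1 := ⟨5 * N - 1, by omega⟩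
    rw [hq, hc, Nat.add_sub_cancel, Nat.add_mul c]
    congr 3
    omega
  · rw [o1, ← (lane' h t (by omega) r0).1, hw, nq, hq]
    rfl
  · have sm : ∀ r < 5, r ≠ 2 → ∃ u, (0 < 5 * a + r → u = e (5 * a + r - 1) 0) ∧
        semT (ty0 (typ a) r) (e (5 * a + r) 0) (n (5 * a + r) 0) (w (5 * a + r) 0) u
          (w (5 * a + r + 1) 0) (n (5 * a + r) 1) := fun r hr z => by
      rw [← row0 (src := src) (tgt := tgt) a hr ha]
      refine t.sem _ (by omega) 0 (by omega) ?_ (by omega)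
      rw [row0 a hr ha]
      rcases ty with y | y <;> rw [y] <;> interval_cases r <;> first | decide | omega
    obtain ⟨u0, -, s0⟩ := sm 0 (by omega) (by omega)
    obtain ⟨u1, e1, s1⟩ := sm 1 (by omega) (by omega)
    obtain ⟨u3, e3, s3⟩ := sm 3 (by omega) (by omega)
    obtain ⟨u4, e4, s4⟩ := sm 4 (by omega) (by omega)
    obtain rfl : u1 = e (5 * a) 0 := e1 (by omega)
    obtain rfl : u3 = e (5 * a + 2) 0 := e3 (by omega)
    obtain rfl : u4 = e (5 * a + 3) 0 := e4 (by omega)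
    have l1 : lcol (2 * a + 1) + 1 = 5 * a + 4 := by unfold lcol; omega
    have l0 : lcol (2 * a) + 1 = 5 * a + 2 := by unfold lcol; omega
    have o0 : ocol (3 * a) = 5 * a := by unfold ocol; omega
    have o2 : ocol (3 * a + 1) = 5 * a + 2 := by unfold ocol; omega
    have o4 : ocol (3 * a + 2) = 5 * a + 4 := by unfold ocol; omega
    have ga := fun i hi => gate_at (typ := typ) (src := src) (tgt := tgt) ha (i := i) hi
    have r3 : ∀ i < 24, look tK (ty0 (typ a) 2) i = 3 →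
        tok (gC (2 * N + 1) (nT N typ src tgt) ((5 * a + 2) * (2 * N + 1))
          (look tC (ty0 (typ a) 2) i)) = tok (24 * ((5 * a + 2) * (2 * N + 1)) + i + 1) :=
      fun i hi y => by
        rw [← (ga i hi).2.2]
        exact s.r3 _ (by have := (ga i hi).1; omega) ((ga i hi).2.1.trans y)
    have x1 : tok (gU N a - 1) = e (5 * a + 2) 0 := by rw [he]; rfl
    have x2 : tok (gU N a + 2 * typ a + 1) = n (5 * a + 2) 0 := by
      rw [hn]
      simp only [Nat.add_zero, nT_row a (r := 2) (by omega) ha]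
      rcases ty with y | y <;> rw [y] <;> rfl
    have x3 : ∀ j < 4, tok ((netB N typ src tgt).ch (gU N a + j)) =
        tok (gC (2 * N + 1) (nT N typ src tgt) ((5 * a + 2) * (2 * N + 1))
          (look tC (ty0 (typ a) 2) (3 + j))) := fun j hj => by
      rw [gU, Nat.add_assoc, (ga _ (by omega)).2.2]
    have x4 : tok (24 * ((5 * a + 2) * (2 * N + 1)) + 16) = n (5 * a + 2) 1 := by
      rw [hn]
      have := r3 15 (by omega) (by rcases ty with y | y <;> rw [y] <;> rfl)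
      rcases ty with y | y <;> rw [y] at this <;> exact this.symm
    rw [x1, x2, (i1 _).2, (i1 _).2, l0, l1]
    rcases ty with y | y
    · rw [y] at s3 s4 x3 ⊢
      simp only [ty0, semT] at s3 s4
      simp at s3 s4
      refine ⟨s3.trans s4, rfl, fun j j0 j1 => ?_⟩
      obtain rfl : j = 1 := by omega
      rw [x3 1 (by omega), o1, show 3 * a + 1 + 1 - 1 = 3 * a + 1 by omega, o2, ← x4]
      rfl
    · have y1 := r3 18 (by omega) (by rw [y]; rfl)
      have y2 := r3 21 (by omega) (by rw [y]; rfl)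
      have y3 := r3 10 (by omega) (by rw [y]; rfl)
      rw [y] at s0 s1 s3 s4 x3 y1 y2 y3 ⊢
      simp only [ty0, semT] at s0 s1 s3 s4
      simp at s0 s1 s3 s4
      refine ⟨s3.1.trans s4.1, rfl, fun j j0 j1 => ?_⟩
      rw [x3 j j1, o1]
      interval_cases j
      · rw [show 3 * a + 2 + 1 - 1 = 3 * a + 2 by omega, o4, s4.2, s3.2, hw]
        refine (y2.trans y1).symm.trans ?_
        change tok (24 * ((5 * a + 2) * (2 * N + 1) + (2 * N + 1)) + 13) = tok _
        rw [show (5 * a + 2) * (2 * N + 1) + (2 * N + 1) = (5 * a + 3) * (2 * N + 1) + 0 by ring]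
      · rw [show 3 * a + 2 + 1 - 2 = 3 * a + 1 by omega, o2, ← x4]
        rfl
      · rw [show 3 * a + 2 + 1 - 3 = 3 * a by omega, o0, s0, s1, he]
        refine y3.symm.trans ?_
        change tok (24 * ((5 * a + 2) * (2 * N + 1) - (2 * N + 1)) + 2) = tok _
        rw [show (5 * a + 2) * (2 * N + 1) = (5 * a + 1) * (2 * N + 1) + (2 * N + 1) by ring,
          Nat.add_sub_cancel]
        rfl

end Pool.Agent.Lib.MP_33ce69_lc.Lol
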