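import Pool.Agent.Lib.MP_33ce69_lc.Lol.NetD

/-! The rotations of a path on the board of a formula follow the orbit of the machine. -/

namespace Pool.Agent.Lib.MP_33ce69_lc.Lol

open Pool.Agent.Lib.MP_33ce69_lc.Odd Board Function

theorem poly_eq {b : Board} (h : b.Valid) {u v w : ℕ} (hu : u < b.n) (ku : b.kd u = 5)
    (hv : v < b.n) (kv : b.kd v = 5) (h1 : u ≤ w) (h2 : w ≤ b.ch u) (h3 : v ≤ w)
    (h4 : w ≤ b.ch v) : u = v := by
  rcases le_total u v with z | z
  · have := (h.corner hu ku z (by omega)).2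
    omega
  · have := (h.corner hv kv z (by omega)).2
    omega

namespace Dat

variable (d : Dat)

def Base (σ : Nd → ℕ) (p : Nd × ℕ) : Prop :=
  p.1.1 = 8 ∨ p.2 = σ p.1 ∨ p.2 = σ p.1 + 1 ∨ (p.2 = 0 ∧ σ p.1 + 1 = d.K p.1)

/-- the end `t` of the path sits at the corner `p` -/
def At (C : ℕ → ℕ) (t : ℕ) (p : Nd × ℕ) : Prop :=
  (p.1.1 = 8 ∧ t = d.board.n - 1 ∧ (p.2 = 0 ↔ C t = 0)) ∨ (p.1.1 ≠ 8 ∧ t = d.U p.1 + p.2)

def Nice (E C : ℕ → ℕ) (t : ℕ) : Prop :=
  3 ≤ d.board.kd t ∧ ∃ μ σ o, Pol d.board E C μ ∧ (∀ x, d.Gt x → σ x = μ (d.U x)) ∧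
    Orb d.K d.lnk (fun x => d.K x - 1) ((8, 0, 0), 0) σ o ∧ d.Base σ o ∧ d.Base σ (d.lnk o)

variable {d} {E C E' C' μ : ℕ → ℕ} {σ : Nd → ℕ} {t t' : ℕ} {p o : Nd × ℕ}

theorem real (r : p.2 < d.K p.1) : (p.1 = (8, 0, 0) ∧ p.2 < 2) ∨ (p.1.1 ≠ 8 ∧ d.Gt p.1) := by
  rcases K_cases d p.1 with k | k | k
  · omega
  · exact Or.inl ⟨k.1, k.2 ▸ r⟩
  · exact Or.inr ⟨by omega, k.2.2.2⟩

theorem At.kd (h : d.OK) (r : p.2 < d.K p.1) (a : d.At C t p) :
    (p.1 = (8, 0, 0) ∧ t = d.board.n - 1 ∧ d.board.kd t = 4 ∧ (p.2 = 0 ↔ C t = 0) ∧ p.2 < 2) ∨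
      (d.Gt p.1 ∧ t = d.U p.1 + p.2 ∧ 5 ≤ d.board.kd t ∧ t ≤ d.board.ch (d.U p.1)) := by
  rcases real r with ⟨k, k'⟩ | ⟨k, g⟩
  · rcases a with a | a
    · exact Or.inl ⟨k, a.2.1, a.2.1 ▸ (valid h).kl, a.2.2, k'⟩
    · exact absurd (congrArg Prod.fst k) a.1
  · obtain ⟨a1, a2, a3⟩ := g.kd
    have e := (a.resolve_left fun z => k z.1).2
    have := ((valid h).corner a1 a2 (w := t) (by omega) (by omega)).2
    exact Or.inr ⟨g, e, by omega, by omega⟩

theorem At.uniq (h : d.OK) (r : p.2 < d.K p.1) (r' : o.2 < d.K o.1) (a : d.At C t p)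
    (a' : d.At C t o) : p = o := by
  rcases a.kd h r with ⟨a1, -, a3, a4, a5⟩ | ⟨g, a2, a3, a4⟩ <;>
    rcases a'.kd h r' with ⟨b1, -, b3, b4, b5⟩ | ⟨g', b2, b3, b4⟩
  · exact Prod.ext (a1.trans b1.symm) (by omega)
  · omega
  · omega
  · have e := g.inj g' (poly_eq (valid h) g.kd.1 g.kd.2.1 g'.kd.1 g'.kd.2.1 (by omega) a4
      (by omega) b4)
    exact Prod.ext e (by rw [e] at a2; omega)

theorem At.rules (h : d.OK) (s : Tk d.board E C t) (pl : Pol d.board E C μ) (r : p.2 < d.K p.1)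
    (a : d.At C t p) : Rules d.board (tk C) := by
  have v := valid h
  have k := a.kd h r
  have k3 : 3 ≤ d.board.kd t := by omega
  refine ⟨fun w hw e => (s.relay v k3 hw (by rintro rfl; omega)).1 e,
    fun w hw e z => (s.relay v k3 hw (by rintro rfl; omega)).2 e z,
    fun u hu ku e => s.square v k3 hu ku (pl u hu ku) e fun z => ?_⟩
  rcases k with k | ⟨g, a2, -, a4⟩
  · have := (v.corner hu ku z.1 (by omega)).2
    omega
  · obtain ⟨b1, b2, b3⟩ := g.kd
    obtain rfl := poly_eq v hu ku b1 b2 z.1 (by omega) (by omega) a4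
    unfold Gt at g
    omega

theorem Y_iff (h : d.OK) (s : Tk d.board E C t) (k : 3 ≤ d.board.kd t) (pl : Pol d.board E C μ)
    (ag : ∀ x, d.Gt x → σ x = μ (d.U x)) (r : p.2 < d.K p.1) :
    d.Y (tk C) p = true ↔ d.Base σ p ∧ ¬ d.At C t p := by
  have v := valid h
  unfold Y Base At
  rcases real r with ⟨e, e'⟩ | ⟨e, g⟩
  · have e8 : p.1.1 = 8 := congrArg Prod.fst e
    have kl := v.kl
    obtain ⟨u, hu⟩ := v.prv (v := d.board.n - 1) (by omega)
    have hp := v.pos
    have a := v.pair u (by omega)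
    unfold okp at a
    have w := (s.wire v k (v := u) (by omega)).1
    have en := s.en
    have dt := s.dt
    have dg := s.deg (u + 1) (by omega)
    have l1 := s.le u
    have l2 := s.le (u + 1)
    have sy := s.sym (u + 1) (by omega)
    rw [show d.board.n = u + 1 + 1 by omega] at en
    rw [if_pos e8, show d.board.n - 2 = u by omega, hu]
    rw [hu] at kl
    simp only [tk, e8, true_or, true_and, ne_eq, not_true, false_and, or_false]
    by_cases z : p.2 = 0
    · rw [if_pos z, decide_eq_true_eq, sy (by omega)]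
      by_cases y : t = u + 1
      · subst y
        omega
      · omega
    · rw [if_neg z, Bool.not_eq_true', decide_eq_false_iff_not]
      by_cases y : t = u + 1
      · subst y
        omega
      · omega
  · obtain ⟨a1, a2, a3⟩ := g.kd
    rw [if_neg e, s.ext v k a1 a2 (pl _ a1 a2) (by omega), ag _ g]
    omega

theorem at_orb (h : d.OK) (s : Tk d.board E C t) (k : 3 ≤ d.board.kd t) (pl : Pol d.board E C μ)
    (ag : ∀ x, d.Gt x → σ x = μ (d.U x))
    (ob : Orb d.K d.lnk (fun x => d.K x - 1) ((8, 0, 0), 0) σ o) (b1 : d.Base σ o)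
    (b2 : d.Base σ (d.lnk o)) (r : p.2 < d.K p.1) (a : d.At C t p) :
    Orb d.K d.lnk (fun x => d.K x - 1) ((8, 0, 0), 0) σ p := by
  have st := static h (a.rules h s pl r) ob.1
  have ob' := ob.link (inv h)
  by_cases z : d.At C t o
  · rwa [a.uniq h r ob.1 z]
  · rw [(Y_iff h s k pl ag ob.1).2 ⟨b1, z⟩] at st
    rwa [a.uniq h r ob'.1 (by_contra fun y => by
      simp [(Y_iff h s k pl ag ob'.1).2 ⟨b2, y⟩] at st)]

theorem Nice.step (h : d.OK) {q : ℕ} (s : Tk d.board E C t) (s' : Tk d.board E' C' t')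
    (m : Mv d.board E C t E' C' t' q) (n : d.Nice E C t) : d.Nice E' C' t' := by
  obtain ⟨k, μ, σ, o, pl, ag, ob, b1, b2⟩ := n
  obtain ⟨k', pl' | ⟨u, hu, ku, j, j', y, e1, e2, ru, pl'⟩⟩ := Lol.step (valid h) s s' m k pl
  · exact ⟨k', μ, σ, o, pl', ag, ob, b1, b2⟩
  rcases polys h hu ku with z | ⟨x, g, rfl⟩
  · refine ⟨k', _, σ, o, pl', fun x g => ?_, ob, b1, b2⟩
    rw [update_of_ne, ag x g]
    rintro rfl
    have := g.kd.2.2
    unfold Gt at g
    omega
  · have c := g.kd.2.2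
    have ne := g.bd.1
    rw [show d.board.ch (d.U x) - d.U x + 1 = d.K x by unfold Gt at g; omega, ← ag x g] at ru
    have jr : Jr d.K σ (x, j) (update σ x y) (x, j') := ⟨g, rfl, y, ru, rfl⟩
    have a : d.At C t (x, j) := Or.inr ⟨by simp only; omega, e1⟩
    have a' : d.At C' t' (x, j') := Or.inr ⟨by simp only; omega, e2⟩
    have ob' := (at_orb h s k pl ag ob b1 b2 jr.lt.1 a).jump (inv h) (by rw [K8]; decide) K8 jr
    have ag' : ∀ z, d.Gt z → update σ x y z = update μ (d.U x) y (d.U z) := fun z gz => by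
      by_cases e : z = x
      · rw [e, update_self, update_self]
      · rw [update_of_ne e, update_of_ne fun w => e (gz.inj g w), ag z gz]
    refine ⟨k', _, _, _, pl', ag', ob', ?_, ?_⟩
    · have := ru.symm g
      simp only [Base, update_self]
      unfold Rule at this
      rcases g with g | g <;> rw [g] at this ⊢ <;> omega
    · have st := static h (a'.rules h s' pl' jr.lt.2) jr.lt.2
      have f : d.Y (tk C') (x, j') = false :=
        Bool.eq_false_iff.2 fun w => ((Y_iff h s' k' pl' ag' jr.lt.2).1 w).2 a'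
      rw [f] at st
      exact ((Y_iff h s' k' pl' ag' (ob'.link (inv h)).1).1 st).1

theorem nice_start (h : d.OK) (hE : ∀ v, v < d.board.n → E v = 1)
    (hC : ∀ v, v < d.board.n → C v = 0) : d.Nice E C (d.board.n - 1) := by
  have v := valid h
  refine ⟨by rw [v.kl]; omega, fun u => d.board.ch u - u, fun x => d.K x - 1, ((8, 0, 0), 0),
    fun u hu ku => ?_, fun x g => ?_, ⟨by rw [K8]; decide, Or.inr .start⟩, Or.inl rfl, ?_⟩
  · have a := (v.poly u hu ku).1
    have c := (v.chord u hu (by omega)).1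
    refine ⟨by simp only; omega, iff_of_true (hC u hu) (by simp only; omega), fun w _ w2 => ?_⟩
    have := hE w (by omega)
    simp only
    omega
  · have := g.kd.2.2
    simp only
    omega
  · rw [lane_s.1.1]
    simp [Base, K, kk]

theorem Nice.fin (h : d.OK) (s : Tk d.board E C t) (n : d.Nice E C t) (ht : t = d.board.n - 1) :
    (∀ v < d.board.n, E v = 1) ∨
      (E (d.U (1, d.V, 0) + 1) = 1 ↔ d.Tv d.V 0 fun _ => false) := by
  have v := valid h
  obtain ⟨k, μ, σ, o, pl, ag, ob, b1, b2⟩ := n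
  obtain ⟨j, hj, a⟩ : ∃ j, j < 2 ∧ d.At C t ((8, 0, 0), j) := by
    by_cases z : C t = 0
    · exact ⟨0, by omega, Or.inl ⟨rfl, ht, iff_of_true rfl z⟩⟩
    · exact ⟨1, by omega, Or.inl ⟨rfl, ht, iff_of_false one_ne_zero z⟩⟩
  have r : j < d.K (8, 0, 0) := by rwa [K8]
  rcases ends h (at_orb h s k pl ag ob b1 b2 r a) with ⟨-, rfl⟩ | ⟨-, e⟩
  · left
    obtain ⟨st, mc⟩ := s.state v (Or.inl ht)
    have hm := home v st fun w hw kw => ?_
    · intro w hw
      have := mm_spec d.board E t w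
      have := hm w hw
      have := s.le w
      omega
    have := (net_sem (net h) (sem v st)).2 (fun o ho ro => ?_) w hw kw
    · simpa using this
    obtain ⟨a1, a2, a3, a4⟩ := out_dec ro
    have y := (Y_gate h (a.rules h s pl r) a1 a2).2 a3
    rw [a4] at y
    have f : ¬ d.Y (tk C) (d.outC o) = true := fun w => by
      have c := ((Y_iff h s k pl ag a2).1 w).1
      have := a1.bd
      simp only [Base] at c
      unfold IsIn at a3
      unfold Gt at a1
      omega
    rw [y, tk, decide_eq_true_eq] at f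
    have lt : outV d.N d.typ d.src d.tgt o < d.board.n := by
      have hp := (net h).pos
      have c : ocol o < 5 * d.N := by unfold ocol; omega
      have a := tile_lt (N := d.N) (l := 1) c.le (by omega) (Or.inl c)
      have := c_ends _ ((net_grid (net h)).ty (ocol o * (2 * d.N + 1) + 1) (by omega))
      change _ < gN _
      unfold gN outV
      omega
    have l := s.le (outV d.N d.typ d.src d.tgt o)
    rw [decide_eq_false_iff_not, not_not]
    by_cases z : d.board.kd (outV d.N d.typ d.src d.tgt o) = 0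
    · exact (nod v st lt).1 z
    · exact (mc _ lt).2 z (by omega)
  · right
    obtain ⟨a1, a2, a3⟩ := (gt0 (d := d)).2.kd
    have K1 : d.K (1, d.V, 0) = 3 := by simp [K, kk]
    have := (pl _ a1 a2).2.2 (d.U (1, d.V, 0) + 1) (by omega) (by omega)
    have l := s.le (d.U (1, d.V, 0) + 1)
    rw [← e, ag _ gt0.2]
    omega

end Dat

end Pool.Agent.Lib.MP_33ce69_lc.Lol
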