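import Pool.Agent.Lib.MP_33ce69_lc.Lol.Run
import Pool.Agent.Lib.MP_33ce69_lc.Lol.Lane

/-! The machine as a network on the grid. -/

namespace Pool.Agent.Lib.MP_33ce69_lc.Lol

open Pool.Agent.Lib.MP_33ce69_lc.Odd Board

namespace Dat

variable (d : Dat)

def N : ℕ := 8 * (d.V + 1) * (d.S + 1)
def enc (x : Nd) : ℕ := (x.1 * (d.V + 1) + x.2.1) * (d.S + 1) + x.2.2
def dec (k : ℕ) : Nd := (k / (d.S + 1) / (d.V + 1), k / (d.S + 1) % (d.V + 1), k % (d.S + 1))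
def typ (k : ℕ) : ℕ := (d.K (d.dec k) - 1) / 2
def inC (i : ℕ) : Nd × ℕ := (d.dec (i / 2), if i % 2 = 1 then 0 else 2 * d.typ (i / 2))
def outC (o : ℕ) : Nd × ℕ := (d.dec (o / 3), d.typ (o / 3) + 1 - o % 3)
def encI (p : Nd × ℕ) : ℕ := 2 * d.enc p.1 + if p.2 = 0 then 1 else 0
def encO (p : Nd × ℕ) : ℕ := 3 * d.enc p.1 + d.typ (d.enc p.1) + 1 - p.2
def lnkN (p : Nd × ℕ) : Nd × ℕ :=
  if (d.lnk p).1.1 = 8 then (if p.1.1 = 0 then ((1, d.V, 0), 1) else ((0, 0, 0), 4)) else d.lnk p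
def src (i : ℕ) : ℕ := d.encO (d.lnkN (d.inC i))
def tgt (o : ℕ) : ℕ := d.encI (d.lnkN (d.outC o))
def board : Board := netB d.N d.typ d.src d.tgt

/-- triangles and pentagons -/
def Gt (x : Nd) : Prop := d.K x = 3 ∨ d.K x = 5

variable {d} {x : Nd} {p : Nd × ℕ}

theorem K_cases (d : Dat) (x : Nd) : d.K x = 0 ∨ (x = (8, 0, 0) ∧ d.K x = 2) ∨
    (x.1 < 8 ∧ x.2.1 ≤ d.V ∧ x.2.2 ≤ d.S ∧ d.Gt x) := by
  obtain ⟨t, a, b⟩ := x
  simp only [Gt, K, kk, Prod.mk.injEq]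
  split_ifs <;> omega

theorem K8 : d.K (8, 0, 0) = 2 := by simp [K, kk]

theorem Gt.bd (g : d.Gt x) : x.1 < 8 ∧ x.2.1 ≤ d.V ∧ x.2.2 ≤ d.S := by
  have := K_cases d x
  unfold Gt at g
  omega

theorem Gt.enc (g : d.Gt x) :
    d.enc x < d.N ∧ d.dec (d.enc x) = x ∧ d.K x = 2 * d.typ (d.enc x) + 1 ∧
      (d.typ (d.enc x) = 1 ∨ d.typ (d.enc x) = 2) := by
  obtain ⟨h1, h2, h3⟩ := g.bd
  have e : d.dec (d.enc x) = x := by
    rw [dec, Dat.enc, (dm _ (by omega)).1, (dm _ (by omega)).2, (dm _ (by omega)).1,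
      (dm _ (by omega)).2]
  refine ⟨?_, e, ?_⟩
  · have a : x.1 * (d.V + 1) + x.2.1 + 1 ≤ 8 * (d.V + 1) := by
      have := Nat.mul_le_mul_right (d.V + 1) (show x.1 ≤ 7 by omega)
      omega
    have := Nat.mul_le_mul_right (d.S + 1) a
    rw [Nat.add_mul _ 1] at this
    unfold Dat.enc N
    omega
  · rw [typ, e]
    unfold Gt at g
    omega

theorem enc_dec (d : Dat) (k : ℕ) : d.enc (d.dec k) = k := by
  rw [enc, dec, Nat.div_add_mod', Nat.div_add_mod']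

theorem gt_dec {k : ℕ} (h : d.typ k ≠ 0) : d.Gt (d.dec k) := by
  have := K_cases d (d.dec k)
  unfold typ at h
  unfold Gt at *
  omega

theorem typ_le (d : Dat) (k : ℕ) : d.typ k ≤ 2 := by
  have := K_cases d (d.dec k)
  unfold typ Gt at *
  omega

theorem to8 (h : d.OK) (r : p.2 < d.K p.1) (e : (d.lnk p).1.1 = 8) :
    p = ((0, 0, 0), 4) ∨ p = ((1, d.V, 0), 1) := by
  obtain ⟨a1, a2, -⟩ := flip h r
  have k := K_cases d (d.lnk p).1
  have e1 : (d.lnk p).1 = (8, 0, 0) := by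
    rcases k with k | k | k
    · omega
    · exact k.1
    · omega
  rw [e1, K8] at a1
  rw [← a2, show d.lnk p = ((8, 0, 0), (d.lnk p).2) from Prod.ext e1 rfl]
  rcases (by omega : (d.lnk p).2 = 0 ∨ (d.lnk p).2 = 1) with z | z <;> rw [z]
  exacts [Or.inl lane_s.1.1, Or.inr lane_s.2.1.2.1]

theorem gt0 : d.Gt (0, 0, 0) ∧ d.Gt (1, d.V, 0) := by simp [Gt, K, kk]

theorem n0 : d.lnkN ((0, 0, 0), 4) = ((1, d.V, 0), 1) ∧ d.lnkN ((1, d.V, 0), 1) = ((0, 0, 0), 4) := by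
  simp [lnkN, lane_s.1.2.1, lane_s.2.1.1]

theorem flipN (h : d.OK) (g : d.Gt p.1) (r : p.2 < d.K p.1) :
    d.Gt (d.lnkN p).1 ∧ (d.lnkN p).2 < d.K (d.lnkN p).1 ∧ d.lnkN (d.lnkN p) = p ∧
      (d.IsIn (d.lnkN p) ↔ ¬ d.IsIn p) := by
  by_cases e : (d.lnk p).1.1 = 8
  · have a := lane_s (d := d)
    rcases to8 h r e with rfl | rfl
    · rw [n0.1, n0.2]
      exact ⟨gt0.2, a.2.1.2.2.1, rfl, iff_of_false a.2.1.2.2.2.2.1 (not_not.2 a.1.2.2.2.2.2)⟩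
    · rw [n0.2, n0.1]
      exact ⟨gt0.1, a.1.2.2.2.1, rfl, iff_of_true a.1.2.2.2.2.2 a.2.1.2.2.2.2.1⟩
  · obtain ⟨a1, a2, a3⟩ := flip h r
    have e1 : d.lnkN p = d.lnk p := if_neg e
    have := g.bd
    rw [e1, lnkN, a2, if_neg (by omega)]
    refine ⟨?_, a1, rfl, a3⟩
    rcases K_cases d (d.lnk p).1 with k | k | k
    · omega
    · exact absurd (congrArg Prod.fst k.1) e
    · exact k.2.2.2

theorem in_enc (g : d.Gt p.1) (i : d.IsIn p) :
    d.encI p < 2 * d.N ∧ rin d.typ (d.encI p) ∧ d.inC (d.encI p) = p := by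
  obtain ⟨a1, a2, a3, a4⟩ := g.enc
  have e : d.encI p / 2 = d.enc p.1 ∧ (d.encI p % 2 = 1 ↔ p.2 = 0) := by
    unfold encI
    split_ifs <;> omega
  refine ⟨by omega, Or.inr (by rwa [e.1]), ?_⟩
  rw [inC, e.1, a2]
  refine Prod.ext rfl ?_
  unfold IsIn at i
  simp only
  split_ifs <;> omega

theorem out_enc (g : d.Gt p.1) (r : p.2 < d.K p.1) (i : ¬ d.IsIn p) :
    d.encO p < 3 * d.N ∧ rout d.typ (d.encO p) ∧ d.outC (d.encO p) = p := by
  obtain ⟨a1, a2, a3, a4⟩ := g.enc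
  unfold IsIn at i
  have e : d.encO p / 3 = d.enc p.1 ∧ d.encO p % 3 = d.typ (d.enc p.1) + 1 - p.2 := by
    unfold encO
    omega
  refine ⟨by omega, by rw [rout, e.1]; omega, ?_⟩
  rw [outC, e.1, a2]
  exact Prod.ext rfl (by simp only; omega)

theorem in_dec {i : ℕ} (r : rin d.typ i) : d.Gt (d.inC i).1 ∧ (d.inC i).2 < d.K (d.inC i).1 ∧
    d.IsIn (d.inC i) ∧ d.encI (d.inC i) = i := by
  unfold rin at r
  have g : d.Gt (d.dec (i / 2)) := gt_dec (by omega)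
  obtain ⟨-, -, a3, a4⟩ := g.enc
  rw [enc_dec] at a3 a4
  refine ⟨g, ?_, ?_, ?_⟩ <;> simp only [inC, IsIn, encI, enc_dec] <;> split_ifs <;> omega

theorem out_dec {o : ℕ} (r : rout d.typ o) : d.Gt (d.outC o).1 ∧ (d.outC o).2 < d.K (d.outC o).1 ∧
    ¬ d.IsIn (d.outC o) ∧ d.encO (d.outC o) = o := by
  unfold rout at r
  have g : d.Gt (d.dec (o / 3)) := gt_dec (by omega)
  obtain ⟨-, -, a3, a4⟩ := g.enc
  rw [enc_dec] at a3 a4
  refine ⟨g, ?_, ?_, ?_⟩ <;> simp only [outC, IsIn, encO, enc_dec] <;> omega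

theorem enc0 : d.enc (0, 0, 0) = 0 := by simp [enc]

theorem net (h : d.OK) : NetOK d.N d.typ d.src d.tgt := by
  have a := (gt0 (d := d)).1.enc
  rw [enc0] at a
  refine ⟨a.1, by omega, fun a _ => (typ_le d a).trans (by omega), fun i _ r => ?_, fun o _ r => ?_⟩
  · obtain ⟨a1, a2, a3, a4⟩ := in_dec r
    obtain ⟨b1, b2, b3, b4⟩ := flipN h a1 a2
    obtain ⟨c1, c2, c3⟩ := out_enc b1 b2 fun z => b4.1 z a3
    exact ⟨c1, c2, by rw [tgt, src, c3, b3, a4]⟩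
  · obtain ⟨a1, a2, a3, a4⟩ := out_dec r
    obtain ⟨b1, b2, b3, b4⟩ := flipN h a1 a2
    obtain ⟨c1, c2, c3⟩ := in_enc b1 (b4.2 a3)
    exact ⟨c1, c2, by rw [src, tgt, c3, b3, a4]⟩

theorem valid (h : d.OK) : d.board.Valid := grid_valid (net_grid (net h))

/-- the first corner of a node -/
def U (d : Dat) (x : Nd) : ℕ := gU d.N (d.enc x)

theorem Gt.kd (g : d.Gt x) :
    d.U x < d.board.n ∧ d.board.kd (d.U x) = 5 ∧ d.board.ch (d.U x) + 1 = d.U x + d.K x := by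
  obtain ⟨a1, -, a3, a4⟩ := g.enc
  obtain ⟨b1, b2, b3⟩ := gate_kd (src := d.src) (tgt := d.tgt) a1 a4
  exact ⟨b1, b2, by rw [a3]; exact congrArg (· + 1) b3⟩

theorem Gt.inj {y : Nd} (g : d.Gt x) (g' : d.Gt y) (e : d.U x = d.U y) : x = y := by
  have : (5 * d.enc x + 2) * (2 * d.N + 1) = (5 * d.enc y + 2) * (2 * d.N + 1) := by
    unfold U gU at e
    omega
  have := Nat.eq_of_mul_eq_mul_right (by omega) this
  rw [← g.enc.2.1, ← g'.enc.2.1, show d.enc x = d.enc y by omega]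

theorem polys (h : d.OK) {u : ℕ} (hu : u < d.board.n) (k : d.board.kd u = 5) :
    d.board.ch u = u + 3 ∨ ∃ x, d.Gt x ∧ u = d.U x := by
  rcases poly_cases (net h) hu k with z | ⟨a, -, a2, rfl⟩
  · exact Or.inl z
  · exact Or.inr ⟨d.dec a, gt_dec (by omega), by rw [U, enc_dec]⟩

/-- the outer edge at a corner is used -/
def Y (d : Dat) (tok : ℕ → Bool) (p : Nd × ℕ) : Bool :=
  if p.1.1 = 8 then (if p.2 = 0 then tok (d.board.ch (d.board.n - 1)) else !tok (d.board.n - 2))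
  else xv d.board tok (d.U p.1) p.2

theorem Y_gate (h : d.OK) {tok : ℕ → Bool} (s : Rules d.board tok) (g : d.Gt p.1)
    (r : p.2 < d.K p.1) :
    (d.IsIn p → d.Y tok p = !tok (inV d.N d.typ d.src d.tgt (d.encI p))) ∧
    (¬ d.IsIn p → d.Y tok p = tok (outV d.N d.typ d.src d.tgt (d.encO p))) := by
  obtain ⟨a1, -, a3, a4⟩ := g.enc
  obtain ⟨b1, b2, b3⟩ := (lanes (net h) s).2.2.2 _ a1 a4
  have c := g.kd.2.2
  have := g.bd
  rw [Y, if_neg (by omega), xv]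
  unfold IsIn
  refine ⟨fun i => ?_, fun i => ?_⟩
  · by_cases e : p.2 = 0
    · rw [if_pos e, encI, if_pos e, ← b1]
      rfl
    · rw [if_neg e, if_pos (by omega), encI, if_neg e, c, a3]
      exact congrArg _ b2
  · rw [if_neg (by omega), if_neg (by omega)]
    exact b3 _ (by omega) (by omega)

theorem static (h : d.OK) {tok : ℕ → Bool} (s : Rules d.board tok) (r : p.2 < d.K p.1) :
    d.Y tok (d.lnk p) = !d.Y tok p := by
  obtain ⟨l1, l2, l3, -⟩ := lanes (net h) s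
  have a := lane_s (d := d)
  have i0 : d.encI ((0, 0, 0), 4) = 0 := by simp [encI, enc]
  have key : ∀ p : Nd × ℕ, p.2 < d.K p.1 → d.IsIn p → d.Y tok (d.lnk p) = !d.Y tok p := by
    intro p r i
    rcases K_cases d p.1 with k | k | ⟨-, -, -, g⟩
    · omega
    · obtain rfl : p = ((8, 0, 0), 1) := Prod.ext k.1 (by unfold IsIn at i; omega)
      have c := (in_enc gt0.1 a.1.2.2.2.2.2).2.2
      rw [i0] at c
      rw [a.2.1.2.1, (Y_gate h s gt0.2 a.2.1.2.2.1).2 a.2.1.2.2.2.2.1, ← n0.1, ← c, ← src, ← l3]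
      simp [Y, board]
    · obtain ⟨c1, c2, c3⟩ := in_enc g i
      rw [(Y_gate h s g r).1 i, Bool.not_not]
      by_cases e : (d.lnk p).1.1 = 8
      · rcases to8 h r e with rfl | rfl
        · rw [i0, l2, a.1.2.1]
          simp [Y, board]
        · exact absurd i a.2.1.2.2.2.2.1
      · obtain ⟨b1, b2, -, b4⟩ := flipN h g r
        have e1 : d.lnkN p = d.lnk p := if_neg e
        rw [l1 _ c1 c2 fun z => e ?_, src, c3, ← e1, (Y_gate h s b1 b2).2 fun z => b4.1 z i]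
        rw [← c3, z, ← i0, (in_enc gt0.1 a.1.2.2.2.2.2).2.2, a.1.2.1]
  by_cases i : d.IsIn p
  · exact key p r i
  · obtain ⟨a1, a2, a3⟩ := flip h r
    have := key _ a1 (a3.2 i)
    rw [a2] at this
    rw [this, Bool.not_not]

end Dat

end Pool.Agent.Lib.MP_33ce69_lc.Lol
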