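import Pool.Agent.Lib.MP_33ce69_lc.Lol.Tok

/-! Two copies of a board on one cycle, ports joined to their twins; positions along a path. -/

namespace Pool.Agent.Lib.MP_33ce69_lc.Lol

open Pool.Agent.Lib.MP_33ce69_lc.Odd Board

set_option maxHeartbeats 400000

def nx (b : Board) (w : ℕ) : ℕ := if w + 1 = 2 * b.n then 0 else w + 1
def pv (b : Board) (w : ℕ) : ℕ := if w = 0 then 2 * b.n - 1 else w - 1
def th (b : Board) (w : ℕ) : ℕ :=
  if w < b.n then (if b.kd w = 0 then b.n + w else b.ch w)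
  else if b.kd (w - b.n) = 0 then w - b.n else b.n + b.ch (w - b.n)

def Nb (b : Board) (x y : ℕ) : Prop := y = nx b x ∨ y = pv b x ∨ y = th b x

variable {b : Board} {π π' : ℕ → ℕ} {t t' p u v w i : ℕ}

theorem nx_spec (b : Board) (w : ℕ) :
    (w + 1 = 2 * b.n ∧ nx b w = 0) ∨ (w + 1 ≠ 2 * b.n ∧ nx b w = w + 1) := by
  unfold nx
  split_ifs <;> omega

theorem pv_spec (b : Board) (w : ℕ) :
    (w = 0 ∧ pv b w = 2 * b.n - 1) ∨ (w ≠ 0 ∧ pv b w = w - 1) := by
  unfold pv
  split_ifs <;> omega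

theorem two (h : b.Valid) : 2 ≤ b.n := by
  have := h.nxt h.pos (by rw [h.k0]; omega)
  omega

theorem th_in (h : b.Valid) (hv : v < b.n) :
    (b.kd v = 0 ∧ th b v = b.n + v ∧ th b (b.n + v) = v) ∨
      (b.kd v ≠ 0 ∧ th b v = b.ch v ∧ th b (b.n + v) = b.n + b.ch v ∧ b.ch v < b.n ∧
        b.ch v ≠ v ∧ b.ch v ≠ v + 1 ∧ v ≠ b.ch v + 1 ∧ th b (b.ch v) = v ∧
        th b (b.n + b.ch v) = b.n + v ∧ b.kd (b.ch v) ≠ 0 ∧ b.ch (b.ch v) = v) := by
  by_cases k : b.kd v = 0
  · exact Or.inl ⟨k, by simp [th, hv, k], by simp [th, k]⟩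
  · obtain ⟨c1, c2, c3, c4, c5⟩ := h.chord v hv k
    have k' : b.kd (b.ch v) ≠ 0 := by unfold okc at c5; omega
    exact Or.inr ⟨k, by simp [th, hv, k], by simp [th, k], c1,
      fun e => by rw [e] at c5; unfold okc at c5; omega, c3, c4, by simp [th, c1, k', c2],
      by simp [th, k', c2], k', c2⟩

theorem th_spec (h : b.Valid) (hw : w < 2 * b.n) :
    th b w < 2 * b.n ∧ th b (th b w) = w ∧ th b w ≠ w ∧ th b w ≠ nx b w ∧ th b w ≠ pv b w ∧
      nx b w ≠ pv b w ∧ nx b w < 2 * b.n ∧ pv b w < 2 * b.n ∧ nx b w ≠ w := by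
  have := two h
  have := nx_spec b w
  have := pv_spec b w
  by_cases c : w < b.n
  · rcases th_in h c with k | k <;> rw [k.2.1] <;> omega
  · obtain ⟨v, rfl⟩ : ∃ v, w = b.n + v := ⟨w - b.n, by omega⟩
    rcases th_in h (show v < b.n by omega) with k | k
    · rw [k.2.2]
      omega
    · rw [k.2.2.1]
      omega

theorem Nb.symm (h : b.Valid) (hu : u < 2 * b.n) (a : Nb b u v) : Nb b v u := by
  have := th_spec h hu
  have := nx_spec b u
  have := pv_spec b u
  have := nx_spec b v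
  have := pv_spec b v
  unfold Nb at *
  rcases a with a | a | rfl <;> omega

/-- `π v` is the position of `v` on a Hamiltonian path that starts with `0, ..., n` -/
structure HP (b : Board) (π : ℕ → ℕ) : Prop where
  lt : ∀ v < 2 * b.n, π v < 2 * b.n
  inj : ∀ u < 2 * b.n, ∀ v < 2 * b.n, π u = π v → u = v
  sur : ∀ j < 2 * b.n, ∃ v < 2 * b.n, π v = j
  adj : ∀ u < 2 * b.n, ∀ v < 2 * b.n, π u + 1 = π v → Nb b u v
  fix : ∀ v ≤ b.n, π v = v

def uu (π : ℕ → ℕ) (x y : ℕ) : ℕ := if π x + 1 = π y ∨ π y + 1 = π x then 1 else 0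
def eE (b : Board) (π : ℕ → ℕ) (v : ℕ) : ℕ := if v < b.n then uu π (b.n + v - 1) (b.n + v) else 0
def eC (b : Board) (π : ℕ → ℕ) (v : ℕ) : ℕ :=
  if v < b.n ∧ b.kd v ≠ 0 then uu π (b.n + v) (b.n + b.ch v) else 0

theorem uu_spec (π : ℕ → ℕ) (x y : ℕ) : ((π x + 1 = π y ∨ π y + 1 = π x) ∧ uu π x y = 1) ∨
    (π x + 1 ≠ π y ∧ π y + 1 ≠ π x ∧ uu π x y = 0) := by
  unfold uu
  split_ifs <;> omega

theorem uu_comm (π : ℕ → ℕ) (x y : ℕ) : uu π x y = uu π y x := by
  simp only [uu, or_comm]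

theorem eE_eq (hv : v + 1 < b.n) : eE b π (v + 1) = uu π (b.n + v) (b.n + (v + 1)) := if_pos hv

theorem eC_eq (hv : v < b.n) (k : b.kd v ≠ 0) : eC b π v = uu π (b.n + v) (b.n + b.ch v) :=
  if_pos ⟨hv, k⟩

theorem HP.hi (s : HP b π) (hv : v < b.n) : b.n ≤ π (b.n + v) ∧ (v ≠ 0 → b.n < π (b.n + v)) := by
  have a := s.inj (b.n + v) (by omega) (π (b.n + v)) (s.lt _ (by omega))
  have c := s.fix (π (b.n + v))
  omega

theorem HP.pre (s : HP b π) {j : ℕ} (h1 : b.n ≤ j) (h2 : j < 2 * b.n) :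
    ∃ v < b.n, π (b.n + v) = j := by
  obtain ⟨a, a1, a2⟩ := s.sur j h2
  have := s.fix a
  exact ⟨a - b.n, by omega, by rwa [show b.n + (a - b.n) = a by omega]⟩

theorem ed_of (h : b.Valid) (hu : u < b.n) (hv : v < b.n) (a : Nb b (b.n + u) (b.n + v)) :
    Ed b (eE b π) (eC b π) u v (uu π (b.n + u) (b.n + v)) := by
  have := nx_spec b (b.n + u)
  have := pv_spec b (b.n + u)
  rcases a with a | a | a
  · obtain rfl : v = u + 1 := by omega
    exact Or.inl ⟨rfl, eE_eq hv⟩
  · obtain rfl : u = v + 1 := by omega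
    exact Or.inr (Or.inl ⟨rfl, (eE_eq hu).trans (uu_comm _ _ _)⟩)
  · rcases th_in h hu with k | k
    · omega
    · obtain rfl : v = b.ch u := by omega
      exact Or.inr (Or.inr ⟨k.1, rfl, eC_eq hu k.1⟩)

theorem HP.deg (h : b.Valid) (s : HP b π) (hv : v < b.n) :
    eE b π v + eE b π (v + 1) + eC b π v = if π (b.n + v) + 1 = 2 * b.n then 1 else 2 := by
  have n2 := two h
  have hw : b.n + v < 2 * b.n := by omega
  obtain ⟨t1, -, -, t4, t5, t6, t7, t8, -⟩ := th_spec h hw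
  have hi := s.hi hv
  have l := s.lt _ hw
  have e1 : eE b π v = uu π (b.n + v) (pv b (b.n + v)) := by
    rw [eE, if_pos hv, uu_comm, pv, if_neg (by omega)]
  have e2 : eE b π (v + 1) = uu π (b.n + v) (nx b (b.n + v)) := by
    by_cases c : v + 1 < b.n
    · rw [eE_eq c, nx, if_neg (by omega)]
      rfl
    · have := s.fix 0 (by omega)
      rw [eE, if_neg c, nx, if_pos (by omega), uu, if_neg (by omega)]
  have e3 : eC b π v = uu π (b.n + v) (th b (b.n + v)) := by
    rcases th_in h hv with k | k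
    · have := s.fix v hv.le
      rw [eC, if_neg (by omega), k.2.2, uu, if_neg (by omega)]
    · rw [eC_eq hv k.1, k.2.2.1]
  have i1 := s.inj _ t1 _ t7
  have i2 := s.inj _ t1 _ t8
  have i3 := s.inj _ t7 _ t8
  have l1 := s.lt _ t1
  have l2 := s.lt _ t7
  have l3 := s.lt _ t8
  have p1 : π (nx b (b.n + v)) + 1 = π (b.n + v) ∨ π (pv b (b.n + v)) + 1 = π (b.n + v) ∨
      π (th b (b.n + v)) + 1 = π (b.n + v) := by
    obtain ⟨a, a1, a2⟩ := s.sur (π (b.n + v) - 1) (by omega)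
    rcases (s.adj a a1 _ hw (by omega)).symm h a1 with e | e | e <;> rw [← e] <;> omega
  have p2 : π (b.n + v) + 1 ≠ 2 * b.n → π (nx b (b.n + v)) = π (b.n + v) + 1 ∨
      π (pv b (b.n + v)) = π (b.n + v) + 1 ∨ π (th b (b.n + v)) = π (b.n + v) + 1 := fun z => by
    obtain ⟨a, a1, a2⟩ := s.sur (π (b.n + v) + 1) (by omega)
    rcases s.adj _ hw a a1 (by omega) with e | e | e <;> rw [← e] <;> omega
  have u1 := uu_spec π (b.n + v) (pv b (b.n + v))
  have u2 := uu_spec π (b.n + v) (nx b (b.n + v))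
  have u3 := uu_spec π (b.n + v) (th b (b.n + v))
  rw [e1, e2, e3]
  split_ifs <;> omega

theorem HP.tk (h : b.Valid) (s : HP b π) (ht : t < b.n) (e : π (b.n + t) + 1 = 2 * b.n) :
    Tk b (eE b π) (eC b π) t := by
  classical
  have n2 := two h
  refine ⟨ht, fun v => ?_, ?_, if_neg (lt_irrefl _), fun v hv ne => ?_, ?_,
    fun v _ k => if_neg fun z => z.2 k, fun v hv k => ?_, fun X h1 h0 => ?_⟩
  · unfold eE eC uu
    split_ifs <;> omega
  · have := s.fix (b.n - 1) (by omega)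
    have := s.fix b.n le_rfl
    rw [eE, if_pos h.pos, uu]
    exact if_pos (Or.inl (show π (b.n - 1) + 1 = π b.n by omega))
  · have := s.inj (b.n + v) (by omega) (b.n + t) (by omega)
    rw [s.deg h hv, if_neg (by omega)]
  · rw [s.deg h ht, if_pos e]
  · rcases th_in h hv with c | c
    · exact absurd c.1 k
    · rw [eC_eq hv k, eC_eq (by omega) (by omega), c.2.2.2.2.2.2.2.2.2.2, uu_comm]
  · obtain ⟨v, hv, hm⟩ := ((Finset.range b.n).filter X).exists_min_image (fun v => π (b.n + v))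
      (let ⟨v, a, c⟩ := h1; ⟨v, by simp [a, c]⟩)
    simp only [Finset.mem_filter, Finset.mem_range] at hv hm
    have := (s.hi hv.1).2 fun z => h0 (z ▸ hv.2)
    have := s.lt (b.n + v) (by omega)
    obtain ⟨u, hu, e⟩ := s.pre (j := π (b.n + v) - 1) (by omega) (by omega)
    refine ⟨v, hv.1, u, hu, hv.2, fun z => by have := hm u ⟨hu, z⟩; omega, ?_⟩
    have := ed_of (π := π) h hv.1 hu
      ((s.adj _ (by omega) _ (by omega) (by omega)).symm h (by omega))
    rwa [uu, if_pos (by omega)] at this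

/-- the positions after the rotation at position `i` -/
def Rt (m i : ℕ) (π π' : ℕ → ℕ) : Prop :=
  ∀ v < m, (π v ≤ i ∧ π' v = π v) ∨ (i < π v ∧ π' v + π v = m + i)

theorem HP.mv (h : b.Valid) (s : HP b π) (r : Rt (2 * b.n) i π π') (hp : p < b.n) (ht : t < b.n)
    (ht' : t' < b.n) (e0 : π (b.n + p) = i) (e1 : π (b.n + t) + 1 = 2 * b.n)
    (e2 : π (b.n + t') = i + 1) (hi : i + 3 ≤ 2 * b.n) (a : Nb b (b.n + p) (b.n + t)) :
    Mv b (eE b π) (eC b π) t (eE b π') (eC b π') t' p := by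
  have a' := s.adj (b.n + p) (by omega) (b.n + t') (by omega) (by omega)
  have r0 := r (b.n + p) (by omega)
  have r1 := r (b.n + t) (by omega)
  have r2 := r (b.n + t') (by omega)
  have key : ∀ x < b.n, ∀ y < b.n, ¬ Same x y p t → ¬ Same x y p t' →
      uu π' (b.n + x) (b.n + y) = uu π (b.n + x) (b.n + y) := fun x hx y hy z z' => by
    have := r (b.n + x) (by omega)
    have := r (b.n + y) (by omega)
    have := s.lt (b.n + x) (by omega)
    have := s.lt (b.n + y) (by omega)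
    have := s.inj (b.n + x) (by omega) (b.n + p) (by omega)
    have := s.inj (b.n + x) (by omega) (b.n + t) (by omega)
    have := s.inj (b.n + x) (by omega) (b.n + t') (by omega)
    have := s.inj (b.n + y) (by omega) (b.n + p) (by omega)
    have := s.inj (b.n + y) (by omega) (b.n + t) (by omega)
    have := s.inj (b.n + y) (by omega) (b.n + t') (by omega)
    unfold Same at z z'
    exact if_congr (by omega) rfl rfl
  refine ⟨hp, ?_, ?_, ?_, ?_, fun v hv z z' => ?_, fun v hv k z z' => ?_⟩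
  · have := ed_of (π := π) h hp ht a
    rwa [uu, if_neg (by omega)] at this
  · have := ed_of (π := π) h hp ht' a'
    rwa [uu, if_pos (by omega)] at this
  · have := ed_of (π := π') h hp ht a
    rwa [uu, if_pos (by omega)] at this
  · have := ed_of (π := π') h hp ht' a'
    rwa [uu, if_neg (by omega)] at this
  · rw [eE_eq hv, eE_eq hv, key v (by omega) _ hv z z']
  · rw [eC_eq hv k, eC_eq hv k, key v hv _ (h.chord v hv k).1 z z']

theorem HP.ident (s : HP b π) (e : ∀ v < b.n, eE b π v = 1) : ∀ v < b.n, π (b.n + v) = b.n + v := by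
  intro v
  induction v using Nat.strong_induction_on with
  | _ v ih =>
  intro hv
  rcases v with _ | v
  · exact s.fix _ le_rfl
  have a := e _ hv
  have c := ih v (by omega) (by omega)
  have u := uu_spec π (b.n + v) (b.n + (v + 1))
  have k := (s.hi hv).2 (by omega)
  rw [eE_eq hv] at a
  by_contra z
  have c' := ih (v - 1) (by omega) (by omega)
  have := s.inj (b.n + (v - 1)) (by omega) (b.n + (v + 1)) (by omega)
  omega

end Pool.Agent.Lib.MP_33ce69_lc.Lol
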