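import Pool.Agent.Lib.MP_33ce69_lc.Lol.Form
import Pool.Agent.Lib.MP_33ce69_lc.Odd.Poly

/-! Running time of the reduction. -/

namespace Pool.Agent.Lib.MP_33ce69_lc.Lol

set_option maxHeartbeats 400000

open Pool.Agent.Lib.MP_33ce69_lc.Odd Pool.Agent.Lib.Complexity

abbrev In := List Bool × List Clause

def dV (x : In) : ℕ := x.1.length
def dS (x : In) : ℕ := 3 * x.2.length
def dq (x : In) (k : ℕ) : Bool := x.1.getD k false
def dv (x : In) (b : ℕ) : ℕ := (lit x.2 b).1
def dt (x : In) (b : ℕ) : ℕ := if (lit x.2 b).2 = true then 2 else 1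

theorem eV (x : In) : (dat x).V = dV x := rfl
theorem eS (x : In) : (dat x).S = dS x := rfl
theorem eq (x : In) (k : ℕ) : (dat x).q k = dq x k := rfl
theorem ev (x : In) (k : ℕ) : (dat x).vr k = dv x k := rfl
theorem et (x : In) (k : ℕ) : (dat x).te k = dt x k := rfl

section
variable {α : Type} [Enc α] {x : α → In} {a b c e : α → ℕ} {r : α → Bool} {y : α → Nd}
  {p : α → Nd × ℕ}

@[fun_prop] theorem pt_lit {cs : α → List Clause} (hx : PT cs) (ha : PT a) :
    PT fun z => lit (cs z) (a z) := by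
  unfold lit; fun_prop
@[fun_prop] theorem pt_dV (hx : PT x) : PT fun z => dV (x z) := by
  unfold dV; fun_prop
@[fun_prop] theorem pt_dS (hx : PT x) : PT fun z => dS (x z) := by
  unfold dS; fun_prop
@[fun_prop] theorem pt_dq (hx : PT x) (ha : PT a) : PT fun z => dq (x z) (a z) := by
  unfold dq; fun_prop
@[fun_prop] theorem pt_dv (hx : PT x) (ha : PT a) : PT fun z => dv (x z) (a z) := by
  unfold dv; fun_prop
@[fun_prop] theorem pt_dt (hx : PT x) (ha : PT a) : PT fun z => dt (x z) (a z) := by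
  unfold dt; fun_prop

@[fun_prop] theorem pt_kk (hx : PT x) (ha : PT a) (hb : PT b) (hc : PT c) :
    PT fun z => (dat (x z)).kk (a z) (b z) (c z) := by
  simp only [Dat.kk, eV, eS, ev]; fun_prop
@[fun_prop] theorem pt_aOut (hx : PT x) (ha : PT a) : PT fun z => (dat (x z)).aOut (a z) := by
  simp only [Dat.aOut, eV]; fun_prop
@[fun_prop] theorem pt_fOut (hx : PT x) (ha : PT a) : PT fun z => (dat (x z)).fOut (a z) := by
  simp only [Dat.fOut, eV]; fun_prop
@[fun_prop] theorem pt_out (hx : PT x) (ha : PT a) (hr : PT r) :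
    PT fun z => (dat (x z)).out (a z) (r z) := by
  simp only [Dat.out, eV, eS, eq]; fun_prop
@[fun_prop] theorem pt_con (hx : PT x) (ha : PT a) (hr : PT r) :
    PT fun z => (dat (x z)).con (a z) (r z) := by
  simp only [Dat.con, eV, eq]; fun_prop
@[fun_prop] theorem pt_aIn (hx : PT x) (ha : PT a) : PT fun z => (dat (x z)).aIn (a z) := by
  simp only [Dat.aIn, eV, eS, ev]; fun_prop
@[fun_prop] theorem pt_fIn (hx : PT x) (ha : PT a) : PT fun z => (dat (x z)).fIn (a z) := by
  simp only [Dat.fIn, eV, eS]; fun_prop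
@[fun_prop] theorem pt_l0 (hx : PT x) (ha : PT a) (hb : PT b) :
    PT fun z => (dat (x z)).l0 (a z) (b z) := by
  simp only [Dat.l0, eV]; fun_prop
@[fun_prop] theorem pt_l1 (hx : PT x) (ha : PT a) (hb : PT b) :
    PT fun z => (dat (x z)).l1 (a z) (b z) := by
  simp only [Dat.l1, eV]; fun_prop
@[fun_prop] theorem pt_l3 (hx : PT x) (ha : PT a) (hb : PT b) :
    PT fun z => (dat (x z)).l3 (a z) (b z) := by
  simp only [Dat.l3, eq]; fun_prop
@[fun_prop] theorem pt_l5 (hx : PT x) (ha : PT a) (hb : PT b) (hc : PT c) :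
    PT fun z => (dat (x z)).l5 (a z) (b z) (c z) := by
  simp only [Dat.l5, eS, eq, ev, et]; fun_prop
@[fun_prop] theorem pt_l7 (hx : PT x) (ha : PT a) (hb : PT b) :
    PT fun z => (dat (x z)).l7 (a z) (b z) := by
  simp only [Dat.l7, ev, et]; fun_prop
@[fun_prop] theorem pt_lk (hx : PT x) (ha : PT a) (hb : PT b) (hc : PT c) (he : PT e) :
    PT fun z => (dat (x z)).lk (a z) (b z) (c z) (e z) := by
  simp only [Dat.lk, eV, eS]; fun_prop
@[fun_prop] theorem pt_K (hx : PT x) (hy : PT y) : PT fun z => (dat (x z)).K (y z) := by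
  unfold Dat.K; fun_prop
@[fun_prop] theorem pt_lnk (hx : PT x) (hp : PT p) : PT fun z => (dat (x z)).lnk (p z) := by
  unfold Dat.lnk; fun_prop

@[fun_prop] theorem pt_N (hx : PT x) : PT fun z => (dat (x z)).N := by
  simp only [Dat.N, eV, eS]; fun_prop
@[fun_prop] theorem pt_enc (hx : PT x) (hy : PT y) : PT fun z => (dat (x z)).enc (y z) := by
  simp only [Dat.enc, eV, eS]; fun_prop
@[fun_prop] theorem pt_dec (hx : PT x) (ha : PT a) : PT fun z => (dat (x z)).dec (a z) := by
  simp only [Dat.dec, eV, eS]; fun_prop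
@[fun_prop] theorem pt_typ (hx : PT x) (ha : PT a) : PT fun z => (dat (x z)).typ (a z) := by
  unfold Dat.typ; fun_prop
@[fun_prop] theorem pt_inC (hx : PT x) (ha : PT a) : PT fun z => (dat (x z)).inC (a z) := by
  unfold Dat.inC; fun_prop
@[fun_prop] theorem pt_outC (hx : PT x) (ha : PT a) : PT fun z => (dat (x z)).outC (a z) := by
  unfold Dat.outC; fun_prop
@[fun_prop] theorem pt_encI (hx : PT x) (hp : PT p) : PT fun z => (dat (x z)).encI (p z) := by
  unfold Dat.encI; fun_prop
@[fun_prop] theorem pt_encO (hx : PT x) (hp : PT p) : PT fun z => (dat (x z)).encO (p z) := by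
  unfold Dat.encO; fun_prop
@[fun_prop] theorem pt_lnkN (hx : PT x) (hp : PT p) : PT fun z => (dat (x z)).lnkN (p z) := by
  simp only [Dat.lnkN, eV]; fun_prop
@[fun_prop] theorem pt_src (hx : PT x) (ha : PT a) : PT fun z => (dat (x z)).src (a z) := by
  unfold Dat.src; fun_prop
@[fun_prop] theorem pt_tgt (hx : PT x) (ha : PT a) : PT fun z => (dat (x z)).tgt (a z) := by
  unfold Dat.tgt; fun_prop

@[fun_prop] theorem pt_rin (hx : PT x) (ha : PT a) :
    PT fun z => decide (rin (dat (x z)).typ (a z)) := by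
  have : PT fun z => decide ((a z % 2 = 0 ∧ (dat (x z)).typ (a z / 2) ≠ 0) ∨
      (dat (x z)).typ (a z / 2) = 1 ∨ (dat (x z)).typ (a z / 2) = 2) := by fun_prop
  exact this.of_eq fun z => decide_eq_decide.2 Iff.rfl

@[fun_prop] theorem pt_rout (hx : PT x) (ha : PT a) :
    PT fun z => decide (rout (dat (x z)).typ (a z)) := by
  have : PT fun z => decide ((a z % 3 = 1 ∧ (dat (x z)).typ (a z / 3) ≠ 0) ∨
      (dat (x z)).typ (a z / 3) = 2) := by fun_prop
  exact this.of_eq fun z => decide_eq_decide.2 Iff.rfl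

@[fun_prop] theorem pt_pvv (hx : PT x) (ha : PT a) (hb : PT b) :
    PT fun z => decide (pvv (dat (x z)).N (dat (x z)).typ (dat (x z)).tgt (a z) (b z)) := by
  have : PT fun z => decide (a z < 5 * (dat (x z)).N ∧
      ((a z % 5 % 2 = 0 ∧ rout (dat (x z)).typ (3 * (a z / 5) + a z % 5 / 2) ∧
        b z + (dat (x z)).tgt (3 * (a z / 5) + a z % 5 / 2) ≤ 2 * (dat (x z)).N) ∨
      (a z % 5 % 2 = 1 ∧ rin (dat (x z)).typ (2 * (a z / 5) + a z % 5 / 2) ∧
        2 * (dat (x z)).N < b z + (2 * (a z / 5) + a z % 5 / 2)))) := by fun_prop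
  exact this.of_eq fun z => decide_eq_decide.2 Iff.rfl

@[fun_prop] theorem pt_ty (hx : PT x) (ha : PT a) (hb : PT b) :
    PT fun z => ty (dat (x z)).N (dat (x z)).typ (dat (x z)).src (dat (x z)).tgt (a z) (b z) := by
  unfold ty; fun_prop

/-- the tile type at position `k` -/
def dT (x : In) : ℕ → ℕ := nT (dat x).N (dat x).typ (dat x).src (dat x).tgt

@[fun_prop] theorem pt_dT (hx : PT x) (ha : PT a) : PT fun z => dT (x z) (a z) := by
  unfold dT nT; fun_prop

def bn (x : In) : ℕ := (dat x).board.n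
def bkd (x : In) (v : ℕ) : ℕ := (dat x).board.kd v
def bch (x : In) (v : ℕ) : ℕ := (dat x).board.ch v

@[fun_prop] theorem pt_bn (hx : PT x) : PT fun z => bn (x z) := by
  have : PT fun z => 24 * ((5 * (dat (x z)).N + 1) * (2 * (dat (x z)).N + 1) - 1) + 15 := by
    fun_prop
  exact this

@[fun_prop] theorem pt_bkd (hx : PT x) (ha : PT a) : PT fun z => bkd (x z) (a z) := by
  have : PT fun z => look tK (dT (x z) (a z / 24)) (a z % 24) := by fun_prop
  exact this

theorem pt_gC (hx : PT x) (ha : PT a) (hb : PT b) (hc : PT c) :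
    PT fun z => gC (c z) (dT (x z)) (a z) (b z) := by
  unfold gC; fun_prop

@[fun_prop] theorem pt_bch (hx : PT x) (ha : PT a) : PT fun z => bch (x z) (a z) :=
  pt_gC (a := fun z => a z / 24) (c := fun z => 2 * (dat (x z)).N + 1)
    (b := fun z => look tC (dT (x z) (a z / 24)) (a z % 24)) hx (by fun_prop) (by fun_prop)
    (by fun_prop)

theorem pt_edges {B : α → Board} (hn : PT fun z => (B z).n)
    (hk : PT fun p : α × ℕ => (B p.1).kd p.2) (hc : PT fun p : α × ℕ => (B p.1).ch p.2) :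
    PT fun z => edges (B z) := by
  have : ∀ (n : α → ℕ) (k c : α → ℕ → ℕ), PT n → (PT fun p : α × ℕ => k p.1 p.2) →
      (PT fun p : α × ℕ => c p.1 p.2) → PT fun z => (List.range (2 * n z)).flatMap fun w =>
        [(w, if w + 1 = 2 * n z then 0 else w + 1),
          (w, if w < n z then (if k z w = 0 then n z + w else c z w)
            else if k z (w - n z) = 0 then w - n z else n z + c z (w - n z))] :=
    fun n k c hn hk hc => by fun_prop
  exact this _ (fun z => (B z).kd) (fun z => (B z).ch) hn hk hc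

theorem pt_U (hx : PT x) : PT fun z => (dat (x z)).U (1, (dat (x z)).V, 0) := by
  simp only [Dat.U, Lol.gU, eV]; fun_prop

theorem pt_res (hx : PT x) : PT fun z => out (x z) := by
  have h2 : PT fun z => (dat (x z)).board.n := pt_bn hx
  have h3 := pt_U hx
  have h4 : PT fun p : α × ℕ => x p.1 := by fun_prop
  have h1 := pt_edges (B := fun z => (dat (x z)).board) h2 (pt_bkd h4 (PT.snd PT.id))
    (pt_bch h4 (PT.snd PT.id))
  unfold out
  exact h1.prodMk ((PT.range (PT.mul (PT.const 2) h2)).prodMk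
    ((h2.add h3).prodMk (h2.add (h3.add (PT.const 1)))))

end

abbrev ZI := List Bool × List ((ℤ × Bool) × (ℤ × Bool) × (ℤ × Bool))

def cl (x : ZI) : In :=
  (x.1, x.2.map fun c => ((min c.1.1.toNat x.1.length, c.1.2),
    (min c.2.1.1.toNat x.1.length, c.2.1.2), (min c.2.2.1.toNat x.1.length, c.2.2.2)))

def upZ (o : List (ℕ × ℕ) × List ℕ × ℕ × ℕ) : List (ℤ × ℤ) × List ℤ × ℤ × ℤ :=
  (o.1.map fun p : ℕ × ℕ => ((p.1 : ℤ), (p.2 : ℤ)), o.2.1.map fun a : ℕ => (a : ℤ), (o.2.2.1 : ℤ),
    (o.2.2.2 : ℤ))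

def fZ (x : ZI) : List (ℤ × ℤ) × List ℤ × ℤ × ℤ := upZ (out (cl x))

theorem pt_cl : PT cl := by unfold cl; fun_prop

theorem pt_upZ : PT upZ := by unfold upZ; fun_prop

theorem pt_fZ : PT fZ := pt_upZ.comp (pt_res pt_cl)

def fN (x : In) : List (ℕ × ℕ) × List ℕ × ℕ × ℕ := Rep.down (fZ (Rep.up x))

theorem fN_poly : N68a2faeb.IsPolyTime fN := isPolyTime_of_rep pt_fZ fun _ => rfl

theorem fN_eq {qs : List Bool} {cs : List Clause} (h : Closed qs cs) :
    fN (qs, cs) = out (qs, cs) := by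
  have e : cl (Rep.up (qs, cs)) = (qs, cs) := by
    simp only [cl, up_prod, up_str]
    simp only [up_list, List.map_map]
    refine Prod.ext rfl ((List.map_congr_left fun c hc => ?_).trans (List.map_id _))
    obtain ⟨a1, a2, a3⟩ := h c hc
    simp only [Function.comp, up_prod, up_nat, up_bool, Int.toNat_natCast, id]
    rw [min_eq_left a1.le, min_eq_left a2.le, min_eq_left a3.le]
  rw [fN, fZ, e]
  exact Rep.down_up (out (qs, cs))

end Pool.Agent.Lib.MP_33ce69_lc.Lol
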