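import Pool.Agent.Lib.MP_33ce69_lc.Lol.Wire

/-! The machine evaluates the formula. -/

namespace Pool.Agent.Lib.MP_33ce69_lc.Lol

open Function

namespace Dat

variable (d : Dat)

def lv (x : Nd) : ℕ :=
  if x.1 = 8 ∨ (x.1 = 1 ∧ x.2.1 = d.V) then 0
  else if x.1 ≤ 4 ∨ (x.1 = 5 ∧ x.2.2 = 0) then x.2.1 + 1 else d.V + 1

/-- the resting state when the variables have the values `α` -/
def H (α : ℕ → Bool) (x : Nd) : ℕ :=
  if x.1 = 5 ∧ α x.2.1 = true ∧ x.2.2 ≤ d.S then 3 else d.K x - 1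

def ex (α : ℕ → Bool) (b : ℕ) : ℕ := if α (d.vr b) = true then 2 else 1

def Mat (α : ℕ → Bool) (b : ℕ) : Prop :=
  ∀ c, c % 3 = 1 → b ≤ c → c ≤ d.S →
    d.ex α c = d.te c ∨ d.ex α (c + 1) = d.te (c + 1) ∨ d.ex α (c + 2) = d.te (c + 2)

def Tv : ℕ → ℕ → (ℕ → Bool) → Prop
  | 0, _, α => d.Mat α 1
  | r + 1, k, α => if d.q k = true then ∀ b, Tv r (k + 1) (update α k b)
      else ∃ b, Tv r (k + 1) (update α k b)

abbrev G (k : ℕ) := Go d.K d.lnk fun x => k < d.lv x

/-- from the exit `e` to the exit `f` -/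
def Cont (k : ℕ) (σ : Nd → ℕ) (e : Nd × ℕ) (τ : Nd → ℕ) (f : Nd × ℕ) : Prop :=
  (τ = σ ∧ f = e) ∨ d.G k σ (d.lnk e) τ f

def Rest (α : ℕ → Bool) (b : ℕ) (σ : Nd → ℕ) : Prop :=
  ∀ t a c, t = 5 ∨ t = 7 → b ≤ c → σ (t, a, c) = d.H α (t, a, c)

variable {d} {α : ℕ → Bool} {σ τ υ : Nd → ℕ} {p e f : Nd × ℕ} {k b : ℕ}

theorem G.cont (g : d.G k σ p τ e) (c : d.Cont k τ e υ f) : d.G k σ p υ f := by
  rcases c with ⟨rfl, rfl⟩ | c
  exacts [g, g.trans c]

theorem Rest.up (r : d.Rest α b σ) {b' : ℕ} (h : b ≤ b') : d.Rest α b' σ :=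
  fun t a c x y => r t a c x (h.trans y)

theorem Rest.keep (r : d.Rest α b σ) (t a : ℕ) {c : ℕ} (h : c < b) (s : ℕ) :
    d.Rest α b (update σ (t, a, c) s) := fun t' a' c' x y => by
  rw [update_of_ne (by simp; omega), r t' a' c' x y]

theorem tri (h0 : 1 ≤ b) (hb : b ≤ d.S) (hs : σ (7, 0, b) = 2) {j : ℕ} (hj : j = 0 ∨ j = 2) :
    ∃ s, d.G d.V σ ((7, 0, b), j) (update σ (7, 0, b) s) ((7, 0, b), 1) := by
  have hK : d.K (7, 0, b) = 3 := by simp [K, kk, h0, hb]
  rcases hj with rfl | rfl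
  · exact ⟨1, Go.last hK hs (by simp [lv]) (by decide)⟩
  · exact ⟨0, Go.last hK hs (by simp [lv]) (by decide)⟩

theorem test (h : d.OK) (h0 : 1 ≤ b) (hb : b ≤ d.S) (hs : σ (5, d.vr b, b) = d.H α (5, d.vr b, b)) :
    ∃ s, d.G d.V σ ((5, d.vr b, b), 4) (update σ (5, d.vr b, b) s) ((5, d.vr b, b), d.ex α b) := by
  have hK : d.K (5, d.vr b, b) = 5 := by simp [K, kk, h.lt b h0 hb, hb]
  have hl : d.V < d.lv (5, d.vr b, b) := by simp [lv, show b ≠ 0 by omega]
  unfold ex
  split_ifs with e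
  · exact ⟨2, Go.last (s := 3) hK (by simpa [H, e, hb] using hs) hl (by decide)⟩
  · exact ⟨0, Go.last (s := 4) hK (by simpa [H, e, hK] using hs) hl (by decide)⟩

theorem Rest.t7 (r : d.Rest α b σ) {c : ℕ} (h0 : 1 ≤ c) (h1 : b ≤ c) (h2 : c ≤ d.S) :
    σ (7, 0, c) = 2 := by
  simpa [H, K, kk, h0, h2] using r 7 0 c (Or.inr rfl) h1

theorem fail (h : d.OK) (n : ℕ) : ∀ {b : ℕ} {σ : Nd → ℕ}, b + 3 * n = d.S + 3 → 1 ≤ b →
    d.Rest α b σ → ∃ τ, d.Cont d.V σ (d.fOut b) τ (d.out d.V false) := by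
  have s3 := h.s3
  induction n with
  | zero => exact fun {b σ} e _ _ => ⟨σ, Or.inl ⟨rfl, by simp [out, ← e]⟩⟩
  | succ n ih =>
    intro b σ e h0 r
    have hb : b ≤ d.S := by omega
    obtain ⟨s, g⟩ := tri h0 hb (r.t7 h0 le_rfl hb) (Or.inr rfl)
    obtain ⟨τ, c⟩ := ih (b := b + 3) (by omega) (by omega)
      ((r.up (by omega)).keep 7 0 (c := b) (by omega) s)
    rw [fOut, if_neg (by omega), Nat.add_sub_cancel] at c
    refine ⟨τ, Or.inr ?_⟩
    rw [(lane_f h (by omega) h0 (by omega)).1, fIn, if_neg (by omega)]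
    exact g.cont c

theorem ex_ne (h : d.OK) (e : d.ex α b ≠ d.te b) : d.ex α b = 3 - d.te b := by
  have := h.te b
  unfold ex at *
  split_ifs at * <;> omega

theorem matrix (h : d.OK) (n : ℕ) : ∀ {b : ℕ} {σ : Nd → ℕ}, b + 3 * n = d.S + 1 → 1 ≤ b →
    d.Rest α b σ → ∃ τ r, (r = true ↔ d.Mat α b) ∧ d.Cont d.V σ (d.aOut b) τ (d.out d.V r) := by
  have s3 := h.s3
  induction n with
  | zero =>
    exact fun {b σ} e _ _ => ⟨σ, true, iff_of_true rfl fun c _ _ _ => by omega,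
      Or.inl ⟨rfl, by simp [out, ← e]⟩⟩
  | succ n ih =>
    intro b σ e h0 r
    have hb : b ≤ d.S := by omega
    have b1 : b % 3 = 1 := by omega
    obtain ⟨l1, l2, l3, l4, l5, l6, l7⟩ := lane_l h b1 hb
    have mt : d.Mat α b ↔ (d.ex α b = d.te b ∨ d.ex α (b + 1) = d.te (b + 1) ∨
        d.ex α (b + 2) = d.te (b + 2)) ∧ d.Mat α (b + 3) :=
      ⟨fun m => ⟨m b b1 le_rfl hb, fun c x y z => m c x (by omega) z⟩, fun m c x y z => by
        rcases y.eq_or_lt with rfl | y
        exacts [m.1, m.2 c x (by omega) z]⟩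
    have fin : ∀ {σ : Nd → ℕ} {j : ℕ}, d.Rest α (b + 3) σ → σ (7, 0, b + 1) = 2 → j = 0 ∨ j = 2 →
        ∃ τ r, (r = true ↔ d.Mat α (b + 3)) ∧ d.G d.V σ ((7, 0, b + 1), j) τ (d.out d.V r) := by
      intro σ j r x y
      obtain ⟨s, g⟩ := tri (d := d) (by omega) (by omega) x y
      obtain ⟨τ, z, c1, c⟩ := ih (b := b + 3) (by omega) (by omega)
        (r.keep 7 0 (c := b + 1) (by omega) s)
      rw [aOut, if_neg (by omega)] at c
      exact ⟨τ, z, c1, g.cont c⟩
    have fin' : ∀ {σ : Nd → ℕ} {j : ℕ}, d.Rest α (b + 3) σ → σ (7, 0, b) = 2 →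
        σ (7, 0, b + 1) = 2 → j = 0 ∨ j = 2 →
        ∃ τ r, (r = true ↔ d.Mat α (b + 3)) ∧ d.G d.V σ ((7, 0, b), j) τ (d.out d.V r) := by
      intro σ j r x x' y
      obtain ⟨s, g⟩ := tri h0 hb x y
      obtain ⟨τ, z, c1, c⟩ := fin (r.keep 7 0 (c := b) (by omega) s) (by simpa using x') (Or.inl rfl)
      exact ⟨τ, z, c1, g.trans (l4.1 ▸ c)⟩
    have t0 := r.t7 h0 le_rfl hb
    have t1 := r.t7 (c := b + 1) (by omega) (by omega) (by omega)
    have t2 := r.t7 (c := b + 2) (by omega) (by omega) (by omega)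
    have r3 := r.up (b' := b + 3) (by omega)
    suffices k : ∃ τ r, (r = true ↔ d.Mat α b) ∧ d.G d.V σ ((5, d.vr b, b), 4) τ (d.out d.V r) by
      obtain ⟨τ, z, k1, k2⟩ := k
      refine ⟨τ, z, k1, Or.inr ?_⟩
      rwa [(lane_a h b1 (by omega)).1, aIn, if_neg (by omega)]
    obtain ⟨s0, g0⟩ := test h h0 hb (r 5 _ b (Or.inl rfl) le_rfl)
    have r4 := r3.keep 5 (d.vr b) (c := b) (by omega) s0
    by_cases e0 : d.ex α b = d.te b
    · obtain ⟨τ, z, c1, c⟩ := fin' r4 (by simpa using t0) (by simpa using t1) (Or.inl rfl)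
      exact ⟨τ, z, by rw [mt, c1]; simp [e0], g0.trans (by rw [e0, l1.1]; exact c)⟩
    obtain ⟨s1, g1⟩ := test (α := α) (σ := update σ (5, d.vr b, b) s0) h (b := b + 1) (by omega)
      (by omega) (by simpa using r 5 _ (b + 1) (Or.inl rfl) (by omega))
    have g1' := g0.trans (by rw [ex_ne h e0, l5.1]; exact g1)
    have r5 := r4.keep 5 (d.vr (b + 1)) (c := b + 1) (by omega) s1
    by_cases e1 : d.ex α (b + 1) = d.te (b + 1)
    · obtain ⟨τ, z, c1, c⟩ := fin' r5 (by simpa using t0) (by simpa using t1) (Or.inr rfl)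
      exact ⟨τ, z, by rw [mt, c1]; simp [e1], g1'.trans (by rw [e1, l2.1]; exact c)⟩
    obtain ⟨s2, g2⟩ := test (α := α) (σ := update (update σ (5, d.vr b, b) s0)
      (5, d.vr (b + 1), b + 1) s1) h (b := b + 2) (by omega) (by omega)
      (by simpa using r 5 _ (b + 2) (Or.inl rfl) (by omega))
    have g2' := g1'.trans (by rw [ex_ne h e1, l6.1]; exact g2)
    have r6 := r5.keep 5 (d.vr (b + 2)) (c := b + 2) (by omega) s2
    by_cases e2 : d.ex α (b + 2) = d.te (b + 2)
    · obtain ⟨τ, z, c1, c⟩ := fin r6 (by simpa using t1) (Or.inr rfl)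
      exact ⟨τ, z, by rw [mt, c1]; simp [e2], g2'.trans (by rw [e2, l3.1]; exact c)⟩
    obtain ⟨s, g⟩ := tri (σ := update (update (update σ (5, d.vr b, b) s0)
      (5, d.vr (b + 1), b + 1) s1) (5, d.vr (b + 2), b + 2) s2) (d := d) (b := b + 2) (by omega)
      (by omega) (by simpa using t2) (Or.inl rfl)
    obtain ⟨τ, c⟩ := fail h n (b := b + 5) (by omega) (by omega)
      ((r6.keep 7 0 (c := b + 2) (by omega) s).up (by omega))
    rw [fOut, if_neg (by omega)] at c
    exact ⟨τ, false, by rw [mt]; simp [e0, e1, e2],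
      g2'.trans (by rw [ex_ne h e2, l7.1]; exact g.cont c)⟩

theorem chain (hk : k < d.V) (n : ℕ) : ∀ {b : ℕ} {σ : Nd → ℕ}, b + n = d.S →
    (∀ c, b ≤ c → c ≤ d.S → σ (5, k, c) = 4) → d.G k σ ((5, k, b), 0)
      (fun x => if x.1 = 5 ∧ x.2.1 = k ∧ b ≤ x.2.2 ∧ x.2.2 ≤ d.S then 3 else σ x)
      ((5, k, d.S), 3) := by
  have hK : ∀ c, c ≤ d.S → d.K (5, k, c) = 5 := fun c hc => by simp [K, kk, hk, hc]
  have hl : ∀ c, k < d.lv (5, k, c) := fun c => by
    unfold lv
    split_ifs <;> first | omega | simp_all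
  induction n with
  | zero =>
    rintro b σ (rfl : b = d.S) r
    convert Go.last (S := fun x => k < d.lv x) (lnk := d.lnk) (s' := 3) (j := 0) (j' := 3)
      (hK _ le_rfl) (r _ le_rfl le_rfl) (hl _) (by decide) using 1
    funext ⟨t, a, c⟩
    simp only [update_apply, Prod.mk.injEq]
    split_ifs <;> first | rfl | omega
  | succ n ih =>
    intro b σ e r
    refine Go.step 3 (lane_c hk (b := b) (by omega)).1 (hK b (by omega)) (r b le_rfl (by omega))
      (hl b) (by decide) ?_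
    convert ih (b := b + 1) (σ := update σ (5, k, b) 3) (by omega) fun c x y => by
      rw [update_of_ne (by simp; omega), r c (by omega) y] using 1
    funext ⟨t, a, c⟩
    simp only [update_apply, Prod.mk.injEq]
    split_ifs <;> first | rfl | omega

theorem level (h : d.OK) (r : ℕ) : ∀ {k : ℕ} {α : ℕ → Bool} {σ : Nd → ℕ}, k + r = d.V →
    (∀ v, k ≤ v → α v = false) → (∀ x, k < d.lv x → σ x = d.H α x) →
    ∃ τ b, (b = true ↔ d.Tv r k α) ∧ d.G k σ ((0, k, 0), 4) τ (d.out k b) := by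
  have s3 := h.s3
  induction r with
  | zero =>
    rintro k α σ (rfl : k = d.V) - sp
    have hK : d.K (0, d.V, 0) = 5 := by simp [K, kk]
    have hl : d.V < d.lv (0, d.V, 0) := by simp [lv]
    obtain ⟨τ, b, c1, c⟩ := matrix (α := α) (σ := update σ (0, d.V, 0) 0) h (d.S / 3) (b := 1)
      (by omega) le_rfl fun t a c x y => by
        rw [update_of_ne (by simp; omega)]
        refine sp _ ?_
        rcases x with rfl | rfl <;> simp [lv, show c ≠ 0 by omega]
    exact ⟨τ, b, c1, G.cont (Go.last (s := 4) (j' := 1) hK (by simpa [H, hK] using sp _ hl) hl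
      (by decide)) c⟩
  | succ r ih =>
    intro k α σ e hα sp
    have hk : k < d.V := by omega
    have ne : k ≠ d.V := hk.ne
    obtain ⟨l1, l2, l3, l4, l5, l6, l7, -⟩ := lane_v hk
    have K0 : d.K (0, k, 0) = 5 := by simp [K, kk, hk.le]
    have K1 : d.K (1, k, 0) = 3 := by simp [K, kk, hk.le]
    have K2 : d.K (2, k, 0) = 3 := by simp [K, kk, hk]
    have K3 : d.K (3, k, 0) = 5 := by simp [K, kk, hk]
    have K5 : d.K (5, k, 0) = 5 := by simp [K, kk, hk]
    have v0 : d.lv (0, k, 0) = k + 1 := by simp [lv]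
    have v1 : d.lv (1, k, 0) = k + 1 := by simp [lv, ne]
    have v2 : d.lv (2, k, 0) = k + 1 := by simp [lv]
    have v3 : d.lv (3, k, 0) = k + 1 := by simp [lv]
    have v5 : d.lv (5, k, 0) = k + 1 := by simp [lv]
    have s0 : σ (0, k, 0) = 4 := by simpa [H, K0] using sp (0, k, 0) (by omega)
    have s1 : σ (1, k, 0) = 2 := by simpa [H, K1] using sp (1, k, 0) (by omega)
    have s2 : σ (2, k, 0) = 2 := by simpa [H, K2] using sp (2, k, 0) (by omega)
    have s3' : σ (3, k, 0) = 4 := by simpa [H, K3] using sp (3, k, 0) (by omega)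
    have s5 : ∀ c, c ≤ d.S → σ (5, k, c) = 4 := fun c hc => by
      have := sp (5, k, c) (by unfold lv; split_ifs <;> first | omega | simp_all)
      simpa [H, hα k le_rfl, K, kk, hk, hc] using this
    have mono : ∀ {σ p τ e}, d.G (k + 1) σ p τ e → d.G k σ p τ e := fun g =>
      g.mono fun x (y : k + 1 < d.lv x) => by omega
    have nq : (!d.q k) ≠ d.q k := by cases d.q k <;> simp
    have cD : d.lnk (d.out (k + 1) (!d.q k)) = ((3, k, 0), 0) := by
      simpa [con, nq] using (lane_o h (k := k + 1) hk (!d.q k)).1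
    have cN : d.lnk (d.out (k + 1) (d.q k)) = ((5, k, 0), 4) := by
      simpa [con] using (lane_o h (k := k + 1) hk (d.q k)).1
    have cN' : d.lnk ((5, k, 0), 4) = d.out (k + 1) (d.q k) := by
      simpa [con] using (lane_o h (k := k + 1) hk (d.q k)).2.1
    have oD : d.out k (!d.q k) = ((3, k, 0), 3) := by simp [out, ne, nq]
    have oN : d.out k (d.q k) = ((5, k, 0), 2) := by simp [out, ne]
    have pass : ∀ {σ p τ}, d.G k σ p τ (d.out (k + 1) (!d.q k)) → τ (3, k, 0) = 4 →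
        ∃ υ, d.G k σ p υ (d.out k (!d.q k)) := fun {σ p τ} g z =>
      ⟨update τ (3, k, 0) 3, g.trans (by
        rw [cD, oD]; exact Go.last K3 z (by omega) (by decide))⟩
    have bq : ∀ b : Bool, b = d.q k ∨ b = !d.q k := fun b => by cases b <;> cases d.q k <;> simp
    have u0 : update α k false = α := by rw [← hα k le_rfl, update_eq_self]
    obtain ⟨τ, b0, c0, g0⟩ := ih (k := k + 1) (α := α) (σ := update σ (0, k, 0) 0) (by omega)
      (fun v hv => hα v (by omega)) fun x hx => by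
        rw [update_of_ne (by rintro rfl; omega), sp x (by omega)]
    have gA : d.G k σ ((0, k, 0), 4) τ (d.out (k + 1) b0) :=
      Go.step 0 l1.1 K0 s0 (by omega) (by decide) (mono g0)
    have t0 : τ (0, k, 0) = 0 := by simpa using g0.out (x := (0, k, 0)) (by omega)
    have t1 : τ (1, k, 0) = 2 := by simpa [s1] using g0.out (x := (1, k, 0)) (by omega)
    have t3 : τ (3, k, 0) = 4 := by simpa [s3'] using g0.out (x := (3, k, 0)) (by omega)
    have t5 : τ (5, k, 0) = 4 := by simpa [s5 0] using g0.out (x := (5, k, 0)) (by omega)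
    rcases bq b0 with rfl | rfl
    swap
    · obtain ⟨υ, g⟩ := pass gA t3
      refine ⟨υ, _, ?_, g⟩
      rw [Tv, Bool.forall_bool, Bool.exists_bool, u0, ← c0]
      cases d.q k <;> simp
    have back := ((g0.frame (x := (0, k, 0)) (by omega) 1).frame (x := (1, k, 0)) (by omega) 0).rev
      (inv h)
    rw [update_idem] at back
    obtain ⟨ω, b1, c1, g1⟩ := ih (k := k + 1) (α := update α k true) (σ := update (update
      (fun x => if x.1 = 5 ∧ x.2.1 = k ∧ 0 ≤ x.2.2 ∧ x.2.2 ≤ d.S then 3 else update (update (update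
        (update σ (0, k, 0) 1) (1, k, 0) 0) (0, k, 0) 2) (2, k, 0) 1 x) (2, k, 0) 0) (0, k, 0) 1)
      (by omega) (fun v hv => by rw [update_of_ne (by omega), hα v (by omega)]) fun x hx => by
        have n0 : x ≠ (0, k, 0) := by rintro rfl; omega
        have n1 : x ≠ (1, k, 0) := by rintro rfl; omega
        have n2 : x ≠ (2, k, 0) := by rintro rfl; omega
        simp only [update_of_ne n0, update_of_ne n1, update_of_ne n2, sp x (by omega), H]
        by_cases z : x.2.1 = k <;> simp [z, hα k le_rfl]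
    have gB : d.G k σ ((0, k, 0), 4) ω (d.out (k + 1) b1) := by
      refine gA.trans ?_
      rw [cN]
      refine Go.step 0 l5.1 K5 t5 (by omega) (by decide) ?_
      refine Go.step 1 l4.1 K1 (s := 2) (by simpa using t1) (by omega) (by decide) ?_
      refine Go.step 1 l2.1 K0 (s := 0) (by simpa using t0) (by omega) (by decide) ?_
      refine Go.step 0 l5.2.1 K1 (s := 1) (by simp) (by omega) (by decide) ?_
      refine Go.step 4 cN' K5 (s := 0) (by simp) (by omega) (by decide) ?_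
      refine Go.trans (τ := update (update σ (0, k, 0) 1) (1, k, 0) 0) (e := ((0, k + 1, 0), 4)) ?_ ?_
      · convert mono back using 1
        funext x
        simp only [update_apply]
        split_ifs <;> simp_all
      rw [l1.2.1]
      refine Go.step 2 l3.1 K0 (s := 1) (by simp) (by omega) (by decide) ?_
      refine Go.step 1 l6.1 K2 (s := 2) (by simpa using s2) (by omega) (by decide) ?_
      refine (chain hk d.S (Nat.zero_add _) fun c _ y => by simpa using s5 c y).trans ?_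
      rw [l7.1]
      refine Go.step 0 l3.2.1 K2 (s := 1) (by simp) (by omega) (by decide) ?_
      exact Go.step 1 l1.1 K0 (s := 2) (by simp) (by omega) (by decide) (mono g1)
    have tv : b1 = true ↔ d.Tv (r + 1) k α := by
      rw [Tv, Bool.forall_bool, Bool.exists_bool, u0, ← c0, ← c1]
      cases d.q k <;> simp
    rcases bq b1 with rfl | rfl
    · refine ⟨update ω (5, k, 0) 2, _, tv, gB.trans ?_⟩
      rw [cN, oN]
      exact Go.last K5 (s := 3) (by simpa using g1.out (x := (5, k, 0)) (by omega)) (by omega)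
        (by decide)
    · obtain ⟨υ, g⟩ := pass gB (by simpa [s3'] using g1.out (x := (3, k, 0)) (by omega))
      exact ⟨υ, _, tv, g⟩

/-- the ends of the orbit of the resting state -/
theorem ends (h : d.OK) {j : ℕ}
    (o : Orb d.K d.lnk (fun x => d.K x - 1) ((8, 0, 0), 0) σ ((8, 0, 0), j)) :
    (j = 0 ∧ σ = fun x => d.K x - 1) ∨
      (j = 1 ∧ (σ (1, d.V, 0) ≠ 0 ↔ d.Tv d.V 0 fun _ => false)) := by
  obtain ⟨τ, b, c, g⟩ := level h d.V (k := 0) (α := fun _ => false) (σ := fun x => d.K x - 1)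
    (Nat.zero_add _) (fun _ _ => rfl) fun x _ => by simp [H]
  have K1 : d.K (1, d.V, 0) = 3 := by simp [K, kk]
  have K8 : d.K (8, 0, 0) = 2 := by simp [K, kk]
  have t : τ (1, d.V, 0) = 2 := by simpa [K1] using g.out (x := (1, d.V, 0)) (by simp [lv])
  have l := (lane_o h (k := 0) (Nat.zero_le _) b).1
  have g' : Go d.K d.lnk (fun _ => True) (fun x => d.K x - 1) (d.lnk ((8, 0, 0), 0))
      (update τ (1, d.V, 0) (if b = true then 1 else 0)) ((1, d.V, 0), 1) := by
    rw [lane_s.1.1]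
    refine (g.mono fun _ _ => trivial).trans ?_
    rw [l, con, if_pos rfl]
    exact Go.last K1 t trivial (by cases b <;> decide)
  rcases o.ends (inv h) (by rw [K8]; decide) g' (by rw [lane_s.2.1.1]; exact K8) K8 with
    ⟨a1, a2⟩ | ⟨a1, a2⟩
  · exact Or.inl ⟨congrArg Prod.snd a2, a1⟩
  · rw [lane_s.2.1.1] at a2
    refine Or.inr ⟨congrArg Prod.snd a2, ?_⟩
    rw [a1, ← c]
    cases b <;> simp

end Dat

end Pool.Agent.Lib.MP_33ce69_lc.Lol
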