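import Pool.Agent.Lib.MP_33ce69_lc.Lol.Defs

/-! Rotations of Hamiltonian paths; the walk in a cubic graph has a second end. -/

namespace Pool.Agent.Lib.MP_33ce69_lc.Lol

open Relation

variable {V : Type} {G : SimpleGraph V} {P Q : List V}

def rot (P : List V) (i : ℕ) : List V := P.take (i + 1) ++ (P.drop (i + 1)).reverse

theorem rot_perm (P : List V) (i : ℕ) : (rot P i).Perm P := by
  conv_rhs => rw [← List.take_append_drop (i + 1) P]
  exact (List.reverse_perm _).append_left _

theorem rot_len (P : List V) (i : ℕ) : (rot P i).length = P.length := (rot_perm P i).length_eq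

theorem rot_le {i j : ℕ} (hi : i < P.length) (h : j ≤ i) : (rot P i)[j]? = P[j]? := by
  rw [rot, List.getElem?_append_left (by simp; omega), List.getElem?_take_of_lt (by omega)]

theorem rot_gt {i j : ℕ} (h : i < j) (hj : j < P.length) :
    (rot P i)[j]? = P[P.length + i - j]? := by
  have e : (P.take (i + 1)).length = i + 1 := by simp; omega
  rw [rot, List.getElem?_append_right (by omega), e, List.getElem?_reverse (by simp; omega),
    List.getElem?_drop, List.length_drop]
  congr 1
  omega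

theorem chain_iff : P.IsChain G.Adj ↔
    ∀ i a c, P[i]? = some a → P[i + 1]? = some c → G.Adj a c := by
  rw [List.isChain_iff_getElem]
  refine ⟨fun h i a c h1 h2 => ?_, fun h i hi => h i _ _ (List.getElem?_eq_getElem _)
    (List.getElem?_eq_getElem _)⟩
  obtain ⟨k1, rfl⟩ := List.getElem?_eq_some_iff.1 h1
  obtain ⟨k2, rfl⟩ := List.getElem?_eq_some_iff.1 h2
  exact h i k2

theorem idx_inj (h : P.Nodup) {i j : ℕ} {a : V} (h1 : P[i]? = some a) (h2 : P[j]? = some a) :
    i = j :=
  (List.getElem?_inj (List.getElem?_eq_some_iff.1 h1).1 h).1 (h1.trans h2.symm)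

theorem Rot.ham (h : HamPath G P) (r : Rot G P Q) : HamPath G Q := by
  obtain ⟨i, u, z, h1, h2, h3, h4, h5, rfl⟩ := r
  refine ⟨(rot_perm P i).nodup_iff.2 h.1, fun v => (rot_perm P i).mem_iff.2 (h.2.1 v), ?_⟩
  have c := chain_iff.1 h.2.2
  refine chain_iff.2 fun j a d (e1 : (rot P i)[j]? = _) (e2 : (rot P i)[j + 1]? = _) => ?_
  have hj : j + 1 < P.length := rot_len P i ▸ (List.getElem?_eq_some_iff.1 e2).1
  rcases lt_trichotomy j i with y | rfl | y
  · rw [rot_le (by omega) (by omega)] at e1 e2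
    exact c j a d e1 e2
  · rw [rot_le (by omega) le_rfl, h3] at e1
    rw [rot_gt (by omega) hj, show P.length + j - (j + 1) = P.length - 1 by omega,
      ← List.getLast?_eq_getElem?, h4] at e2
    rw [← Option.some.inj e1, ← Option.some.inj e2]
    exact h5.symm
  · rw [rot_gt (by omega) (by omega)] at e1 e2
    rw [show P.length + i - j = P.length + i - (j + 1) + 1 by omega] at e1
    exact (c _ d a e2 e1).symm

theorem rot_last {i : ℕ} (hi : i + 2 ≤ P.length) : (rot P i).getLast? = P[i + 1]? := by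
  rw [List.getLast?_eq_getElem?, rot_len]
  rw [rot_gt (by omega) (by omega)]
  congr 1
  omega

theorem Rot.symm (h : HamPath G P) (r : Rot G P Q) : Rot G Q P := by
  obtain ⟨i, u, z, h1, h2, h3, -, -, rfl⟩ := r
  have e : P[i + 1]? = some (P[i + 1]'(by omega)) := List.getElem?_eq_getElem _
  refine ⟨i, u, _, h1, (rot_len P i).symm ▸ h2, (rot_le (by omega) le_rfl).trans h3,
    (rot_last (by omega)).trans e, (chain_iff.1 h.2.2 i _ _ h3 e).symm, ?_⟩
  have l : (P.take (i + 1)).length = i + 1 := by simp; omega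
  rw [List.take_left' l, List.drop_left' l, List.reverse_reverse, List.take_append_drop]

theorem Rot.ne (h : HamPath G P) (r : Rot G P Q) : Q ≠ P := by
  obtain ⟨i, u, z, -, h2, -, h4, -, rfl⟩ := r
  intro e
  have := rot_last (P := P) (i := i) (by omega)
  rw [rot, e, h4] at this
  have := idx_inj h.1 this.symm (List.getLast?_eq_getElem? ▸ h4)
  omega

theorem reach_ham (h : HamPath G P) (r : ReflTransGen (Rot G) P Q) : HamPath G Q := by
  induction r with
  | refl => exact h
  | tail _ r ih => exact r.ham ih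

theorem rot_card [DecidableEq V] (c : ∀ x, (G.neighborSet x).ncard = 3) (h : HamPath G P)
    (l : 3 ≤ P.length) : (Closes G P → {Q | Rot G P Q}.ncard = 1) ∧
      (¬ Closes G P → {Q | Rot G P Q}.ncard = 2) := by
  obtain ⟨x, hx⟩ : ∃ x, P[0]? = some x := ⟨_, List.getElem?_eq_getElem (by omega)⟩
  obtain ⟨y, hy⟩ : ∃ y, P[P.length - 2]? = some y := ⟨_, List.getElem?_eq_getElem (by omega)⟩
  obtain ⟨z, hz⟩ : ∃ z, P[P.length - 2 + 1]? = some z := ⟨_, List.getElem?_eq_getElem (by omega)⟩
  have a := (chain_iff.1 h.2.2 _ _ _ hy hz).symm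
  have hl : P.getLast? = some z := by
    rw [List.getLast?_eq_getElem?, ← hz]
    congr 1
    omega
  have ix : ∀ u, P[P.idxOf u]? = some u := fun u => List.getElem?_idxOf (h.2.1 u)
  have lt : ∀ u, P.idxOf u < P.length := fun u => List.idxOf_lt_length_of_mem (h.2.1 u)
  have rg : ∀ u ∈ (G.neighborSet z \ {y}) \ {x}, 1 ≤ P.idxOf u ∧ P.idxOf u + 3 ≤ P.length := by
    rintro u ⟨⟨u1, u2⟩, u3⟩
    have b1 : P.idxOf u ≠ 0 := fun e => u3 (Option.some.inj ((e ▸ ix u).symm.trans hx))
    have b2 : P.idxOf u ≠ P.length - 2 := fun e => u2 (Option.some.inj ((e ▸ ix u).symm.trans hy))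
    have b3 : P.idxOf u ≠ P.length - 2 + 1 := fun e =>
      G.ne_of_adj u1 (Option.some.inj ((e ▸ ix u).symm.trans hz)).symm
    have := lt u
    omega
  have e : {Q | Rot G P Q} = (fun u => rot P (P.idxOf u)) '' ((G.neighborSet z \ {y}) \ {x}) := by
    ext Q
    constructor
    · rintro ⟨i, u, z', h1, h2, h3, h4, h5, rfl⟩
      obtain rfl : z = z' := Option.some.inj (hl.symm.trans h4)
      refine ⟨u, ⟨⟨h5, ?_⟩, ?_⟩, by simp only; rw [idx_inj h.1 (ix u) h3]; rfl⟩
      · rintro rfl
        have := idx_inj h.1 h3 hy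
        omega
      · rintro rfl
        have := idx_inj h.1 h3 hx
        omega
    · rintro ⟨u, hu, rfl⟩
      exact ⟨_, u, z, (rg u hu).1, (rg u hu).2, ix u, hl, hu.1.1, rfl⟩
  have inj : Set.InjOn (fun u => rot P (P.idxOf u)) ((G.neighborSet z \ {y}) \ {x}) := by
    intro u hu v hv (e : rot P _ = rot P _)
    have a1 := rot_last (P := P) (i := P.idxOf u) (by have := rg u hu; omega)
    have a2 := rot_last (P := P) (i := P.idxOf v) (by have := rg v hv; omega)
    rw [e, a2, List.getElem?_eq_getElem (by have := rg v hv; omega)] at a1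
    have := idx_inj h.1 a1.symm (List.getElem?_eq_getElem _)
    have a3 := ix u
    rw [show P.idxOf u = P.idxOf v by omega, ix v] at a3
    exact (Option.some.inj a3).symm
  have n2 : (G.neighborSet z \ {y}).ncard = 2 := by
    rw [Set.ncard_sdiff_singleton_of_mem (s := G.neighborSet z) a, c]
  have cl : Closes G P ↔ x ∈ G.neighborSet z \ {y} := by
    refine ⟨fun ⟨x', z', h1, h2, h3⟩ => ?_,
      fun k => ⟨x, z, by rw [List.head?_eq_getElem?, hx], hl, k.1⟩⟩
    rw [List.head?_eq_getElem?, hx] at h1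
    obtain rfl := Option.some.inj h1
    obtain rfl : z = z' := Option.some.inj (hl.symm.trans h2)
    refine ⟨h3, ?_⟩
    rintro rfl
    have := idx_inj h.1 hx hy
    omega
  rw [e, inj.ncard_image, cl]
  exact ⟨fun k => by rw [Set.ncard_sdiff_singleton_of_mem k, n2],
    fun k => by rw [Set.sdiff_singleton_eq_self k, n2]⟩

theorem other_end [Fintype V] [DecidableEq V] (c : ∀ x, (G.neighborSet x).ncard = 3)
    (h : HamPath G P) (l : 3 ≤ P.length) (k : Closes G P) :
    ∃ Q, ReflTransGen (Rot G) P Q ∧ Q ≠ P ∧ Closes G Q := by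
  classical
  have fin : Finite {Q // ReflTransGen (Rot G) P Q} :=
    Finite.of_injective (fun a => (⟨a.1, (reach_ham h a.2).1⟩ : {l : List V // l.Nodup}))
      fun a b e => Subtype.ext (Subtype.mk.inj e)
  have := Fintype.ofFinite {Q // ReflTransGen (Rot G) P Q}
  let H : SimpleGraph {Q // ReflTransGen (Rot G) P Q} :=
    ⟨fun a b => Rot G a.1 b.1, ⟨fun a _ r => r.symm (reach_ham h a.2)⟩,
      ⟨fun a r => r.ne (reach_ham h a.2) rfl⟩⟩
  have dg : ∀ a, H.degree a = {Q | Rot G a.1 Q}.ncard := fun a => by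
    rw [← SimpleGraph.card_neighborSet_eq_degree, ← Nat.card_eq_fintype_card, Nat.card_coe_set_eq,
      ← Set.ncard_image_of_injective _ Subtype.val_injective]
    congr 1
    ext Q
    exact ⟨fun ⟨b, h1, h2⟩ => h2 ▸ h1, fun r => ⟨⟨Q, a.2.tail r⟩, r, rfl⟩⟩
  obtain ⟨a, a1, a2⟩ := H.exists_ne_odd_degree_of_exists_odd_degree ⟨P, .refl⟩
    (by rw [dg, (rot_card c h l).1 k]; exact odd_one)
  refine ⟨a.1, a.2, fun e => a1 (Subtype.ext e), by_contra fun z => ?_⟩
  have hl : a.1.length = P.length := ((List.perm_ext_iff_of_nodup (reach_ham h a.2).1 h.1).2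
    fun v => iff_of_true ((reach_ham h a.2).2.1 v) (h.2.1 v)).length_eq
  rw [dg, (rot_card c (reach_ham h a.2) (by omega)).2 z] at a2
  exact absurd a2 (by decide)

end Pool.Agent.Lib.MP_33ce69_lc.Lol
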