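import Pool.Agent.Lib.MP_33ce69_lc.Lol.Path
import Pool.Agent.Lib.MP_33ce69_lc.Lol.Link
import Pool.Agent.Lib.MP_33ce69_lc.Lol.Thom
import Pool.Agent.Lib.MP_33ce69_lc.Defs

/-! The cubic graph of a board and the walk of its Hamiltonian paths. -/

namespace Pool.Agent.Lib.MP_33ce69_lc.Lol

open Pool.Agent.Lib.MP_33ce69_lc.Odd Board Relation

set_option maxHeartbeats 400000

def edges (b : Board) : List (ℕ × ℕ) :=
  (List.range (2 * b.n)).flatMap fun w => [(w, nx b w), (w, th b w)]

def gr (b : Board) : SimpleGraph (Fin (2 * b.n)) :=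
  SimpleGraph.fromRel fun x y => y.val = nx b x ∨ y.val = th b x

variable {b : Board}

theorem gr_adj (h : b.Valid) {x y : Fin (2 * b.n)} : (gr b).Adj x y ↔ Nb b x y := by
  have a := th_spec h x.2
  have c := th_spec h y.2
  have := nx_spec b x
  have := nx_spec b y
  have := pv_spec b x
  have := two h
  have e : x.val = th b y → y.val = th b x := fun e => by rw [e, c.2.1]
  rw [gr, SimpleGraph.fromRel_adj, Ne, Fin.ext_iff, Nb]
  omega

theorem mem_edges {x y : ℕ} : (x, y) ∈ edges b ↔ x < 2 * b.n ∧ (y = nx b x ∨ y = th b x) := by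
  simp only [edges, List.mem_flatMap, List.mem_range, List.mem_cons, Prod.mk.injEq,
    List.not_mem_nil, or_false]
  constructor
  · rintro ⟨w, hw, ⟨rfl, e⟩ | ⟨rfl, e⟩⟩
    exacts [⟨hw, Or.inl e⟩, ⟨hw, Or.inr e⟩]
  · rintro ⟨hw, e | e⟩
    exacts [⟨x, hw, Or.inl ⟨rfl, e⟩⟩, ⟨x, hw, Or.inr ⟨rfl, e⟩⟩]

theorem gr_lists (h : b.Valid) : Lists (edges b) (gr b).edgeSet := by
  refine ⟨fun p hp => ?_, fun x y => ?_⟩
  · have a := (mem_edges (x := p.1) (y := p.2)).1 hp
    have := th_spec h a.1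
    omega
  · have := th_spec h x.2
    have := th_spec h y.2
    have := x.2
    have := y.2
    rw [SimpleGraph.mem_edgeSet, mem_edges, mem_edges, gr, SimpleGraph.fromRel_adj, Ne, Fin.ext_iff]
    omega

theorem gr_cubic (h : b.Valid) (x : Fin (2 * b.n)) : ((gr b).neighborSet x).ncard = 3 := by
  obtain ⟨t1, -, -, t4, t5, t6, t7, t8, -⟩ := th_spec h x.2
  refine Set.ncard_eq_three.2 ⟨⟨_, t7⟩, ⟨_, t8⟩, ⟨_, t1⟩, fun e => t6 (Fin.mk.inj e),
    fun e => t4 (Fin.mk.inj e).symm, fun e => t5 (Fin.mk.inj e).symm, Set.ext fun y => ?_⟩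
  simp only [SimpleGraph.mem_neighborSet, gr_adj h, Nb, Set.mem_insert_iff, Set.mem_singleton_iff,
    Fin.ext_iff]

section
variable {m : ℕ} {G : SimpleGraph (Fin m)} {Q : List (Fin m)}

def pos (Q : List (Fin m)) (v : ℕ) : ℕ := if h : v < m then Q.idxOf ⟨v, h⟩ else 0

theorem ham_len (h : HamPath G Q) : Q.length = m := by
  have := ((List.perm_ext_iff_of_nodup h.1 (List.nodup_finRange m)).2
    fun v => iff_of_true (h.2.1 v) (List.mem_finRange v)).length_eq
  simpa using this

theorem pos_iff (h : HamPath G Q) {x : Fin m} {j : ℕ} : Q[j]? = some x ↔ pos Q x = j := by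
  have := List.getElem?_idxOf (h.2.1 x)
  rw [pos, dif_pos x.2]
  exact ⟨fun e => idx_inj h.1 this e, fun e => e ▸ this⟩

theorem pos_lt (h : HamPath G Q) {v : ℕ} (hv : v < m) : pos Q v < m :=
  (List.getElem?_eq_some_iff.1 ((pos_iff h (x := ⟨v, hv⟩)).2 rfl)).1.trans_eq (ham_len h)

theorem last_iff (h : HamPath G Q) {x : Fin m} : Q.getLast? = some x ↔ pos Q x + 1 = m := by
  have := x.2
  rw [List.getLast?_eq_getElem?, pos_iff h, ham_len h]
  omega

theorem rt_of (h : HamPath G Q) {i : ℕ} (h' : HamPath G (rot Q i)) (hi : i < m) :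
    Rt m i (pos Q) (pos (rot Q i)) := fun v hv => by
  have l := ham_len h
  have a := pos_lt h hv
  have e := (pos_iff h (x := ⟨v, hv⟩)).2 rfl
  by_cases c : pos Q v ≤ i
  · exact Or.inl ⟨c, (pos_iff h' (x := ⟨v, hv⟩)).1 ((rot_le (by omega) c).trans e)⟩
  · have : pos (rot Q i) v = m + i - pos Q v := (pos_iff h' (x := ⟨v, hv⟩)).1 (by
      rw [rot_gt (by omega) (by omega), ← e]
      congr 1
      simp only
      omega)
    omega

theorem pos_range {v : ℕ} (hv : v < m) : pos (List.finRange m) v = v := by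
  rw [pos, dif_pos hv, List.idxOf_finRange]

end

variable {Q Q' : List (Fin (2 * b.n))} {t : ℕ}

theorem hp_of (v : b.Valid) (h : HamPath (gr b) Q) (f : ∀ v ≤ b.n, pos Q v = v) :
    HP b (pos Q) := by
  refine ⟨fun _ => pos_lt h, fun x hx y hy e => ?_, fun j hj => ?_, fun x hx y hy e => ?_, f⟩
  · exact Fin.mk.inj (Option.some.inj
      (((pos_iff h (x := ⟨x, hx⟩)).2 e).symm.trans ((pos_iff h (x := ⟨y, hy⟩)).2 rfl)))
  · have l : j < Q.length := by rwa [ham_len h]
    exact ⟨Q[j], Q[j].2, (pos_iff h).1 (List.getElem?_eq_getElem l)⟩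
  · exact (gr_adj v).1 (chain_iff.1 h.2.2 _ ⟨x, hx⟩ ⟨y, hy⟩ ((pos_iff h).2 rfl)
      ((pos_iff h).2 e.symm))

theorem ham_range (v : b.Valid) : HamPath (gr b) (List.finRange (2 * b.n)) := by
  refine ⟨List.nodup_finRange _, List.mem_finRange, chain_iff.2 fun i x y e1 e2 => ?_⟩
  obtain ⟨l1, rfl⟩ := List.getElem?_eq_some_iff.1 e1
  obtain ⟨l2, rfl⟩ := List.getElem?_eq_some_iff.1 e2
  rw [List.length_finRange] at l2
  refine (gr_adj v).2 (Or.inl ?_)
  simp only [List.getElem_finRange, Fin.val_cast]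
  rw [nx, if_neg (by omega)]

theorem closes_range (v : b.Valid) : Closes (gr b) (List.finRange (2 * b.n)) := by
  have := two v
  have h := ham_range v
  refine ⟨⟨0, by omega⟩, ⟨2 * b.n - 1, by omega⟩, ?_, (last_iff h).2 ?_, (gr_adj v).2 (Or.inl ?_)⟩
  · rw [List.head?_eq_getElem?, pos_iff h, pos_range (by simp only; omega)]
  · rw [pos_range (by simp only; omega)]
    simp only
    omega
  · simp only
    rw [nx, if_pos (by omega)]

theorem rot_mv (v : b.Valid) (h : HamPath (gr b) Q) (s : HP b (pos Q)) (ht : t < b.n)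
    (e : pos Q (b.n + t) + 1 = 2 * b.n) (r : Rot (gr b) Q Q') :
    HP b (pos Q') ∧ ∃ t' < b.n, pos Q' (b.n + t') + 1 = 2 * b.n ∧
      ∃ p, Mv b (eE b (pos Q)) (eC b (pos Q)) t (eE b (pos Q')) (eC b (pos Q')) t' p := by
  have h' := r.ham h
  obtain ⟨i, u, z, h1, h2, h3, h4, h5, rfl⟩ := r
  rw [ham_len h] at h2
  rw [pos_iff h] at h3
  rw [last_iff h] at h4
  have e1 : z.val = b.n + t := s.inj _ z.2 _ (by omega) (by omega)
  have a := (gr_adj v).1 h5
  have k := (s.tk v ht e).noport v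
  have t0 : t ≠ 0 := fun c => k (c ▸ v.k0)
  have u0 : u.val ≠ 0 := fun c => by
    have := s.fix 0 (by omega)
    rw [c] at h3
    omega
  have u2 := u.2
  rw [e1] at a
  obtain ⟨p, hp⟩ : ∃ p, u.val = b.n + p := ⟨u.val - b.n, by
    have := nx_spec b (b.n + t)
    have := pv_spec b (b.n + t)
    have := th_in v ht
    unfold Nb at a
    omega⟩
  rw [hp] at a h3
  have hi := (s.hi (v := p) (by omega)).1
  obtain ⟨t', ht', e2⟩ := s.pre (j := i + 1) (by omega) (by omega)
  have rt := rt_of h h' (show i < 2 * b.n by omega)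
  refine ⟨hp_of v h' fun w hw => ?_, t', ht', ?_, p,
    s.mv v rt (by omega) ht ht' h3 e e2 h2 (a.symm v (by omega))⟩
  · have := rt w (by omega)
    have := s.fix w hw
    change pos (rot Q i) w = w
    omega
  · have := rt (b.n + t') (by omega)
    change pos (rot Q i) _ + 1 = _
    omega

theorem closes_end (v : b.Valid) (h : HamPath (gr b) Q) (s : HP b (pos Q)) (ht : t < b.n)
    (e : pos Q (b.n + t) + 1 = 2 * b.n) (c : Closes (gr b) Q) : t = b.n - 1 := by
  obtain ⟨x, z, h1, h2, h3⟩ := c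
  rw [List.head?_eq_getElem?, pos_iff h] at h1
  rw [last_iff h] at h2
  have e1 : z.val = b.n + t := s.inj _ z.2 _ (by omega) (by omega)
  have e0 : x.val = 0 := s.inj _ x.2 _ (by omega) (by rw [h1, s.fix 0 (by omega)])
  have a := (gr_adj v).1 h3
  have k := (s.tk v ht e).noport v
  have := two v
  have := nx_spec b (b.n + t)
  have := pv_spec b (b.n + t)
  have := th_in v ht
  rw [e0, e1, Nb] at a
  omega

theorem eq_range (h : HamPath (gr b) Q) (s : HP b (pos Q)) (e : ∀ v < b.n, eE b (pos Q) v = 1) :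
    Q = List.finRange (2 * b.n) := by
  refine List.ext_getElem (by rw [ham_len h, List.length_finRange]) fun j h1 h2 => ?_
  have a := (pos_iff h).1 (List.getElem?_eq_getElem h1)
  have c := s.fix Q[j]
  have c' := s.ident e (Q[j].val - b.n)
  have l := Q[j].2
  refine Fin.ext ?_
  simp only [List.getElem_finRange, Fin.val_cast]
  by_cases z : Q[j].val ≤ b.n
  · omega
  · rw [show b.n + (Q[j].val - b.n) = Q[j].val by omega] at c'
    omega

theorem on_iff (h : HamPath (gr b) Q) (s : HP b (pos Q)) {u : ℕ} (hu : u + 1 < b.n)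
    {x y : Fin (2 * b.n)} (hx : x.val = b.n + u) (hy : y.val = b.n + (u + 1)) :
    OnCycle Q x y ↔ eE b (pos Q) (u + 1) = 1 := by
  have a := uu_spec (pos Q) (b.n + u) (b.n + (u + 1))
  have a1 := (s.hi (v := u) (by omega)).1
  have a2 := (s.hi hu).1
  have a3 := s.lt (b.n + u) (by omega)
  have a4 := s.lt (b.n + (u + 1)) (by omega)
  have md : ∀ i < 2 * b.n, (i + 1) % (2 * b.n) = i + 1 ∨ (i + 1) % (2 * b.n) = 0 := fun i hi => by
    by_cases z : i + 1 < 2 * b.n
    · exact Or.inl (Nat.mod_eq_of_lt z)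
    · exact Or.inr (by rw [show i + 1 = 2 * b.n by omega, Nat.mod_self])
  simp only [OnCycle, pos_iff h, ham_len h, hx, hy, eE_eq hu]
  constructor
  · rintro ⟨i, c⟩
    have := md i (by omega)
    omega
  · intro c
    rcases (by omega : pos Q (b.n + u) + 1 = pos Q (b.n + (u + 1)) ∨
      pos Q (b.n + (u + 1)) + 1 = pos Q (b.n + u)) with z | z
    · exact ⟨_, Or.inl ⟨rfl, by rw [Nat.mod_eq_of_lt (by omega), z]⟩⟩
    · exact ⟨_, Or.inr ⟨rfl, by rw [Nat.mod_eq_of_lt (by omega), z]⟩⟩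

namespace Dat

variable {d : Dat}

theorem reach (h : d.OK) {Q : List (Fin (2 * d.board.n))}
    (r : ReflTransGen (Rot (gr d.board)) (List.finRange _) Q) :
    HP d.board (pos Q) ∧ ∃ t < d.board.n, pos Q (d.board.n + t) + 1 = 2 * d.board.n ∧
      d.Nice (eE d.board (pos Q)) (eC d.board (pos Q)) t := by
  have v := valid h
  have n2 := two v
  induction r with
  | refl =>
    refine ⟨hp_of v (ham_range v) fun w hw => pos_range (by omega), d.board.n - 1, by omega,
      by rw [pos_range (by omega)]; omega, nice_start h (fun w hw => ?_) fun w hw => ?_⟩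
    · rw [eE, if_pos hw, uu, pos_range (by omega), pos_range (by omega), if_pos (by omega)]
    · rcases th_in v hw with k | k
      · exact if_neg fun z => z.2 k.1
      · rw [eC_eq hw k.1, uu, pos_range (by omega), pos_range (by omega), if_neg (by omega)]
  | tail r1 r2 ih =>
    obtain ⟨s, t, ht, e, n⟩ := ih
    obtain ⟨s', t', ht', e', p, m⟩ := rot_mv v (reach_ham (ham_range v) r1) s ht e r2
    exact ⟨s', t', ht', e', n.step h (s.tk v ht e) (s'.tk v ht' e') m⟩

theorem U_lt (h : d.OK) : d.U (1, d.V, 0) + 1 < d.board.n := by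
  obtain ⟨a1, a2, a3⟩ := (gt0 (d := d)).2.kd
  have := ((valid h).chord _ a1 (by omega)).1
  have := ((valid h).poly _ a1 a2).1
  omega

theorem answer (h : d.OK) {Q : List (Fin (2 * d.board.n))}
    (r : ReflTransGen (Rot (gr d.board)) (List.finRange _) Q) (ne : Q ≠ List.finRange _)
    (c : Closes (gr d.board) Q) {x y : Fin (2 * d.board.n)}
    (hx : x.val = d.board.n + d.U (1, d.V, 0)) (hy : y.val = d.board.n + (d.U (1, d.V, 0) + 1)) :
    OnCycle Q x y ↔ d.Tv d.V 0 fun _ => false := by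
  have v := valid h
  have hq := reach_ham (ham_range v) r
  obtain ⟨s, t, ht, e, n⟩ := reach h r
  rcases n.fin h (s.tk v ht e) (closes_end v hq s ht e c) with z | z
  · exact absurd (eq_range hq s z) ne
  · rw [on_iff hq s (U_lt h) hx hy, z]

end Dat

end Pool.Agent.Lib.MP_33ce69_lc.Lol
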