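import Pool.Agent.Lib.MP_33ce69_lc.Lol.Mach

/-!
The wiring of the machine that evaluates a quantified formula. Nodes `(t, a, b)`:
0 entry switch of level `a`, 1 and 2 turning triangles (`(1, V, 0)` joins the two answers),
3 and 4 a pass for the decisive value, 5 the switches of variable `a` (`b = 0` for its level,
`b > 0` for literal number `b`), 6 a sink, 7 the triangles of the clauses, 8 the start.
-/

namespace Pool.Agent.Lib.MP_33ce69_lc.Lol

structure Dat where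
  V : ℕ
  S : ℕ
  q : ℕ → Bool
  vr : ℕ → ℕ
  te : ℕ → ℕ

abbrev Nd := ℕ × ℕ × ℕ

namespace Dat

variable (d : Dat)

structure OK : Prop where
  s3 : d.S % 3 = 0
  lt : ∀ b, 1 ≤ b → b ≤ d.S → d.vr b < d.V
  te : ∀ b, d.te b = 1 ∨ d.te b = 2

def kk (t a b : ℕ) : ℕ :=
  if t = 0 then (if a ≤ d.V ∧ b = 0 then 5 else 0)
  else if t = 1 then (if a ≤ d.V ∧ b = 0 then 3 else 0)
  else if t = 2 then (if a < d.V ∧ b = 0 then 3 else 0)
  else if t = 3 then (if a < d.V ∧ b = 0 then 5 else 0)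
  else if t = 4 then (if a < d.V ∧ b = 0 then 3 else 0)
  else if t = 5 then (if a < d.V ∧ b ≤ d.S then 5 else 0)
  else if t = 6 then (if a < d.V ∧ 1 ≤ b ∧ b ≤ d.S ∧ d.vr b ≠ a then 3 else 0)
  else if t = 7 then (if a = 0 ∧ 1 ≤ b ∧ b ≤ d.S then 3 else 0)
  else if t = 8 ∧ a = 0 ∧ b = 0 then 2 else 0

def aOut (b : ℕ) : Nd × ℕ := if b = 1 then ((0, d.V, 0), 1) else ((7, 0, b - 2), 1)
def fOut (b : ℕ) : Nd × ℕ := if b = 3 then ((0, d.V, 0), 2) else ((7, 0, b - 3), 1)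

def out (k : ℕ) (r : Bool) : Nd × ℕ :=
  if k = d.V then (if r = true then d.aOut (d.S + 1) else d.fOut (d.S + 3))
  else if r = d.q k then ((5, k, 0), 2) else ((3, k, 0), 3)

def con (k : ℕ) (r : Bool) : Nd × ℕ :=
  if k = 0 then ((1, d.V, 0), if r = true then 0 else 2)
  else if r = d.q (k - 1) then ((5, k - 1, 0), 4) else ((3, k - 1, 0), 0)

def aIn (b : ℕ) : Nd × ℕ := if d.S < b then d.con d.V true else ((5, d.vr b, b), 4)
def fIn (b : ℕ) : Nd × ℕ := if d.S < b then d.con d.V false else ((7, 0, b), 2)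

def l0 (a j : ℕ) : Nd × ℕ :=
  if j = 4 then (if a = 0 then ((8, 0, 0), 0) else ((0, a - 1, 0), 1))
  else if a = d.V then
    (if j = 0 then ((0, a, 0), 3) else if j = 1 then d.aIn 1 else if j = 2 then d.fIn 3
      else ((0, a, 0), 0))
  else if j = 0 then ((1, a, 0), 1) else if j = 1 then ((0, a + 1, 0), 4)
  else if j = 2 then ((1, a, 0), 2) else ((2, a, 0), 0)

def l1 (a j : ℕ) : Nd × ℕ :=
  if a = d.V then
    (if j = 0 then d.out 0 true else if j = 1 then ((8, 0, 0), 1) else d.out 0 false)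
  else if j = 0 then ((5, a, 0), 1) else if j = 1 then ((0, a, 0), 0) else ((0, a, 0), 2)

def l3 (a j : ℕ) : Nd × ℕ :=
  if j = 0 then d.out (a + 1) (!d.q a) else if j = 1 then ((3, a, 0), 4)
  else if j = 2 then ((4, a, 0), 0) else if j = 3 then d.con a (!d.q a) else ((3, a, 0), 1)

def l5 (a b j : ℕ) : Nd × ℕ :=
  if j = 0 then (if b = 0 then ((2, a, 0), 1) else ((5, a, b - 1), 3))
  else if j = 3 then (if b = d.S then ((2, a, 0), 2) else ((5, a, b + 1), 0))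
  else if b = 0 then
    (if j = 1 then ((1, a, 0), 0) else if j = 2 then d.con a (d.q a) else d.out (a + 1) (d.q a))
  else if d.vr b ≠ a then
    (if j = 1 then ((5, a, b), 4) else if j = 2 then ((6, a, b), 0) else ((5, a, b), 1))
  else if j = 4 then
    (if b % 3 = 1 then d.aOut b else ((5, d.vr (b - 1), b - 1), 3 - d.te (b - 1)))
  else if j = d.te b then (if b % 3 = 1 then ((7, 0, b), 0) else ((7, 0, b - 1), 2))
  else if b % 3 = 0 then ((7, 0, b), 0) else ((5, d.vr (b + 1), b + 1), 4)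

def l7 (b j : ℕ) : Nd × ℕ :=
  if b % 3 = 0 then
    (if j = 0 then ((5, d.vr b, b), 3 - d.te b) else if j = 1 then d.fIn (b + 3) else d.fOut b)
  else if j = 2 then ((5, d.vr (b + 1), b + 1), d.te (b + 1))
  else if b % 3 = 1 then (if j = 0 then ((5, d.vr b, b), d.te b) else ((7, 0, b + 1), 0))
  else if j = 0 then ((7, 0, b - 1), 1) else d.aIn (b + 2)

def lk (t a b j : ℕ) : Nd × ℕ :=
  if t = 0 then d.l0 a j else if t = 1 then d.l1 a j
  else if t = 2 then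
    (if j = 0 then ((0, a, 0), 3) else if j = 1 then ((5, a, 0), 0) else ((5, a, d.S), 3))
  else if t = 3 then d.l3 a j
  else if t = 4 then (if j = 0 then ((3, a, 0), 2) else ((4, a, 0), 3 - j))
  else if t = 5 then d.l5 a b j
  else if t = 6 then (if j = 0 then ((5, a, b), 2) else ((6, a, b), 3 - j))
  else if t = 7 then d.l7 b j
  else if j = 0 then ((0, 0, 0), 4) else ((1, d.V, 0), 1)

def K (x : Nd) : ℕ := d.kk x.1 x.2.1 x.2.2
def lnk (p : Nd × ℕ) : Nd × ℕ := d.lk p.1.1 p.1.2.1 p.1.2.2 p.2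

/-- the corners that are used in the first cycle -/
def IsIn (p : Nd × ℕ) : Prop := (p.2 = 0 ∧ d.K p.1 ≠ 2) ∨ p.2 + 1 = d.K p.1

/-- a lane from the corner `p` to the corner `p'` -/
def Lane (p p' : Nd × ℕ) : Prop :=
  d.lnk p = p' ∧ d.lnk p' = p ∧ p.2 < d.K p.1 ∧ p'.2 < d.K p'.1 ∧ ¬ d.IsIn p ∧ d.IsIn p'

variable {d} {a b : ℕ}

theorem con_in {k : ℕ} (hk : k ≤ d.V) (r : Bool) :
    d.lnk (d.con k r) = d.out k r ∧ (d.con k r).2 < d.K (d.con k r).1 ∧ d.IsIn (d.con k r) := by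
  unfold con
  cases k with
  | zero => cases r <;> simp [lnk, lk, l1, K, kk, IsIn]
  | succ k =>
    have : k < d.V := hk
    by_cases e : r = d.q k
    · simp [lnk, lk, l5, K, kk, IsIn, e, this]
    · have e' : (!d.q k) = r := by revert e; cases r <;> cases d.q k <;> simp
      simp [lnk, lk, l3, K, kk, IsIn, e, e', this]

theorem lane_a (h : d.OK) (h1 : b % 3 = 1) (h2 : b ≤ d.S + 1) : d.Lane (d.aOut b) (d.aIn b) := by
  have s3 := h.s3
  have a : d.lnk (d.aOut b) = d.aIn b ∧ (d.aOut b).2 < d.K (d.aOut b).1 ∧ ¬ d.IsIn (d.aOut b) := by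
    unfold aOut
    split_ifs with e
    · simp [lnk, lk, l0, K, kk, IsIn, e]
    · obtain ⟨c, rfl⟩ : ∃ c, b = c + 2 := ⟨b - 2, by omega⟩
      have e1 : c % 3 = 2 := by omega
      have e2 : 1 ≤ c ∧ c ≤ d.S := by omega
      simp [lnk, lk, l7, K, kk, IsIn, e1, e2]
  refine ⟨a.1, ?_, a.2.1, ?_, a.2.2, ?_⟩ <;> unfold aIn <;> split_ifs with e
  · rw [(con_in le_rfl true).1, out, if_pos rfl, if_pos rfl, show d.S + 1 = b by omega]
  · have : b ≠ 0 := by omega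
    simp [lnk, lk, l5, h1, this]
  · exact (con_in le_rfl true).2.1
  · simp [K, kk, h.lt b (by omega) (by omega), not_lt.1 e]
  · exact (con_in le_rfl true).2.2
  · simp [IsIn, K, kk, h.lt b (by omega) (by omega), not_lt.1 e]

theorem lane_f (h : d.OK) (h1 : b % 3 = 0) (h0 : 1 ≤ b) (h2 : b ≤ d.S + 3) :
    d.Lane (d.fOut b) (d.fIn b) := by
  have s3 := h.s3
  have a : d.lnk (d.fOut b) = d.fIn b ∧ (d.fOut b).2 < d.K (d.fOut b).1 ∧ ¬ d.IsIn (d.fOut b) := by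
    unfold fOut
    split_ifs with e
    · simp [lnk, lk, l0, K, kk, IsIn, e]
    · obtain ⟨c, rfl⟩ : ∃ c, b = c + 3 := ⟨b - 3, by omega⟩
      have e1 : c % 3 = 0 := by omega
      have e2 : 1 ≤ c ∧ c ≤ d.S := by omega
      simp [lnk, lk, l7, K, kk, IsIn, e1, e2]
  refine ⟨a.1, ?_, a.2.1, ?_, a.2.2, ?_⟩ <;> unfold fIn <;> split_ifs with e
  · rw [(con_in le_rfl false).1, out, if_pos rfl, if_neg (by simp), show d.S + 3 = b by omega]
  · simp [lnk, lk, l7, h1]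
  · exact (con_in le_rfl false).2.1
  · simp [K, kk, h0, not_lt.1 e]
  · exact (con_in le_rfl false).2.2
  · simp [IsIn, K, kk, h0, not_lt.1 e]

theorem lane_o (h : d.OK) {k : ℕ} (hk : k ≤ d.V) (r : Bool) : d.Lane (d.out k r) (d.con k r) := by
  have s3 := h.s3
  by_cases e : k = d.V
  · subst e
    cases r
    · have := lane_f h (b := d.S + 3) (by omega) (by omega) le_rfl
      rw [fIn, if_pos (by omega)] at this
      simpa [out]
    · have := lane_a h (b := d.S + 1) (by omega) le_rfl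
      rw [aIn, if_pos (by omega)] at this
      simpa [out]
  · have lt : k < d.V := by omega
    obtain ⟨c1, c2, c3⟩ := con_in hk r
    refine ⟨?_, c1, ?_, c2, ?_, c3⟩ <;> rw [out, if_neg e] <;> split_ifs with z
    · simp [lnk, lk, l5, z]
    · have e' : (!d.q k) = r := by revert z; cases r <;> cases d.q k <;> simp
      simp [lnk, lk, l3, e']
    all_goals simp [IsIn, K, kk, lt]

theorem lane_s : d.Lane ((8, 0, 0), 0) ((0, 0, 0), 4) ∧ d.Lane ((1, d.V, 0), 1) ((8, 0, 0), 1) ∧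
    d.Lane ((0, d.V, 0), 3) ((0, d.V, 0), 0) := by
  simp [Lane, lnk, lk, l0, l1, IsIn, K, kk]

theorem lane_v (ha : a < d.V) :
    d.Lane ((0, a, 0), 1) ((0, a + 1, 0), 4) ∧ d.Lane ((0, a, 0), 2) ((1, a, 0), 2) ∧
    d.Lane ((0, a, 0), 3) ((2, a, 0), 0) ∧ d.Lane ((1, a, 0), 1) ((0, a, 0), 0) ∧
    d.Lane ((5, a, 0), 1) ((1, a, 0), 0) ∧ d.Lane ((2, a, 0), 1) ((5, a, 0), 0) ∧
    d.Lane ((5, a, d.S), 3) ((2, a, 0), 2) ∧ d.Lane ((3, a, 0), 1) ((3, a, 0), 4) ∧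
    d.Lane ((3, a, 0), 2) ((4, a, 0), 0) ∧ d.Lane ((4, a, 0), 1) ((4, a, 0), 2) := by
  have h1 : a ≠ d.V := ha.ne
  have h2 : a ≤ d.V := ha.le
  have h3 : a + 1 ≤ d.V := ha
  simp [Lane, lnk, lk, l0, l1, l3, l5, IsIn, K, kk, *]

theorem lane_c (ha : a < d.V) (hb : b < d.S) : d.Lane ((5, a, b), 3) ((5, a, b + 1), 0) := by
  have h1 : b ≠ d.S := hb.ne
  have h2 : b ≤ d.S := hb.le
  have h3 : b + 1 ≤ d.S := hb
  simp [Lane, lnk, lk, l5, IsIn, K, kk, *]

theorem lane_n (ha : a < d.V) (h0 : 1 ≤ b) (hb : b ≤ d.S) (e : d.vr b ≠ a) :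
    d.Lane ((5, a, b), 1) ((5, a, b), 4) ∧ d.Lane ((5, a, b), 2) ((6, a, b), 0) ∧
    d.Lane ((6, a, b), 1) ((6, a, b), 2) := by
  have h1 : b ≠ 0 := by omega
  simp [Lane, lnk, lk, l5, IsIn, K, kk, *]

theorem lane_l (h : d.OK) (h1 : b % 3 = 1) (hb : b ≤ d.S) :
    d.Lane ((5, d.vr b, b), d.te b) ((7, 0, b), 0) ∧
    d.Lane ((5, d.vr (b + 1), b + 1), d.te (b + 1)) ((7, 0, b), 2) ∧
    d.Lane ((5, d.vr (b + 2), b + 2), d.te (b + 2)) ((7, 0, b + 1), 2) ∧
    d.Lane ((7, 0, b), 1) ((7, 0, b + 1), 0) ∧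
    d.Lane ((5, d.vr b, b), 3 - d.te b) ((5, d.vr (b + 1), b + 1), 4) ∧
    d.Lane ((5, d.vr (b + 1), b + 1), 3 - d.te (b + 1)) ((5, d.vr (b + 2), b + 2), 4) ∧
    d.Lane ((5, d.vr (b + 2), b + 2), 3 - d.te (b + 2)) ((7, 0, b + 2), 0) := by
  have s3 := h.s3
  have a0 : b ≠ 0 := by omega
  have a1 : 1 ≤ b := by omega
  have a2 : b + 1 ≤ d.S := by omega
  have a3 : b + 2 ≤ d.S := by omega
  have a4 : (b + 1) % 3 = 2 := by omega
  have a5 : (b + 2) % 3 = 0 := by omega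
  have a6 := h.lt b a1 hb
  have a7 := h.lt (b + 1) (by omega) a2
  have a8 := h.lt (b + 2) (by omega) a3
  have a9 : b + 1 + 1 = b + 2 := rfl
  have b1 : b + 2 - 1 = b + 1 := rfl
  refine ⟨?_, ?_, ?_, ?_, ?_, ?_, ?_⟩
  · rcases h.te b with e | e <;> simp [Lane, lnk, lk, l5, l7, IsIn, K, kk, *]
  · rcases h.te (b + 1) with e | e <;> simp [Lane, lnk, lk, l5, l7, IsIn, K, kk, *]
  · rcases h.te (b + 2) with e | e <;> simp [Lane, lnk, lk, l5, l7, IsIn, K, kk, *]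
  · simp [Lane, lnk, lk, l7, IsIn, K, kk, *]
  · rcases h.te b with e | e <;> simp [Lane, lnk, lk, l5, IsIn, K, kk, *]
  · rcases h.te (b + 1) with e | e <;> simp [Lane, lnk, lk, l5, IsIn, K, kk, *]
  · rcases h.te (b + 2) with e | e <;> simp [Lane, lnk, lk, l5, l7, IsIn, K, kk, *]

/-- `p` is an end of a lane -/
def Gd (d : Dat) (p : Nd × ℕ) : Prop := ∃ p', d.Lane p p' ∨ d.Lane p' p

theorem Lane.l {p p' : Nd × ℕ} (h : d.Lane p p') : d.Gd p := ⟨p', Or.inl h⟩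
theorem Lane.r {p p' : Nd × ℕ} (h : d.Lane p p') : d.Gd p' := ⟨p, Or.inr h⟩

theorem gd_con (h : d.OK) (ha : a < d.V) : d.Gd ((5, a, 0), 4) ∧ d.Gd ((3, a, 0), 0) ∧
    d.Gd ((5, a, 0), 2) ∧ d.Gd ((3, a, 0), 3) := by
  have e : (!d.q a) ≠ d.q a := by cases d.q a <;> simp
  refine ⟨?_, ?_, ?_, ?_⟩
  · simpa [con] using (lane_o h (k := a + 1) ha (d.q a)).r
  · simpa [con, e] using (lane_o h (k := a + 1) ha (!d.q a)).r
  · simpa [out, ha.ne] using (lane_o h ha.le (d.q a)).l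
  · simpa [out, ha.ne, e] using (lane_o h ha.le (!d.q a)).l

theorem gd_lit (h : d.OK) (h0 : 1 ≤ b) (hb : b ≤ d.S) :
    d.Gd ((5, d.vr b, b), d.te b) ∧ d.Gd ((5, d.vr b, b), 3 - d.te b) ∧ d.Gd ((5, d.vr b, b), 4) ∧
      d.Gd ((7, 0, b), 0) ∧ d.Gd ((7, 0, b), 1) ∧ d.Gd ((7, 0, b), 2) := by
  have s3 := h.s3
  rcases (by omega : b % 3 = 1 ∨ b % 3 = 2 ∨ b % 3 = 0) with e | e | e
  · obtain ⟨a1, a2, -, a4, a5, -⟩ := lane_l h e hb
    refine ⟨a1.l, a5.l, ?_, a1.r, a4.l, a2.r⟩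
    simpa [aIn, not_lt.2 hb] using (lane_a h e (by omega)).r
  · obtain ⟨c, rfl⟩ : ∃ c, b = c + 1 := ⟨b - 1, by omega⟩
    obtain ⟨-, a2, a3, a4, a5, a6, -⟩ := lane_l h (b := c) (by omega) (by omega)
    refine ⟨a2.l, a6.l, a5.r, a4.r, ?_, a3.r⟩
    have := (lane_a h (b := c + 3) (by omega) (by omega)).l
    rwa [aOut, if_neg (by omega)] at this
  · obtain ⟨c, rfl⟩ : ∃ c, b = c + 2 := ⟨b - 2, by omega⟩
    obtain ⟨-, -, a3, -, -, a6, a7⟩ := lane_l h (b := c) (by omega) (by omega)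
    refine ⟨a3.l, a7.l, a6.r, a7.r, ?_, ?_⟩
    · have := (lane_f h (b := c + 5) (by omega) (by omega) (by omega)).l
      rwa [fOut, if_neg (by omega)] at this
    · simpa [fIn, not_lt.2 hb] using (lane_f h e h0 (by omega)).r

theorem gd_all (h : d.OK) {t j : ℕ} (r : j < d.kk t a b) : d.Gd ((t, a, b), j) := by
  have s3 := h.s3
  unfold kk at r
  split_ifs at r with t0 c t1 c t2 c t3 c t4 c t5 c t6 c t7 c c <;> try omega
  · obtain ⟨c, rfl⟩ := c
    subst t0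
    have x : d.Gd ((0, a, 0), 4) := by
      cases a with
      | zero => exact lane_s.1.r
      | succ a => exact (lane_v c).1.r
    rcases c.eq_or_lt with rfl | c
    · interval_cases j
      · exact lane_s.2.2.r
      · simpa [aOut] using (lane_a h (b := 1) rfl (by omega)).l
      · simpa [fOut] using (lane_f h (b := 3) rfl (by omega) (by omega)).l
      · exact lane_s.2.2.l
      · exact x
    · obtain ⟨a1, a2, a3, a4, -⟩ := lane_v c
      interval_cases j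
      exacts [a4.r, a1.l, a2.l, a3.l, x]
  · obtain ⟨c, rfl⟩ := c
    subst t1
    rcases c.eq_or_lt with rfl | c
    · interval_cases j
      · simpa [con] using (lane_o h (k := 0) (by omega) true).r
      · exact lane_s.2.1.l
      · simpa [con] using (lane_o h (k := 0) (by omega) false).r
    · obtain ⟨-, a2, -, a4, a5, -⟩ := lane_v c
      interval_cases j
      exacts [a5.r, a4.l, a2.r]
  · obtain ⟨c, rfl⟩ := c
    subst t2
    obtain ⟨-, -, a3, -, -, a6, a7, -⟩ := lane_v c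
    interval_cases j
    exacts [a3.r, a6.l, a7.r]
  · obtain ⟨c, rfl⟩ := c
    subst t3
    obtain ⟨-, -, -, -, -, -, -, a8, a9, -⟩ := lane_v c
    interval_cases j
    exacts [(gd_con h c).2.1, a8.l, a9.l, (gd_con h c).2.2.2, a8.r]
  · obtain ⟨c, rfl⟩ := c
    subst t4
    obtain ⟨-, -, -, -, -, -, -, -, a9, a10⟩ := lane_v c
    interval_cases j
    exacts [a9.r, a10.l, a10.r]
  · obtain ⟨c, c'⟩ := c
    subst t5
    obtain ⟨-, -, -, -, a5, a6, a7, -⟩ := lane_v c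
    have x3 : d.Gd ((5, a, b), 3) := by
      rcases c'.eq_or_lt with rfl | z
      exacts [a7.l, (lane_c c z).l]
    cases b with
    | zero =>
      interval_cases j
      exacts [a6.r, a5.l, (gd_con h c).2.2.1, x3, (gd_con h c).1]
    | succ b =>
      have x0 := (lane_c c c').r
      by_cases e : d.vr (b + 1) = a
      · subst e
        obtain ⟨y1, y2, y3, -⟩ := gd_lit h (b := b + 1) (by omega) c'
        rcases h.te (b + 1) with z | z <;> rw [z] at y1 y2 <;> interval_cases j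
        exacts [x0, y1, y2, x3, y3, x0, y2, y1, x3, y3]
      · obtain ⟨y1, y2, -⟩ := lane_n c (by omega) c' e
        interval_cases j
        exacts [x0, y1.l, y2.l, x3, y1.r]
  · obtain ⟨c1, c2, c3, c4⟩ := c
    subst t6
    obtain ⟨-, y2, y3⟩ := lane_n c1 c2 c3 c4
    interval_cases j
    exacts [y2.r, y3.l, y3.r]
  · obtain ⟨rfl, c2, c3⟩ := c
    subst t7
    obtain ⟨-, -, -, y1, y2, y3⟩ := gd_lit h c2 c3
    interval_cases j
    exacts [y1, y2, y3]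
  · obtain ⟨rfl, rfl, rfl⟩ := c
    interval_cases j
    exacts [lane_s.1.l, lane_s.2.1.r]

theorem flip (h : d.OK) {p : Nd × ℕ} (r : p.2 < d.K p.1) :
    (d.lnk p).2 < d.K (d.lnk p).1 ∧ d.lnk (d.lnk p) = p ∧ (d.IsIn (d.lnk p) ↔ ¬ d.IsIn p) := by
  obtain ⟨p', ⟨a1, a2, -, a4, a5, a6⟩ | ⟨a1, a2, a3, -, a5, a6⟩⟩ := gd_all h r
  · obtain rfl : d.lnk p = p' := a1
    exact ⟨a4, a2, iff_of_true a6 a5⟩
  · obtain rfl : d.lnk p = p' := a2
    exact ⟨a3, a1, iff_of_false a5 (not_not.2 a6)⟩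

theorem inv (h : d.OK) : Inv d.K d.lnk := fun _ r => ⟨(flip h r).1, (flip h r).2.1⟩

end Dat

end Pool.Agent.Lib.MP_33ce69_lc.Lol
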